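import Pool.Agent.H41.VS.Defs

/-!
# ALB: basic facts on the automorphisms `al r`

`al_al`: compare on variables (`MvPolynomial.algHom_ext`, `cz` is additive).  `al_homog`: the
images of the variables are homogeneous of degree `1`.  `Tr_w`: the sum over
`r : Fin 3 → ZMod 2` of `∏_j (y_ij + r_j t_i)` is `∏_j (y_ij + y_ij + t_i) = t_i ^ 3`
(`Finset.prod_univ_sum`, or `Fin.consEquiv`/`decide`-free expansion; char 2: `CharTwo.add_self_eq_zero`).
`al_nn`: `(y + c t)^2 + t (y + c t) = y^2 + t y` as `c^2 = c` for `c = cz k (r j)` and `2 = 0`.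
-/

set_option autoImplicit false

namespace VSQR

open MvPolynomial Finset

variable {k : Type} [CommRing k] [CharP k 2]

theorem al_inl (r : Fin 3 → ZMod 2) (i : Fin 2) :
    al r (X (Sum.inl i) : MvPolynomial I k) = X (Sum.inl i) := by
  simp [al]

theorem al_inr (r : Fin 3 → ZMod 2) (p : Fin 2 × Fin 3) :
    al r (X (Sum.inr p) : MvPolynomial I k) =
      X (Sum.inr p) + C (cz k (r p.2)) * X (Sum.inl p.1) := by
  simp [al]

theorem al_al (r r' : Fin 3 → ZMod 2) (s : MvPolynomial I k) : al r (al r' s) = al (r + r') s := by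
  have h : (al r).comp (al r') = (al (r + r') : MvPolynomial I k →ₐ[k] MvPolynomial I k) := by
    refine MvPolynomial.algHom_ext fun i => ?_
    rw [AlgHom.comp_apply]
    cases i with
    | inl i => rw [al_inl, al_inl, al_inl]
    | inr p =>
      rw [al_inr, al_inr, map_add, map_mul, al_inr, al_inl, Pi.add_apply, map_add, C_add]
      have hC : al r (C (cz k (r' p.2)) : MvPolynomial I k) = C (cz k (r' p.2)) :=
        (al r).commutes _
      rw [hC]
      ring
  exact DFunLike.congr_fun h s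

theorem al_zero (s : MvPolynomial I k) : al 0 s = s := by
  have h : (al 0 : MvPolynomial I k →ₐ[k] MvPolynomial I k) = AlgHom.id k _ := by
    refine MvPolynomial.algHom_ext fun i => ?_
    cases i with
    | inl i => rw [al_inl]; rfl
    | inr p => rw [al_inr, Pi.zero_apply, map_zero, C_0, zero_mul, add_zero]; rfl
  exact DFunLike.congr_fun h s

theorem al_homog (r : Fin 3 → ZMod 2) {n : ℕ} {s : MvPolynomial I k} (hs : s.IsHomogeneous n) :
    (al r s).IsHomogeneous n := by
  have h := hs.aeval (Sum.elim (fun i => X (Sum.inl i))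
    (fun p => X (Sum.inr p) + C (cz k (r p.2)) * X (Sum.inl p.1)) : I → MvPolynomial I k) (n := 1)
    (by
      intro i
      cases i with
      | inl i => exact isHomogeneous_X k _
      | inr p =>
        refine (isHomogeneous_X k _).add ?_
        have := (isHomogeneous_C I (cz k (r p.2))).mul (isHomogeneous_X k (Sum.inl p.1 : I))
        rwa [zero_add] at this)
  rw [one_mul] at h
  exact h

theorem al_Tr (r : Fin 3 → ZMod 2) (s : MvPolynomial I k) :
    al r (∑ r' : Fin 3 → ZMod 2, al r' s) = ∑ r' : Fin 3 → ZMod 2, al r' s := by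
  rw [map_sum]
  simp only [al_al]
  exact Fintype.sum_equiv (Equiv.addLeft r) _ _ fun _ => rfl

/-- projection formula for the trace -/
theorem Tr_mul (a s : MvPolynomial I k) (ha : ∀ r, al r a = a) :
    ∑ r : Fin 3 → ZMod 2, al r (a * s) = a * ∑ r : Fin 3 → ZMod 2, al r s := by
  rw [Finset.mul_sum]
  exact Finset.sum_congr rfl fun r _ => by rw [map_mul, ha]

/-- `w_i = y_i1 y_i2 y_i3` -/
noncomputable def w (k : Type) [CommRing k] (i : Fin 2) : MvPolynomial I k :=
  X (Sum.inr (i, 0)) * X (Sum.inr (i, 1)) * X (Sum.inr (i, 2))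

theorem Tr_w (i : Fin 2) :
    ∑ r : Fin 3 → ZMod 2, al r (w k i) = X (Sum.inl i) ^ 3 := by
  have h1 : ∀ r : Fin 3 → ZMod 2, al r (w k i) =
      ∏ j : Fin 3, (X (Sum.inr (i, j)) + C (cz k (r j)) * X (Sum.inl i) : MvPolynomial I k) := by
    intro r
    rw [w, map_mul, map_mul, al_inr, al_inr, al_inr, Fin.prod_univ_three]
  simp only [h1]
  have h2 := Finset.prod_univ_sum (fun _ : Fin 3 => (univ : Finset (ZMod 2)))
    (fun j c => (X (Sum.inr (i, j)) + C (cz k c) * X (Sum.inl i) : MvPolynomial I k))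
  rw [Fintype.piFinset_univ] at h2
  rw [← h2]
  have h3 : ∀ j : Fin 3, ∑ c : ZMod 2,
      (X (Sum.inr (i, j)) + C (cz k c) * X (Sum.inl i) : MvPolynomial I k) = X (Sum.inl i) := by
    intro j
    have h4 : (univ : Finset (ZMod 2)) = {0, 1} := rfl
    rw [h4, Finset.sum_pair (by decide), map_zero, map_one, C_0, C_1, zero_mul, one_mul, add_zero,
      ← add_assoc, CharTwo.add_self_eq_zero, zero_add]
  simp only [h3, Finset.prod_const, Finset.card_univ, Fintype.card_fin]

/-- `n_p = y_p ^ 2 + t_i y_p` -/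
noncomputable def nn (k : Type) [CommRing k] (p : Fin 2 × Fin 3) : MvPolynomial I k :=
  X (Sum.inr p) ^ 2 + X (Sum.inl p.1) * X (Sum.inr p)

theorem al_nn (r : Fin 3 → ZMod 2) (p : Fin 2 × Fin 3) : al r (nn k p) = nn k p := by
  have hc : cz k (r p.2) * cz k (r p.2) = cz k (r p.2) := by
    rw [← map_mul]
    congr 1
    generalize r p.2 = c
    revert c
    decide
  have hC : (C (cz k (r p.2)) * C (cz k (r p.2)) : MvPolynomial I k) = C (cz k (r p.2)) := by
    rw [← C_mul, hc]
  have h2 : (2 : MvPolynomial I k) = 0 := CharTwo.two_eq_zero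
  rw [nn, map_add, map_pow, map_mul, al_inr, al_inl]
  linear_combination (X (Sum.inr p) * C (cz k (r p.2)) * X (Sum.inl p.1) +
    C (cz k (r p.2)) * X (Sum.inl p.1) ^ 2 : MvPolynomial I k) * h2 +
    (X (Sum.inl p.1) ^ 2 : MvPolynomial I k) * hC

/-- the parameters `t_i ^ M`, `n_p ^ Q` -/
noncomputable def gg (k : Type) [CommRing k] (M Q : ℕ) : I → MvPolynomial I k :=
  Sum.elim (fun i => X (Sum.inl i) ^ M) (fun p => nn k p ^ Q)

theorem al_gg (M Q : ℕ) (r : Fin 3 → ZMod 2) (i : I) : al r (gg k M Q i) = gg k M Q i := by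
  cases i with
  | inl i =>
    change al r (X (Sum.inl i) ^ M) = X (Sum.inl i) ^ M
    rw [map_pow, al_inl]
  | inr p =>
    change al r (nn k p ^ Q) = nn k p ^ Q
    rw [map_pow, al_nn]

/-- the socle monomial -/
noncomputable def s0 (k : Type) [CommRing k] (M Q : ℕ) : MvPolynomial I k :=
  X (Sum.inl 0) ^ (M - 1) * X (Sum.inl 1) ^ (M - 1) * ∏ p : Fin 2 × Fin 3, X (Sum.inr p) ^ (2 * Q - 1)

end VSQR
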