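import Mathlib

/-!
# STEP: one step of the chain of primes

Let `J' = J ⊔ span {h}`.
(0) Let `N = {x | ∀ c ∈ p, c * x ∈ J}`, an ideal with `J ≤ N`, `y ∈ N`.  `h ∉ p`: otherwise
`h * y ∈ J`, so `e * y ∈ J`, so `e ∈ p ≤ q`.
(1) Claim: there is `x ∈ N` such that `a * x ∈ J'` implies `a ∈ q`.  Otherwise, `N` being
finitely generated and `q` prime, there is `a ∉ q` with `a * x ∈ J'` for all `x ∈ N`.  For `x ∈ N`,
`a * x = i + h * z`, `i ∈ J`; for `c ∈ p`: `h * (c * z) ∈ J`, so `e * (c * z) ∈ J`; so `e * z ∈ N`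
and `(e * a) * x ∈ J + h * N`.  The determinant trick for the finitely generated module
`N/J` gives `d` with `d - (e * a) ^ n ∈ span {h}` and `d * x ∈ J` for `x ∈ N`; with `x = y`:
`d ∈ p ≤ q`, so `e * a ∈ q`, contradiction.
(2) For `x ∈ N` let `K x = {a | ∃ c ∉ q, c * a * x ∈ J'}`, an ideal.  By (1) some `x ∈ N` has
`K x ≤ q`; take `x ∈ N` with `K x ≤ q` and `K x` maximal (`A` Noetherian).  `K x` is prime: if
`a * b ∈ K x`, `b ∉ K x`, then `b * x ∈ N`, `K x ≤ K (b * x) ≤ q` (if `u ∈ K (b * x)`, `u ∉ q`,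
then `b ∈ K x`), so `K (b * x) = K x ∋ a`.
(3) `K x` is finitely generated, so there is `c ∉ q` with `c * a * x ∈ J'` for all `a ∈ K x`.
`p' = K x`, `y' = c * x`.  `p ≤ K x` as `x ∈ N`; `h ∈ K x`, `h ∉ p`.
-/

set_option autoImplicit false

namespace VSQR

theorem step_common {A : Type} [CommRing A] [IsNoetherianRing A] (q J' I : Ideal A)
    (hq : q.IsPrime) (x : A) (hI : ∀ a ∈ I, ∃ c, c ∉ q ∧ c * (a * x) ∈ J') :
    ∃ c, c ∉ q ∧ ∀ a ∈ I, c * (a * x) ∈ J' := by
  classical
  obtain ⟨n, s, hs⟩ := Submodule.fg_iff_exists_fin_generating_family.1 (IsNoetherian.noetherian I)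
  have hmem : ∀ i, s i ∈ I := fun i => by
    rw [← hs]
    exact Submodule.subset_span ⟨i, rfl⟩
  choose c hc hc' using fun i => hI (s i) (hmem i)
  refine ⟨∏ i, c i, ?_, ?_⟩
  · intro h
    obtain ⟨i, _, hi⟩ := (hq.prod_mem_iff).1 h
    exact hc i hi
  · intro a ha
    rw [← hs] at ha
    induction ha using Submodule.span_induction with
    | mem a ha =>
      obtain ⟨i, rfl⟩ := ha
      obtain ⟨t, ht⟩ := Finset.dvd_prod_of_mem c (Finset.mem_univ i)
      rw [ht]
      have : c i * t * (s i * x) = t * (c i * (s i * x)) := by ring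
      rw [this]
      exact J'.mul_mem_left _ (hc' i)
    | zero => simp
    | add a b _ _ h1 h2 =>
      have : (∏ i, c i) * ((a + b) * x) = (∏ i, c i) * (a * x) + (∏ i, c i) * (b * x) := by ring
      rw [this]
      exact J'.add_mem h1 h2
    | smul r a _ h1 =>
      have : (∏ i, c i) * ((r • a) * x) = r * ((∏ i, c i) * (a * x)) := by
        rw [smul_eq_mul]; ring
      rw [this]
      exact J'.mul_mem_left _ h1

/-- the ideal of the elements `x` with `c * x ∈ J` for `c ∈ p`. -/
def stepN {A : Type} [CommRing A] (J p : Ideal A) : Ideal A where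
  carrier := {x | ∀ c ∈ p, c * x ∈ J}
  add_mem' := by
    intro a b ha hb c hc
    rw [mul_add]
    exact J.add_mem (ha c hc) (hb c hc)
  zero_mem' := by
    intro c _
    rw [mul_zero]
    exact J.zero_mem
  smul_mem' := by
    intro r a ha c hc
    have : c * (r • a) = r * (c * a) := by rw [smul_eq_mul]; ring
    rw [this]
    exact J.mul_mem_left _ (ha c hc)

/-- the ideal of the elements `a` with `c * (a * x) ∈ J'` for some `c ∉ q`. -/
def stepK {A : Type} [CommRing A] (q J' : Ideal A) (hq : q.IsPrime) (x : A) : Ideal A where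
  carrier := {a | ∃ c, c ∉ q ∧ c * (a * x) ∈ J'}
  add_mem' := by
    rintro a b ⟨c, hc, hc'⟩ ⟨d, hd, hd'⟩
    refine ⟨c * d, fun h => (hq.mem_or_mem h).elim hc hd, ?_⟩
    have : c * d * ((a + b) * x) = d * (c * (a * x)) + c * (d * (b * x)) := by ring
    rw [this]
    exact J'.add_mem (J'.mul_mem_left _ hc') (J'.mul_mem_left _ hd')
  zero_mem' := ⟨1, fun h => hq.ne_top ((Ideal.eq_top_iff_one q).2 h), by simp⟩
  smul_mem' := by
    rintro r a ⟨c, hc, hc'⟩
    refine ⟨c, hc, ?_⟩
    have : c * ((r • a) * x) = r * (c * (a * x)) := by rw [smul_eq_mul]; ring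
    rw [this]
    exact J'.mul_mem_left _ hc'

theorem step_claim {A : Type} [CommRing A] [IsNoetherianRing A] (J q p : Ideal A) (h e y : A)
    (hq : q.IsPrime) (hhq : h ∈ q) (heq : e ∉ q) (hkill : ∀ a, h * a ∈ J → e * a ∈ J)
    (hpq : p ≤ q) (hy : ∀ a, a * y ∈ J ↔ a ∈ p) :
    ∃ x ∈ stepN J p, ∀ a, a * x ∈ J ⊔ Ideal.span {h} → a ∈ q := by
  classical
  by_contra hcon
  push Not at hcon
  have h1 : ∀ x ∈ stepN J p, ∃ a, a ∉ q ∧ a * (x * 1) ∈ J ⊔ Ideal.span {h} := by
    intro x hx
    obtain ⟨a, ha, ha'⟩ := hcon x hx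
    exact ⟨a, ha', by rw [mul_one]; exact ha⟩
  obtain ⟨a, haq, ha⟩ := step_common q (J ⊔ Ideal.span {h}) (stepN J p) hq 1 h1
  simp only [mul_one] at ha
  have h2 : ∀ x ∈ stepN J p, ∃ i ∈ J, ∃ z ∈ stepN J p, (e * a) * x = i + h * z := by
    intro x hx
    obtain ⟨i, hi, w, hw, hiw⟩ := Submodule.mem_sup.1 (ha x hx)
    obtain ⟨z, hz⟩ := Ideal.mem_span_singleton'.1 hw
    refine ⟨e * i, J.mul_mem_left _ hi, e * z, ?_, ?_⟩
    · intro c hc
      have h3 : h * (c * z) ∈ J := by
        have h4 : h * (c * z) = a * (c * x) - c * i := by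
          have : a * (c * x) = c * (a * x) := by ring
          rw [this, ← hiw, ← hz]
          ring
        rw [h4]
        exact J.sub_mem (J.mul_mem_left _ (hx c hc)) (J.mul_mem_left _ hi)
      have h5 := hkill _ h3
      have h6 : c * (e * z) = e * (c * z) := by ring
      rw [h6]
      exact h5
    · have : e * a * x = e * (a * x) := by ring
      rw [this, ← hiw, ← hz]
      ring
  obtain ⟨n, s, hs⟩ := Submodule.fg_iff_exists_fin_generating_family.1
    (IsNoetherian.noetherian (stepN J p))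
  have hmem : ∀ i, s i ∈ stepN J p := fun i => by
    rw [← hs]
    exact Submodule.subset_span ⟨i, rfl⟩
  choose j hj z hz hjz using fun i => h2 (s i) (hmem i)
  have h3 : ∀ i, ∃ m : Fin n → A, ∑ l, m l • s l = z i := fun i =>
    (Submodule.mem_span_range_iff_exists_fun A).1 (by rw [hs]; exact hz i)
  choose m hm using h3
  let B : Matrix (Fin n) (Fin n) A := (e * a) • (1 : Matrix (Fin n) (Fin n) A) - h • Matrix.of m
  have hB : B.mulVec s = j := by
    funext i
    simp only [B, Matrix.sub_mulVec, Matrix.smul_mulVec, Matrix.one_mulVec, Pi.sub_apply,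
      Pi.smul_apply, smul_eq_mul]
    have h4 : (Matrix.of m).mulVec s i = z i := by
      rw [← hm i]
      simp [Matrix.mulVec, dotProduct]
    rw [h4, hjz i]
    ring
  have hdet : ∀ i, B.det * s i ∈ J := by
    intro i
    have h4 : (B.adjugate.mulVec (B.mulVec s)) i = B.det * s i := by
      rw [Matrix.mulVec_mulVec, Matrix.adjugate_mul, Matrix.smul_mulVec, Matrix.one_mulVec]
      rfl
    rw [← h4, hB]
    simp only [Matrix.mulVec, dotProduct]
    exact J.sum_mem fun l _ => J.mul_mem_left _ (hj l)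
  have hall : ∀ x ∈ stepN J p, B.det * x ∈ J := by
    intro x hx
    rw [← hs] at hx
    obtain ⟨c, rfl⟩ := (Submodule.mem_span_range_iff_exists_fun A).1 hx
    rw [Finset.mul_sum]
    refine J.sum_mem fun l _ => ?_
    have : B.det * c l • s l = c l * (B.det * s l) := by rw [smul_eq_mul]; ring
    rw [this]
    exact J.mul_mem_left _ (hdet l)
  have hyN : y ∈ stepN J p := fun c hc => (hy c).2 hc
  have hdp : B.det ∈ q := hpq ((hy _).1 (hall y hyN))
  have hdet2 : Ideal.Quotient.mk q B.det = (Ideal.Quotient.mk q (e * a)) ^ n := by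
    rw [RingHom.map_det]
    have h5 : (Ideal.Quotient.mk q).mapMatrix B =
        (Ideal.Quotient.mk q (e * a)) • (1 : Matrix (Fin n) (Fin n) (A ⧸ q)) := by
      ext i l
      have h6 : Ideal.Quotient.mk q h = 0 := Ideal.Quotient.eq_zero_iff_mem.2 hhq
      simp only [B, RingHom.mapMatrix_apply, Matrix.map_apply, Matrix.sub_apply, Matrix.smul_apply,
        smul_eq_mul, map_sub, map_mul, h6, zero_mul, sub_zero, Matrix.one_apply]
      split_ifs <;> simp
    rw [h5, Matrix.det_smul, Matrix.det_one, mul_one, Fintype.card_fin]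
  have h7 : (e * a) ^ n ∈ q := by
    rw [← Ideal.Quotient.eq_zero_iff_mem, map_pow, ← hdet2]
    exact Ideal.Quotient.eq_zero_iff_mem.2 hdp
  exact (hq.mem_or_mem (hq.mem_of_pow_mem n h7)).elim heq haq

theorem step {A : Type} [CommRing A] [IsNoetherianRing A] (J q p : Ideal A) (h e y : A)
    (hq : q.IsPrime) (hhq : h ∈ q) (heq : e ∉ q) (hkill : ∀ a, h * a ∈ J → e * a ∈ J)
    (hp : p.IsPrime) (hpq : p ≤ q) (hy : ∀ a, a * y ∈ J ↔ a ∈ p) :
    ∃ (p' : Ideal A) (y' : A), p'.IsPrime ∧ p < p' ∧ p' ≤ q ∧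
      ∀ a, a * y' ∈ J ⊔ Ideal.span {h} ↔ a ∈ p' := by
  classical
  have h1q : (1 : A) ∉ q := fun h => hq.ne_top ((Ideal.eq_top_iff_one q).2 h)
  have hhp : h ∉ p := by
    intro hh
    exact heq (hpq ((hy e).1 (hkill y ((hy h).2 hh))))
  obtain ⟨x0, hx0, hx0'⟩ := step_claim J q p h e y hq hhq heq hkill hpq hy
  set J' : Ideal A := J ⊔ Ideal.span {h} with hJ'
  have hJJ' : J ≤ J' := le_sup_left
  have hhJ' : h ∈ J' := (le_sup_right : Ideal.span {h} ≤ J') (Ideal.mem_span_singleton_self h)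
  obtain ⟨K, ⟨x, hx, hKq, rfl⟩, hmax⟩ := set_has_maximal_iff_noetherian.2
    (inferInstance : IsNoetherian A A)
    {K : Ideal A | ∃ x ∈ stepN J p, stepK q J' hq x ≤ q ∧ stepK q J' hq x = K}
    ⟨stepK q J' hq x0, x0, hx0, by
      rintro a ⟨c, hc, hca⟩
      have h2 : c * a ∈ q := hx0' _ (by rw [mul_assoc]; exact hca)
      exact (hq.mem_or_mem h2).resolve_left hc, rfl⟩
  have hprime : (stepK q J' hq x).IsPrime := by
    constructor
    · intro htop
      rw [htop] at hKq
      exact hq.ne_top (top_le_iff.1 hKq)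
    · intro a b hab
      by_contra hcon
      rw [not_or] at hcon
      obtain ⟨ha, hb⟩ := hcon
      have hbx : b * x ∈ stepN J p := (stepN J p).mul_mem_left b hx
      have hle : stepK q J' hq x ≤ stepK q J' hq (b * x) := by
        rintro u ⟨c, hc, hcu⟩
        refine ⟨c, hc, ?_⟩
        have : c * (u * (b * x)) = b * (c * (u * x)) := by ring
        rw [this]
        exact J'.mul_mem_left _ hcu
      have hle2 : stepK q J' hq (b * x) ≤ q := by
        rintro u ⟨c, hc, hcu⟩
        by_contra hu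
        apply hb
        refine ⟨c * u, fun h => (hq.mem_or_mem h).elim hc hu, ?_⟩
        have : c * u * (b * x) = c * (u * (b * x)) := by ring
        rw [this]
        exact hcu
      have hnlt := hmax (stepK q J' hq (b * x)) ⟨b * x, hbx, hle2, rfl⟩
      have heqK : stepK q J' hq x = stepK q J' hq (b * x) := by
        by_contra hne
        exact hnlt (lt_of_le_of_ne hle hne)
      apply ha
      rw [heqK]
      obtain ⟨c, hc, hcab⟩ := hab
      refine ⟨c, hc, ?_⟩
      have : c * (a * (b * x)) = c * (a * b * x) := by ring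
      rw [this]
      exact hcab
  obtain ⟨c, hc, hcK⟩ := step_common q J' (stepK q J' hq x) hq x fun a ha => ha
  refine ⟨stepK q J' hq x, c * x, hprime, ?_, hKq, ?_⟩
  · refine lt_of_le_of_ne ?_ ?_
    · intro b hb
      exact ⟨1, h1q, by rw [one_mul]; exact hJJ' (hx b hb)⟩
    · intro heq'
      apply hhp
      rw [heq']
      exact ⟨1, h1q, by rw [one_mul]; exact J'.mul_mem_right _ hhJ'⟩
  · intro a
    constructor
    · intro ha
      refine ⟨c, hc, ?_⟩
      have : c * (a * x) = a * (c * x) := by ring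
      rw [this]
      exact ha
    · intro ha
      have : a * (c * x) = c * (a * x) := by ring
      rw [this]
      exact hcK a ha

end VSQR
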