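import Pool.Agent.H41.VS.KILL
import Pool.Agent.H41.VS.STEP

/-!
# CHAIN: a chain of `m + 1` primes below `q`

Induction on `m` (for all `i ≤ m`: primes `p_0 < … < p_i ≤ q` and `y_i` with
`a * y_i ∈ sp h i ↔ a ∈ p_i`), using `step` with `J = sp h i`, `e = z ^ B` (`kill`, `sp_homog`),
`sp_succ`, `sp_zero`.
-/

set_option autoImplicit false

namespace VSQR

open Finset

theorem chain {k A : Type} [Field k] [CommRing A] [Algebra k A] [IsNoetherianRing A]
    (𝒜 : ℕ → Submodule k A) [GradedAlgebra 𝒜] (m : ℕ) (h : ℕ → A) (e : ℕ → ℕ)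
    (he : ∀ i < m, h i ∈ 𝒜 (e i)) (B : ℕ)
    (hty : ∀ i < m, ∀ n, ∀ a ∈ 𝒜 n, h i * a ∈ sp h i → a ∉ sp h i → n < B)
    (p₀ : Ideal A) (hp₀ : p₀.IsPrime) (y : A) (hy : ∀ a, a * y = 0 ↔ a ∈ p₀)
    (q : Ideal A) (hq : q.IsPrime) (hpq : p₀ ≤ q) (hhq : ∀ i < m, h i ∈ q)
    (z : A) {dz : ℕ} (hz : z ∈ 𝒜 dz) (hdz : 0 < dz) (hzq : z ∉ q) :
    ∃ p : ℕ → Ideal A, p 0 = p₀ ∧ (∀ i ≤ m, (p i).IsPrime ∧ p i ≤ q) ∧
      ∀ i < m, p i < p (i + 1) := by
  have key : ∀ i ≤ m, ∃ (p : ℕ → Ideal A) (y' : A), p 0 = p₀ ∧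
      (∀ j ≤ i, (p j).IsPrime ∧ p j ≤ q) ∧ (∀ j < i, p j < p (j + 1)) ∧
      ∀ a, a * y' ∈ sp h i ↔ a ∈ p i := by
    intro i
    induction i with
    | zero =>
      intro _
      refine ⟨fun _ => p₀, y, rfl, fun j _ => ⟨hp₀, hpq⟩, fun j hj => absurd hj (Nat.not_lt_zero j),
        fun a => ?_⟩
      rw [sp_zero, Ideal.mem_bot]
      exact hy a
    | succ i ih =>
      intro hi
      have him : i < m := hi
      obtain ⟨p, y', hp0, hp, hlt, hy'⟩ := ih him.le
      have hhom : (sp h i).IsHomogeneous 𝒜 :=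
        sp_homog 𝒜 i h e fun j hj => he j (hj.trans him)
      have hzB : z ^ B ∉ q := fun hc => hzq (hq.mem_of_pow_mem B hc)
      obtain ⟨p', y'', hp', hlt', hle', hy''⟩ := step (sp h i) q (p i) (h i) (z ^ B) y' hq
        (hhq i him) hzB
        (fun a ha => kill 𝒜 (sp h i) hhom (h i) (he i him) B (hty i him) z hz hdz a ha)
        (hp i le_rfl).1 (hp i le_rfl).2 hy'
      refine ⟨fun j => if j ≤ i then p j else p', y'', ?_, ?_, ?_, ?_⟩
      · simpa using hp0
      · intro j hj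
        by_cases hji : j ≤ i
        · simpa only [if_pos hji] using hp j hji
        · simpa only [if_neg hji] using ⟨hp', hle'⟩
      · intro j hj
        have hji : j ≤ i := Nat.lt_succ_iff.1 hj
        rcases Nat.lt_or_ge j i with h1 | h1
        · have h2 : j + 1 ≤ i := h1
          simpa only [if_pos hji, if_pos h2] using hlt j h1
        · have h2 : ¬ j + 1 ≤ i := by omega
          have h3 : j = i := le_antisymm hji h1
          subst h3
          simpa only [if_pos hji, if_neg h2] using hlt'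
      · intro a
        have h2 : ¬ i + 1 ≤ i := by omega
        simp only [if_neg h2]
        rw [sp_succ]
        exact hy'' a
  obtain ⟨p, -, hp0, hp, hlt, -⟩ := key m le_rfl
  exact ⟨p, hp0, hp, hlt⟩

end VSQR
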