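import Pool.Agent.H41.VS.Chi

/-!
# CONTR: the cohomology of the trivial group

`coh_bot`: put `s f l = f (1 :: l)` for `l ≠ []` and `s f [] = 0`.  From `del_cons`
(`del f (x :: l) = f l - del (fun m => f (x :: m)) l`) one gets, for a cochain `f` with
`del f = 0` and `l ≠ []`: `f l = del (fun m => f (1 :: m)) l`, and
`del (fun m => f (1 :: m)) l = del (s f) l + f [1] * (if l.length = 1 then 1 else 0)`.
So `f = d (s f) + f [1] • 1`.  Every cochain is in `Inv k ⊥`.
`algebraMap_inj`: `c • 1 = d b` evaluated at the list `[1]` gives `c = b [] = 0`.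
-/

set_option autoImplicit false

namespace VSQR

variable {G : Type} [Group G] {k : Type} [CommRing k] [CharP k 2]

/-- the contracting homotopy -/
def contrS (f : List G → k) : List G → k
  | [] => 0
  | x :: l => f (1 :: x :: l)

omit [CharP k 2] in
theorem contrS_mem (f : Coch G k) : contrS (f : List G → k) ∈ Coch G k := by
  obtain ⟨f, hf, N, hN⟩ := f
  refine ⟨rfl, N + 1, fun l hl => ?_⟩
  match l, hl with
  | x :: l, hl => exact hN _ (by simp only [List.length_cons] at hl ⊢; omega)

omit [CharP k 2] in
theorem contr_del (f : List G → k) (hf : f [] = 0) (hd : del f = 0) (l : List G) :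
    del (contrS f) l = f l - f [1] * (uno : List G → k) l := by
  match l with
  | [] => simp [del_nil, hf, uno]
  | x :: l' =>
    have h1 : f (x :: l') = f (1 :: l') - del (fun m => f (1 :: x :: m)) l' := by
      have h2 : del f (1 :: x :: l') = 0 := congrFun hd _
      rw [del_cons, del_cons] at h2
      exact sub_eq_zero.mp h2
    rw [del_cons]
    have h3 : (fun m => contrS f (x :: m)) = fun m => f (1 :: x :: m) := rfl
    rw [h3]
    match l' with
    | [] =>
      rw [del_nil] at h1 ⊢
      have h4 : (uno : List G → k) [x] = 1 := by simp [uno]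
      rw [h4, h1]
      simp [contrS]
    | y :: l'' =>
      have h4 : (uno : List G → k) (x :: y :: l'') = 0 := by simp [uno]
      rw [h4, h1, mul_zero, sub_zero]
      rfl

theorem coh_bot (a : Coh k (⊥ : Subgroup G)) : ∃ c : k, a = algebraMap k _ c := by
  obtain ⟨z, rfl⟩ := cls_surj (⊥ : Subgroup G) a
  refine ⟨((z : Coch G k) : List G → k) [1], ?_⟩
  have h1 : algebraMap k (Coh k (⊥ : Subgroup G)) (((z : Coch G k) : List G → k) [1]) =
      cls k ⊥ (algebraMap k (Zc k (⊥ : Subgroup G)) (((z : Coch G k) : List G → k) [1])) := rfl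
  rw [← sub_eq_zero, h1, ← map_sub, cls_eq_zero]
  refine ⟨⟨contrS ((z : Coch G k) : List G → k), contrS_mem _⟩, ?_, ?_⟩
  · intro h hh
    rw [Subgroup.mem_bot] at hh
    subst hh
    exact act_one _
  · apply Subtype.ext
    funext l
    have hd : del ((z : Coch G k) : List G → k) = 0 := congrArg Subtype.val z.2.2
    change del (contrS ((z : Coch G k) : List G → k)) l = ((z : Coch G k) : List G → k) l -
      ((algebraMap k (Zc k (⊥ : Subgroup G)) (((z : Coch G k) : List G → k) [1]) :
        Zc k (⊥ : Subgroup G)) : Coch G k).1 l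
    rw [contr_del _ (z : Coch G k).2.1 hd l]
    rfl

theorem algebraMap_inj (H : Subgroup G) : Function.Injective (algebraMap k (Coh k H)) := by
  rw [injective_iff_map_eq_zero]
  intro c hc
  have h1 : algebraMap k (Coh k H) c = cls k H (algebraMap k (Zc k H) c) := rfl
  rw [h1, cls_eq_zero] at hc
  obtain ⟨b, -, hb⟩ := hc
  have h2 : del (b : List G → k) [1] = c * (uno : List G → k) [1] := by
    have h3 := congrArg (fun f : Coch G k => (f : List G → k) [1]) hb
    exact h3
  rw [del_cons, del_nil, b.2.1, sub_zero] at h2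
  have h4 : (uno : List G → k) [1] = 1 := by simp [uno]
  rw [h4, mul_one] at h2
  exact h2.symm

end VSQR
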