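import Pool.Agent.H41.VS.Defs

/-!
# The degree one classes `chi` of the coordinates, and basic facts on `zc`, `th`
-/

set_option autoImplicit false

namespace VSQR

open Finset

variable {G : Type} [Group G] {k : Type} [CommRing k]

theorem act_zc (g : G) (f : G → k) : act g (zc f) = zc fun x => f (g⁻¹ * x) := by
  apply Subtype.ext
  funext l
  rw [coe_act]
  match l with
  | [] => rfl
  | [x] => rfl
  | _ :: _ :: _ => rfl

omit [Group G] in
theorem zc_add (f f' : G → k) : zc (fun x => f x + f' x) = zc f + zc f' := by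
  apply Subtype.ext
  funext l
  match l with
  | [] => exact (add_zero (0 : k)).symm
  | [x] => rfl
  | _ :: _ :: _ => exact (add_zero (0 : k)).symm

omit [Group G] in
theorem zc_const (c : k) : zc (fun _ : G => c) = c • (1 : Coch G k) := by
  apply Subtype.ext
  funext l
  change _ = c * (uno : List G → k) l
  match l with
  | [] => simp [uno, zc]
  | [x] => simp [uno, zc]
  | _ :: _ :: _ => simp [uno, zc]

omit [Group G] in
theorem zc_smul (c : k) (f : G → k) : zc (fun x => c * f x) = c • zc f := by
  apply Subtype.ext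
  funext l
  match l with
  | [] => exact (mul_zero c).symm
  | [x] => rfl
  | _ :: _ :: _ => exact (mul_zero c).symm

variable [CharP k 2]

theorem Addi.one {H : Subgroup G} {θ : G → ZMod 2} (h : Addi H θ) : θ 1 = 0 := by
  have := h 1 H.one_mem 1
  rw [mul_one] at this
  exact left_eq_add.mp this

theorem Addi.inv {H : Subgroup G} {θ : G → ZMod 2} (h : Addi H θ) {g : G} (hg : g ∈ H) :
    θ g⁻¹ = θ g := by
  have h1 := h g hg g⁻¹
  rw [mul_inv_cancel, h.one] at h1
  exact (CharTwo.add_eq_zero.mp h1.symm).symm

theorem Addi.mono {H H' : Subgroup G} (hle : H' ≤ H) {θ : G → ZMod 2} (h : Addi H θ) :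
    Addi H' θ := fun g hg x => h g (hle hg) x

theorem act_th (g : G) (θ : G → ZMod 2) : act g (th k θ) = th k fun x => θ (g⁻¹ * x) :=
  act_zc _ _

/-- the translate of a coordinate -/
theorem act_th_of_mem {H : Subgroup G} {θ : G → ZMod 2} (h : Addi H θ) {g : G} (hg : g ∈ H) :
    act g (th k θ) = th k θ + cz k (θ g) • 1 := by
  rw [act_th, ← zc_const, th, th, ← zc_add]
  congr 1
  funext x
  rw [h g⁻¹ (H.inv_mem hg), h.inv hg, map_add, add_comm]

theorem d_th_mem {H : Subgroup G} {θ : G → ZMod 2} (h : Addi H θ) : d (th k θ) ∈ Zc k H := by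
  refine ⟨fun g hg => ?_, d_d _⟩
  rw [act_d, act_th_of_mem h hg, map_add, map_smul, d_one, smul_zero, add_zero]

/-- the degree one class of a coordinate -/
def chi (k : Type) [CommRing k] [CharP k 2] (H : Subgroup G) (θ : G → ZMod 2) (h : Addi H θ) :
    Coh k H := cls k H ⟨d (th k θ), d_th_mem h⟩

theorem resC_chi {H H' : Subgroup G} (hle : H' ≤ H) (θ : G → ZMod 2) (h : Addi H θ) :
    resC hle (chi k H θ h) = chi k H' θ (h.mono hle) := rfl

/-- the restriction as a homomorphism of `k`-algebras -/
def resA (k : Type) [CommRing k] [CharP k 2] {H H' : Subgroup G} (hle : H' ≤ H) :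
    Coh k H →ₐ[k] Coh k H' :=
  { resC hle with
    commutes' := fun c => by
      change resC hle (algebraMap k _ c) = _
      rw [Algebra.algebraMap_eq_smul_one, resC_smul, map_one, Algebra.algebraMap_eq_smul_one] }

theorem resA_apply {H H' : Subgroup G} (hle : H' ≤ H) (a : Coh k H) :
    resA k hle a = resC hle a := rfl

end VSQR
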