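import Pool.Agent.H41.VS.Raw2

/-!
# The ring of homogeneous cochains, group actions, cocycles and the cohomology ring
-/

set_option autoImplicit false

namespace VSQR

open Finset

/-- The homogeneous cochains of the set `X` with values in `k`: functions on finite sequences
`(x_0,…,x_n)`, `n ≥ 0`, which vanish on all long sequences (finite sums of homogeneous ones). -/
def Coch (X k : Type) [CommRing k] : Submodule k (List X → k) where
  carrier := {f | f [] = 0 ∧ ∃ N : ℕ, ∀ l : List X, N ≤ l.length → f l = 0}
  add_mem' := by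
    rintro f g ⟨hf, N, hN⟩ ⟨hg, M, hM⟩
    refine ⟨by simp [hf, hg], max N M, fun l hl => ?_⟩
    rw [Pi.add_apply, hN l (le_trans (le_max_left _ _) hl), hM l (le_trans (le_max_right _ _) hl),
      add_zero]
  zero_mem' := ⟨rfl, 0, fun _ _ => rfl⟩
  smul_mem' := by
    rintro c f ⟨hf, N, hN⟩
    exact ⟨by simp [hf], N, fun l hl => by rw [Pi.smul_apply, hN l hl, smul_zero]⟩

variable {X k : Type} [CommRing k]

theorem cup_mem (f g : Coch X k) : cup (f : List X → k) g ∈ Coch X k := by
  obtain ⟨f, hf, N, hN⟩ := f
  obtain ⟨g, hg, M, hM⟩ := g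
  refine ⟨cup_nil _ _, N + M, fun l hl => ?_⟩
  refine Finset.sum_eq_zero fun i hi => ?_
  rw [Finset.mem_range] at hi
  by_cases h : N ≤ i + 1
  · have : f (l.take (i + 1)) = 0 := hN _ (by rw [List.length_take]; omega)
    change f (l.take (i + 1)) * g (l.drop i) = 0
    rw [this, zero_mul]
  · have : g (l.drop i) = 0 := hM _ (by rw [List.length_drop]; omega)
    change f (l.take (i + 1)) * g (l.drop i) = 0
    rw [this, mul_zero]

theorem uno_mem : (uno : List X → k) ∈ Coch X k := by
  refine ⟨by simp [uno], 2, fun l hl => ?_⟩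
  unfold uno
  rw [if_neg (by omega)]

theorem del_mem (f : Coch X k) : del (f : List X → k) ∈ Coch X k := by
  obtain ⟨f, hf, N, hN⟩ := f
  refine ⟨del_nil _, N + 1, fun l hl => ?_⟩
  refine Finset.sum_eq_zero fun i hi => ?_
  rw [Finset.mem_range] at hi
  change (-1) ^ i * f (l.eraseIdx i) = 0
  rw [hN _ (by rw [List.length_eraseIdx_of_lt hi]; omega), mul_zero]

instance instRingCoch : Ring (Coch X k) :=
  { (inferInstance : AddCommGroup (Coch X k)) with
    mul := fun f g => ⟨cup f g, cup_mem f g⟩
    one := ⟨uno, uno_mem⟩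
    left_distrib := fun _ _ _ => Subtype.ext (cup_add_right _ _ _)
    right_distrib := fun _ _ _ => Subtype.ext (cup_add_left _ _ _)
    zero_mul := fun f => Subtype.ext (by
      funext l
      change cup 0 (f : List X → k) l = 0
      simp [cup])
    mul_zero := fun f => Subtype.ext (by
      funext l
      change cup (f : List X → k) 0 l = 0
      simp [cup])
    mul_assoc := fun _ _ _ => Subtype.ext (cup_assoc _ _ _)
    one_mul := fun f => Subtype.ext (uno_cup _ f.2.1)
    mul_one := fun f => Subtype.ext (cup_uno _ f.2.1) }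

theorem coe_mul (f g : Coch X k) : ((f * g : Coch X k) : List X → k) = cup f g := rfl

theorem coe_one : ((1 : Coch X k) : List X → k) = uno := rfl

instance instAlgebraCoch : Algebra k (Coch X k) :=
  Algebra.ofModule (fun c _ _ => Subtype.ext (cup_smul_left c _ _))
    (fun c _ _ => Subtype.ext (cup_smul_right c _ _))

/-- the differential -/
def d : Coch X k →ₗ[k] Coch X k where
  toFun f := ⟨del f, del_mem f⟩
  map_add' _ _ := Subtype.ext (del_add _ _)
  map_smul' _ _ := Subtype.ext (del_smul _ _)

theorem coe_d (f : Coch X k) : ((d f : Coch X k) : List X → k) = del f := rfl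

theorem d_d (f : Coch X k) : d (d f) = 0 := Subtype.ext (del_del _)

theorem d_one : d (1 : Coch X k) = 0 := by
  apply Subtype.ext
  funext l
  change del uno l = 0
  cases l with
  | nil => exact del_nil _
  | cons x l =>
    rw [del_cons]
    cases l with
    | nil => simp [del_nil, uno]
    | cons y l =>
      rw [del_cons]
      cases l with
      | nil => simp [del_nil, uno]
      | cons z l =>
        have : del (fun m => uno (k := k) (x :: y :: m)) (z :: l) = 0 := by
          refine Finset.sum_eq_zero fun i _ => ?_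
          simp [uno]
        rw [this]
        simp [uno]

section Action

variable {G : Type} [Group G]

/-- translation of functions on sequences of elements of `G` -/
def trans (g : G) (f : List G → k) : List G → k := fun l => f (l.map (fun x => g⁻¹ * x))

theorem trans_mem (g : G) (f : Coch G k) : trans g (f : List G → k) ∈ Coch G k := by
  obtain ⟨f, hf, N, hN⟩ := f
  exact ⟨hf, N, fun l hl => hN _ (by rw [List.length_map]; exact hl)⟩

theorem trans_cup (g : G) (f f' : List G → k) :
    trans g (cup f f') = cup (trans g f) (trans g f') := by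
  funext l
  simp only [trans, cup, List.length_map, List.map_take, List.map_drop]

theorem trans_del (g : G) (f : List G → k) : trans g (del f) = del (trans g f) := by
  funext l
  simp only [trans, del, List.length_map, List.eraseIdx_map]

theorem trans_uno (g : G) : trans g (uno : List G → k) = uno := by
  funext l
  simp [trans, uno]

/-- the action of `g ∈ G` on cochains: `(g f)(x_0,…,x_n) = f (g⁻¹x_0,…,g⁻¹x_n)` -/
def act (g : G) : Coch G k →ₐ[k] Coch G k where
  toFun f := ⟨trans g f, trans_mem g f⟩
  map_one' := Subtype.ext (trans_uno g)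
  map_mul' _ _ := Subtype.ext (trans_cup g _ _)
  map_zero' := rfl
  map_add' _ _ := rfl
  commutes' c := by
    apply Subtype.ext
    rw [Algebra.algebraMap_eq_smul_one]
    change trans g (c • uno) = c • uno
    conv_rhs => rw [← trans_uno g]
    rfl

theorem coe_act (g : G) (f : Coch G k) (l : List G) :
    ((act g f : Coch G k) : List G → k) l = (f : List G → k) (l.map (fun x => g⁻¹ * x)) := rfl

theorem act_d (g : G) (f : Coch G k) : act g (d f) = d (act g f) :=
  Subtype.ext (trans_del g _)

theorem act_one (f : Coch G k) : act (1 : G) f = f := by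
  apply Subtype.ext
  funext l
  rw [coe_act]
  simp

theorem act_mul (g h : G) (f : Coch G k) : act (g * h) f = act g (act h f) := by
  apply Subtype.ext
  funext l
  rw [coe_act, coe_act, coe_act, List.map_map]
  have h1 : (fun x : G => (g * h)⁻¹ * x) = ((fun x => h⁻¹ * x) ∘ fun x => g⁻¹ * x) := by
    funext x
    simp [mul_assoc]
  rw [h1]

/-- the `H`-invariant cochains -/
def Inv (k : Type) [CommRing k] (H : Subgroup G) : Subalgebra k (Coch G k) where
  carrier := {f | ∀ h ∈ H, act h f = f}
  mul_mem' := by
    intro f f' hf hf' h hh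
    rw [map_mul, hf h hh, hf' h hh]
  add_mem' := by
    intro f f' hf hf' h hh
    rw [map_add, hf h hh, hf' h hh]
  algebraMap_mem' := by
    intro c h _
    exact (act h).commutes c

end Action

section CupOne

theorem cupOne_zero_left (g : List X → k) : cupOne 0 g = 0 := by
  funext l
  induction l with
  | nil => exact cupOne_nil _ _
  | cons x l ih =>
    rw [cupOne_cons]
    have h1 : (fun m => (0 : List X → k) (x :: m)) = 0 := rfl
    rw [h1, ih]
    simp [cup]

theorem cupOne_zero_right (f : List X → k) : cupOne f 0 = 0 := by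
  funext l
  induction l generalizing f with
  | nil => exact cupOne_nil _ _
  | cons x l ih =>
    rw [cupOne_cons, ih]
    have h1 : (fun m => (0 : List X → k) (x :: m)) = 0 := rfl
    rw [h1]
    simp [cup]

theorem cupOne_bdd (g : List X → k) (M : ℕ) (hg : ∀ m : List X, M ≤ m.length → g m = 0) :
    ∀ (l : List X) (f : List X → k) (N : ℕ), (∀ m : List X, N ≤ m.length → f m = 0) →
      N + M ≤ l.length → cupOne f g l = 0 := by
  intro l
  induction l with
  | nil => intro f N _ _; exact cupOne_nil _ _
  | cons x l ih =>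
    intro f N hf hl
    rw [List.length_cons] at hl
    cases N with
    | zero =>
      have : f = 0 := by
        funext m
        exact hf m (Nat.zero_le _)
      rw [this, cupOne_zero_left]
      rfl
    | succ N =>
      rw [cupOne_cons, ih (fun m => f (x :: m)) N (fun m hm => hf _ (by
        rw [List.length_cons]; omega)) (by omega), add_zero]
      refine Finset.sum_eq_zero fun i hi => ?_
      rw [Finset.mem_range] at hi
      by_cases h : M ≤ i + 2
      · have : g (x :: l.take (i + 1)) = 0 := hg _ (by
          rw [List.length_cons, List.length_take]; omega)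
        change g (x :: l.take (i + 1)) * f (x :: l.drop i) = 0
        rw [this, zero_mul]
      · have : f (x :: l.drop i) = 0 := hf _ (by
          rw [List.length_cons, List.length_drop]; omega)
        change g (x :: l.take (i + 1)) * f (x :: l.drop i) = 0
        rw [this, mul_zero]

theorem cupOne_mem (f g : Coch X k) : cupOne (f : List X → k) g ∈ Coch X k := by
  obtain ⟨f, hf, N, hN⟩ := f
  obtain ⟨g, hg, M, hM⟩ := g
  exact ⟨cupOne_nil _ _, N + M, fun l hl => cupOne_bdd g M hM l f N hN hl⟩

theorem trans_cupOne {G : Type} [Group G] (g : G) (f f' : List G → k) :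
    trans g (cupOne f f') = cupOne (trans g f) (trans g f') := by
  funext l
  induction l generalizing f with
  | nil => exact (cupOne_nil f f').trans (cupOne_nil _ _).symm
  | cons x l ih =>
    have h1 : trans g (cupOne f f') (x :: l) =
        cupOne f f' ((g⁻¹ * x) :: l.map (fun x => g⁻¹ * x)) := rfl
    rw [h1, cupOne_cons, cupOne_cons]
    have h2 := ih (fun m => f ((g⁻¹ * x) :: m))
    have h3 : cupOne (fun m => f ((g⁻¹ * x) :: m)) f' (l.map (fun x => g⁻¹ * x)) =
        trans g (cupOne (fun m => f ((g⁻¹ * x) :: m)) f') l := rfl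
    rw [h3, h2]
    have h4 : cup (fun m => f' ((g⁻¹ * x) :: m)) (fun m => f ((g⁻¹ * x) :: m))
        (l.map (fun x => g⁻¹ * x)) =
        trans g (cup (fun m => f' ((g⁻¹ * x) :: m)) (fun m => f ((g⁻¹ * x) :: m))) l := rfl
    rw [h4, trans_cup]
    rfl

end CupOne

section CharTwo

variable [CharP k 2]

theorem d_mul (f g : Coch X k) : d (f * g) = d f * g + f * d g := by
  apply Subtype.ext
  change del (cup (f : List X → k) g) = cup (del (f : List X → k)) g + cup f (del (g : List X → k))
  rw [del_cup, f.2.1, g.2.1, zero_smul, zero_smul, add_zero, add_zero]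

theorem add_self_zero (f : Coch X k) : f + f = 0 := by
  apply Subtype.ext
  funext l
  exact two_zero _

variable {G : Type} [Group G]

/-- the invariant cocycles -/
def Zc (k : Type) [CommRing k] [CharP k 2] (H : Subgroup G) : Subalgebra k (Coch G k) where
  carrier := {f | f ∈ Inv k H ∧ d f = 0}
  mul_mem' := by
    rintro f f' ⟨hf, hf0⟩ ⟨hf', hf0'⟩
    refine ⟨mul_mem hf hf', ?_⟩
    rw [d_mul, hf0, hf0', zero_mul, mul_zero, add_zero]
  add_mem' := by
    rintro f f' ⟨hf, hf0⟩ ⟨hf', hf0'⟩
    refine ⟨add_mem hf hf', ?_⟩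
    rw [map_add, hf0, hf0', add_zero]
  algebraMap_mem' := by
    intro c
    refine ⟨(Inv k H).algebraMap_mem c, ?_⟩
    rw [Algebra.algebraMap_eq_smul_one, map_smul, d_one, smul_zero]

/-- the ideal of the coboundaries of invariant cochains -/
def Bc (k : Type) [CommRing k] [CharP k 2] (H : Subgroup G) : Ideal (Zc k H) where
  carrier := {z | ∃ b ∈ Inv k H, d b = (z : Coch G k)}
  add_mem' := by
    rintro z z' ⟨b, hb, hz⟩ ⟨b', hb', hz'⟩
    exact ⟨b + b', add_mem hb hb', by rw [map_add, hz, hz']; rfl⟩
  zero_mem' := ⟨0, zero_mem _, by rw [map_zero]; rfl⟩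
  smul_mem' := by
    rintro c z ⟨b, hb, hz⟩
    refine ⟨(c : Coch G k) * b, mul_mem c.2.1 hb, ?_⟩
    rw [d_mul, c.2.2, zero_mul, zero_add, hz]
    rfl

instance instTwoSidedBc (H : Subgroup G) : (Bc k H).IsTwoSided where
  mul_mem_of_left := by
    rintro z c ⟨b, hb, hz⟩
    refine ⟨b * (c : Coch G k), mul_mem hb c.2.1, ?_⟩
    rw [d_mul, c.2.2, mul_zero, add_zero, hz]
    rfl

/-- The cohomology ring `H^*(H, k)`, computed with the cochains of `G`. -/
def Coh (k : Type) [CommRing k] [CharP k 2] (H : Subgroup G) : Type := Zc k H ⧸ Bc k H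

instance instRingCoh (H : Subgroup G) : Ring (Coh k H) :=
  inferInstanceAs (Ring (Zc k H ⧸ Bc k H))

/-- the class of a cocycle -/
def cls (k : Type) [CommRing k] [CharP k 2] (H : Subgroup G) : Zc k H →+* Coh k H :=
  Ideal.Quotient.mk (Bc k H)

theorem cls_surj (H : Subgroup G) : Function.Surjective (cls k H) :=
  Ideal.Quotient.mk_surjective

theorem cls_eq_zero (H : Subgroup G) (z : Zc k H) :
    cls k H z = 0 ↔ ∃ b ∈ Inv k H, d b = (z : Coch G k) :=
  Ideal.Quotient.eq_zero_iff_mem

theorem coh_comm (H : Subgroup G) (a b : Coh k H) : a * b = b * a := by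
  obtain ⟨a, rfl⟩ := cls_surj H a
  obtain ⟨b, rfl⟩ := cls_surj H b
  rw [← sub_eq_zero, ← map_mul, ← map_mul, ← map_sub, cls_eq_zero]
  obtain ⟨a, ha, ha0⟩ := a
  obtain ⟨b, hb, hb0⟩ := b
  refine ⟨⟨cupOne (a : List G → k) b, cupOne_mem a b⟩, ?_, ?_⟩
  · intro h hh
    apply Subtype.ext
    change trans h (cupOne (a : List G → k) b) = cupOne (a : List G → k) b
    rw [trans_cupOne]
    have e1 : trans h (a : List G → k) = a := congrArg Subtype.val (ha h hh)
    have e2 : trans h (b : List G → k) = b := congrArg Subtype.val (hb h hh)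
    rw [e1, e2]
  · apply Subtype.ext
    change del (cupOne (a : List G → k) b) = cup (a : List G → k) b - cup (b : List G → k) a
    have e1 : del (a : List G → k) = 0 := congrArg Subtype.val ha0
    have e2 : del (b : List G → k) = 0 := congrArg Subtype.val hb0
    rw [del_cupOne, e1, e2, cupOne_zero_left, cupOne_zero_right]
    funext l
    simp only [Pi.add_apply, Pi.sub_apply, Pi.zero_apply]
    rw [CharTwo.sub_eq_add]
    ring

instance instCommRingCoh (H : Subgroup G) : CommRing (Coh k H) :=
  { instRingCoh H with mul_comm := coh_comm H }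

instance instAlgebraCoh (H : Subgroup G) : Algebra k (Coh k H) :=
  inferInstanceAs (Algebra k (Zc k H ⧸ Bc k H))

end CharTwo

end VSQR
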