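import Pool.Agent.H41.VS.Coch

/-!
# Restriction, transfer, conjugation and the grading on the cohomology rings
-/

set_option autoImplicit false

namespace VSQR

open Finset

variable {G k : Type} [Group G] [CommRing k] [CharP k 2]

omit [CharP k 2] in
theorem Inv_mono {H H' : Subgroup G} (hle : H ≤ H') : Inv k H' ≤ Inv k H :=
  fun _ hf h hh => hf h (hle hh)

theorem Zc_mono {H H' : Subgroup G} (hle : H ≤ H') : Zc k H' ≤ Zc k H :=
  fun _ hf => ⟨Inv_mono hle hf.1, hf.2⟩

/-- restriction of classes to a subgroup -/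
def resC {H H' : Subgroup G} (hle : H ≤ H') : Coh k H' →+* Coh k H :=
  Ideal.Quotient.lift (Bc k H') ((cls k H).comp (Subalgebra.inclusion (Zc_mono hle)).toRingHom) (by
    rintro z ⟨b, hb, hz⟩
    exact (cls_eq_zero H _).2 ⟨b, Inv_mono hle hb, hz⟩)

theorem resC_cls {H H' : Subgroup G} (hle : H ≤ H') (z : Zc k H') :
    resC hle (cls k H' z) = cls k H ⟨z, Zc_mono hle z.2⟩ := rfl

theorem resC_smul {H H' : Subgroup G} (hle : H ≤ H') (c : k) (a : Coh k H') :
    resC hle (c • a) = c • resC hle a := by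
  obtain ⟨z, rfl⟩ := cls_surj H' a
  rfl

/-- the transfer with respect to a finite set of representatives `T` -/
def trC {H H' : Subgroup G} (T : Finset G)
    (hT : ∀ b ∈ Inv k H, ∑ g ∈ T, act g b ∈ Inv k H') : Coh k H →+ Coh k H' :=
  QuotientAddGroup.lift (Bc k H).toAddSubgroup
    { toFun := fun z => cls k H' ⟨∑ g ∈ T, act g (z : Coch G k), hT _ z.2.1, by
        rw [map_sum]
        refine Finset.sum_eq_zero fun g _ => ?_
        rw [← act_d, z.2.2, map_zero]⟩
      map_zero' := by
        rw [cls_eq_zero]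
        refine ⟨0, zero_mem _, ?_⟩
        rw [map_zero]
        symm
        refine Finset.sum_eq_zero fun g _ => ?_
        exact map_zero (act g)
      map_add' := by
        intro z z'
        rw [← map_add]
        congr 1
        apply Subtype.ext
        change ∑ g ∈ T, act g ((z : Coch G k) + (z' : Coch G k)) =
          ∑ g ∈ T, act g (z : Coch G k) + ∑ g ∈ T, act g (z' : Coch G k)
        rw [← Finset.sum_add_distrib]
        exact Finset.sum_congr rfl fun g _ => map_add _ _ _ }
    (by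
      rintro z ⟨b, hb, hz⟩
      change cls k H' _ = 0
      rw [cls_eq_zero]
      refine ⟨∑ g ∈ T, act g b, hT _ hb, ?_⟩
      rw [map_sum]
      refine Finset.sum_congr rfl fun g _ => ?_
      rw [← act_d, hz])

theorem trC_cls {H H' : Subgroup G} (T : Finset G)
    (hT : ∀ b ∈ Inv k H, ∑ g ∈ T, act g b ∈ Inv k H') (z : Zc k H)
    (hz : ∑ g ∈ T, act g (z : Coch G k) ∈ Zc k H') :
    trC T hT (cls k H z) = cls k H' ⟨∑ g ∈ T, act g (z : Coch G k), hz⟩ := rfl

/-- the projection formula -/
theorem trC_res_mul {H H' : Subgroup G} (hle : H ≤ H') (T : Finset G) (hTH : ∀ g ∈ T, g ∈ H')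
    (hT : ∀ b ∈ Inv k H, ∑ g ∈ T, act g b ∈ Inv k H') (a : Coh k H') (s : Coh k H) :
    trC T hT (resC hle a * s) = a * trC T hT s := by
  obtain ⟨a, rfl⟩ := cls_surj H' a
  obtain ⟨s, rfl⟩ := cls_surj H s
  have hz : ∑ g ∈ T, act g (s : Coch G k) ∈ Zc k H' := by
    refine ⟨hT _ s.2.1, ?_⟩
    rw [map_sum]
    refine Finset.sum_eq_zero fun g _ => ?_
    rw [← act_d, s.2.2, map_zero]
  rw [resC_cls, ← map_mul, trC_cls T hT s hz, ← map_mul]
  have h2 : ∑ g ∈ T, act g ((a : Coch G k) * (s : Coch G k)) =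
      (a : Coch G k) * ∑ g ∈ T, act g (s : Coch G k) := by
    rw [Finset.mul_sum]
    refine Finset.sum_congr rfl fun g hg => ?_
    rw [map_mul, a.2.1 g (hTH g hg)]
  have h3 : ∑ g ∈ T, act g ((⟨(a : Coch G k), Zc_mono hle a.2⟩ * s : Zc k H) : Coch G k) ∈
      Zc k H' := by
    change ∑ g ∈ T, act g ((a : Coch G k) * (s : Coch G k)) ∈ Zc k H'
    rw [h2]
    exact mul_mem a.2 hz
  rw [trC_cls T hT _ h3]
  congr 1
  exact Subtype.ext h2

/-- conjugation on the cohomology of a normal subgroup -/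
def conjC (H : Subgroup G) [hN : H.Normal] (g : G) : Coh k H →+* Coh k H :=
  Ideal.Quotient.lift (Bc k H) ((cls k H).comp
    ({ toFun := fun z => ⟨act g (z : Coch G k), by
        refine ⟨?_, ?_⟩
        · intro h hh
          have h1 : h * g = g * (g⁻¹ * h * g) := by group
          rw [← act_mul, h1, act_mul]
          congr 1
          refine z.2.1 _ ?_
          have := hN.conj_mem h hh g⁻¹
          rwa [inv_inv] at this
        · rw [← act_d, z.2.2, map_zero]⟩
       map_one' := Subtype.ext (map_one (act g))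
       map_mul' := fun z z' => Subtype.ext (map_mul (act g) _ _)
       map_zero' := Subtype.ext (map_zero (act g))
       map_add' := fun z z' => Subtype.ext (map_add (act g) _ _) } : Zc k H →+* Zc k H)) (by
    rintro z ⟨b, hb, hz⟩
    refine (cls_eq_zero H _).2 ⟨act g b, ?_, ?_⟩
    · intro h hh
      have h1 : h * g = g * (g⁻¹ * h * g) := by group
      rw [← act_mul, h1, act_mul]
      congr 1
      refine hb _ ?_
      have := hN.conj_mem h hh g⁻¹
      rwa [inv_inv] at this
    · rw [← act_d, hz]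
      rfl)

theorem conjC_cls (H : Subgroup G) [H.Normal] (g : G) (z : Zc k H)
    (hz : act g (z : Coch G k) ∈ Zc k H) :
    conjC H g (cls k H z) = cls k H ⟨act g (z : Coch G k), hz⟩ := rfl

theorem res_trC {H H' : Subgroup G} [hN : H.Normal] (hle : H ≤ H') (T : Finset G)
    (hT : ∀ b ∈ Inv k H, ∑ g ∈ T, act g b ∈ Inv k H') (s : Coh k H) :
    resC hle (trC T hT s) = ∑ g ∈ T, conjC H g s := by
  obtain ⟨s, rfl⟩ := cls_surj H s
  have hz : ∑ g ∈ T, act g (s : Coch G k) ∈ Zc k H' := by
    refine ⟨hT _ s.2.1, ?_⟩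
    rw [map_sum]
    refine Finset.sum_eq_zero fun g _ => ?_
    rw [← act_d, s.2.2, map_zero]
  rw [trC_cls T hT s hz, resC_cls]
  have hg : ∀ g : G, act g (s : Coch G k) ∈ Zc k H := by
    intro g
    refine ⟨?_, ?_⟩
    · intro h hh
      have h1 : h * g = g * (g⁻¹ * h * g) := by group
      rw [← act_mul, h1, act_mul]
      congr 1
      refine s.2.1 _ ?_
      have := hN.conj_mem h hh g⁻¹
      rwa [inv_inv] at this
    · rw [← act_d, s.2.2, map_zero]
  have h1 : ∀ g, conjC H g (cls k H s) = cls k H ⟨act g (s : Coch G k), hg g⟩ := fun g => rfl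
  rw [Finset.sum_congr rfl fun g _ => h1 g, ← map_sum]
  congr 1
  apply Subtype.ext
  rw [AddSubmonoidClass.coe_finsetSum]

/-- restriction of an element of the big group is invariant under conjugation -/
theorem conjC_resC {H H' : Subgroup G} [hN : H.Normal] (hle : H ≤ H') (g : G) (hg : g ∈ H')
    (a : Coh k H') : conjC H g (resC hle a) = resC hle a := by
  obtain ⟨a, rfl⟩ := cls_surj H' a
  rw [resC_cls]
  have h1 : act g (a : Coch G k) = a := a.2.1 g hg
  have hz : act g (a : Coch G k) ∈ Zc k H := by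
    rw [h1]
    exact Zc_mono hle a.2
  rw [conjC_cls H g _ hz]
  congr 1
  exact Subtype.ext h1

end VSQR
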