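import Mathlib

/-!
# DET: determinants and complete intersections (Wiebe)

`cramer_mem`: `m.det * v j = ∑ i, m.adjugate j i * (m.mulVec v) i`.
`det_pow`: claim: for all matrices `a`, `b` with `a x = b x = (x_l ^ N)`:
`a.det - b.det ∈ (x_l ^ N)`.  Change one row at a time (induction over a finset of rows): if `a`, `b` differ only in row `s` then
`a.det - b.det = c.det` where row `s` of `c` is `a s - b s` (`Matrix.det_updateRow_add` etc.), so
`c x` is `x_l ^ N` at `l ≠ s` and `0` at `s`; by `cramer_mem`-type formula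
`X s * c.det ∈ (X l ^ N : l ≠ s)`, a monomial ideal not involving `X s`, so
`c.det ∈ (X l ^ N : l ≠ s)` (`MvPolynomial.mem_ideal_span_monomial_image`).  Compare `a` with the
diagonal matrix `X l ^ (N - 1)`, whose determinant `∏ X l ^ (N - 1)` is not in `(X l ^ N)`.
`det_gen`: `X l ^ N = ∑ b l l' g l'` for a matrix `b`; `(b * a) x = (x_l ^ N)`, so
`(b * a).det ∉ (x_l ^ N)`.  If `a.det ∈ (g)` then `b.det * a.det ∈ b.det * (g) ≤ (x_l ^ N)` by
`cramer_mem`, contradiction.
-/

set_option autoImplicit false

namespace VSQR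

open Finset MvPolynomial

theorem cramer_mem {R ι : Type} [CommRing R] [Fintype ι] [DecidableEq ι] (m : Matrix ι ι R)
    (v : ι → R) (j : ι) : m.det * v j ∈ Ideal.span (Set.range fun i => ∑ l, m i l * v l) := by
  have h : (m.adjugate.mulVec (m.mulVec v)) j = m.det * v j := by
    rw [Matrix.mulVec_mulVec, Matrix.adjugate_mul, Matrix.smul_mulVec, Matrix.one_mulVec]
    rfl
  rw [← h]
  exact Ideal.sum_mem _ fun i _ => Ideal.mul_mem_left _ _ (Ideal.subset_span ⟨i, rfl⟩)

/-- the ideal generated by the `X l ^ N`, `l ∈ L`, in terms of monomials -/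
theorem det_mem_iff {k ι : Type} [Field k] [DecidableEq ι] (N : ℕ)
    (L : Set ι) (f : MvPolynomial ι k) :
    f ∈ Ideal.span ((fun i => (X i : MvPolynomial ι k) ^ N) '' L) ↔
      ∀ b ∈ f.support, ∃ l ∈ L, N ≤ b l := by
  have h1 : (fun i => (X i : MvPolynomial ι k) ^ N) '' L =
      (fun s => monomial s (1 : k)) '' ((fun l => Finsupp.single l N) '' L) := by
    rw [Set.image_image]
    refine Set.image_congr fun l _ => ?_
    exact X_pow_eq_monomial
  rw [h1, mem_ideal_span_monomial_image]
  constructor
  · intro h b hb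
    obtain ⟨_, ⟨l, hl, rfl⟩, h2⟩ := h b hb
    exact ⟨l, hl, Finsupp.single_le_iff.1 h2⟩
  · intro h b hb
    obtain ⟨l, hl, h2⟩ := h b hb
    exact ⟨_, ⟨l, hl, rfl⟩, Finsupp.single_le_iff.2 h2⟩

/-- `X s` is regular modulo the powers of the other variables -/
theorem det_colon {k ι : Type} [Field k] [DecidableEq ι] (N : ℕ) (s : ι)
    (f : MvPolynomial ι k)
    (hf : X s * f ∈ Ideal.span ((fun i => (X i : MvPolynomial ι k) ^ N) '' {i | i ≠ s})) :
    f ∈ Ideal.span ((fun i => (X i : MvPolynomial ι k) ^ N) '' {i | i ≠ s}) := by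
  rw [det_mem_iff] at hf ⊢
  intro b hb
  have h1 : b + Finsupp.single s 1 ∈ (X s * f).support := by
    rw [mem_support_iff, mul_comm, coeff_mul_X]
    exact mem_support_iff.1 hb
  obtain ⟨l, hl, h2⟩ := hf _ h1
  refine ⟨l, hl, ?_⟩
  have hl' : l ≠ s := hl
  rw [Finsupp.add_apply, Finsupp.single_apply, if_neg (fun h => hl' h.symm), add_zero] at h2
  exact h2

/-- change of one row -/
theorem det_row {k ι : Type} [Field k] [Fintype ι] [DecidableEq ι] (N : ℕ)
    (a b : Matrix ι ι (MvPolynomial ι k)) (ha : ∀ i, ∑ j, a i j * X j = X i ^ N)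
    (hb : ∀ i, ∑ j, b i j * X j = X i ^ N) (s : ι) (hab : ∀ i, i ≠ s → a i = b i) :
    a.det - b.det ∈ Ideal.span (Set.range fun i => (X i : MvPolynomial ι k) ^ N) := by
  have h1 : a.det - b.det = (a.updateRow s (a s - b s)).det := by
    have h2 : a.det = (a.updateRow s ((a s - b s) + b s)).det := by
      rw [sub_add_cancel, Matrix.updateRow_eq_self]
    have h3 : a.updateRow s (b s) = b := by
      ext i j : 2
      by_cases h : i = s
      · subst h
        rw [Matrix.updateRow_self]
      · rw [Matrix.updateRow_ne h, hab i h]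
    rw [Matrix.det_updateRow_add, h3] at h2
    rw [h2]
    ring
  rw [h1]
  set c := a.updateRow s (a s - b s) with hc
  have h4 : ∀ i, ∑ j, c i j * X j = if i = s then 0 else X i ^ N := by
    intro i
    by_cases h : i = s
    · subst h
      rw [if_pos rfl, hc, Matrix.updateRow_self]
      simp only [Pi.sub_apply, sub_mul, Finset.sum_sub_distrib]
      rw [ha, hb, sub_self]
    · rw [if_neg h, hc, Matrix.updateRow_ne h]
      exact ha i
  have h5 : X s * c.det ∈
      Ideal.span ((fun i => (X i : MvPolynomial ι k) ^ N) '' {i | i ≠ s}) := by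
    have h6 := cramer_mem c (fun j => (X j : MvPolynomial ι k)) s
    rw [mul_comm]
    refine (Ideal.span_le.2 ?_) h6
    rintro _ ⟨i, rfl⟩
    simp only [h4]
    by_cases h : i = s
    · rw [if_pos h]
      exact Ideal.zero_mem _
    · rw [if_neg h]
      exact Ideal.subset_span ⟨i, h, rfl⟩
  refine Ideal.span_mono ?_ (det_colon N s c.det h5)
  rintro _ ⟨i, _, rfl⟩
  exact ⟨i, rfl⟩

theorem det_diff {k ι : Type} [Field k] [Fintype ι] [DecidableEq ι] (N : ℕ)
    (a b : Matrix ι ι (MvPolynomial ι k)) (ha : ∀ i, ∑ j, a i j * X j = X i ^ N)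
    (hb : ∀ i, ∑ j, b i j * X j = X i ^ N) :
    a.det - b.det ∈ Ideal.span (Set.range fun i => (X i : MvPolynomial ι k) ^ N) := by
  have key : ∀ S : Finset ι, ∀ c : Matrix ι ι (MvPolynomial ι k),
      (∀ i ∈ S, c i = a i) → (∀ i, i ∉ S → c i = b i) →
      c.det - b.det ∈ Ideal.span (Set.range fun i => (X i : MvPolynomial ι k) ^ N) := by
    intro S
    induction S using Finset.induction_on with
    | empty =>
      intro c _ h2
      have h3 : c = b := by
        funext i
        exact h2 i (Finset.notMem_empty i)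
      rw [h3, sub_self]
      exact Ideal.zero_mem _
    | insert s S hs ih =>
      intro c h1 h2
      have h3 := ih (c.updateRow s (b s)) (by
        intro i hi
        have his : i ≠ s := fun h => hs (h ▸ hi)
        rw [Matrix.updateRow_ne his]
        exact h1 i (mem_insert_of_mem hi)) (by
        intro i hi
        by_cases h : i = s
        · subst h
          rw [Matrix.updateRow_self]
        · rw [Matrix.updateRow_ne h]
          exact h2 i (fun h' => (mem_insert.1 h').elim h hi))
      have hc : ∀ i, ∑ j, c i j * X j = X i ^ N := by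
        intro i
        by_cases h : i ∈ insert s S
        · rw [h1 i h]; exact ha i
        · rw [h2 i h]; exact hb i
      have h4 := det_row N c (c.updateRow s (b s)) hc (by
        intro i
        by_cases h : i = s
        · subst h
          rw [Matrix.updateRow_self]
          exact hb i
        · rw [Matrix.updateRow_ne h]
          exact hc i) s (by
        intro i h
        rw [Matrix.updateRow_ne h])
      have h5 := Ideal.add_mem _ h4 h3
      have h6 : c.det - (c.updateRow s (b s)).det + ((c.updateRow s (b s)).det - b.det) =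
          c.det - b.det := by ring
      rwa [h6] at h5
  exact key Finset.univ a (fun i _ => rfl) (fun i hi => absurd (mem_univ i) hi)

theorem det_pow {k ι : Type} [Field k] [Fintype ι] [DecidableEq ι] (N : ℕ) (hN : 0 < N)
    (a : Matrix ι ι (MvPolynomial ι k)) (ha : ∀ i, ∑ j, a i j * X j = X i ^ N) :
    a.det ∉ Ideal.span (Set.range fun i => (X i : MvPolynomial ι k) ^ N) := by
  intro hmem
  have hd : ∀ i, ∑ j, Matrix.diagonal (fun l => (X l : MvPolynomial ι k) ^ (N - 1)) i j * X j =
      X i ^ N := by
    intro i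
    rw [Finset.sum_eq_single i]
    · rw [Matrix.diagonal_apply_eq, ← pow_succ, Nat.sub_add_cancel hN]
    · intro j _ hji
      rw [Matrix.diagonal_apply_ne _ (Ne.symm hji), zero_mul]
    · intro h
      exact absurd (mem_univ i) h
  have h1 := det_diff N a _ ha hd
  have h2 := Ideal.sub_mem _ hmem h1
  rw [sub_sub_cancel, Matrix.det_diagonal] at h2
  have h3 : ∏ l, (X l : MvPolynomial ι k) ^ (N - 1) =
      monomial (∑ l, Finsupp.single l (N - 1)) 1 := by
    rw [monomial_sum_one]
    exact Finset.prod_congr rfl fun l _ => X_pow_eq_monomial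
  rw [h3, ← Set.image_univ, det_mem_iff] at h2
  obtain ⟨l, _, h4⟩ := h2 (∑ l, Finsupp.single l (N - 1)) (by
    rw [mem_support_iff, coeff_monomial, if_pos rfl]
    exact one_ne_zero)
  rw [Finsupp.finsetSum_apply, Finset.sum_eq_single l] at h4
  · rw [Finsupp.single_eq_same] at h4
    omega
  · intro j _ hj
    rw [Finsupp.single_apply, if_neg hj]
  · intro h
    exact absurd (mem_univ l) h

theorem det_gen {k ι : Type} [Field k] [Fintype ι] [DecidableEq ι] (N : ℕ) (hN : 0 < N)
    (g : ι → MvPolynomial ι k)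
    (hg : ∀ i, (X i : MvPolynomial ι k) ^ N ∈ Ideal.span (Set.range g))
    (a : Matrix ι ι (MvPolynomial ι k)) (ha : ∀ i, ∑ j, a i j * X j = g i) :
    a.det ∉ Ideal.span (Set.range g) := by
  intro hmem
  have h1 : ∀ i, ∃ c : ι → MvPolynomial ι k, ∑ l, c l * g l = X i ^ N := by
    intro i
    exact Ideal.mem_span_range_iff_exists_fun.1 (hg i)
  choose b hb using h1
  have h2 : ∀ i, ∑ j, ((Matrix.of b) * a) i j * X j = X i ^ N := by
    intro i
    rw [← hb i]
    simp only [Matrix.mul_apply, Matrix.of_apply, Finset.sum_mul]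
    rw [Finset.sum_comm]
    refine Finset.sum_congr rfl fun l _ => ?_
    rw [← ha l, Finset.mul_sum]
    exact Finset.sum_congr rfl fun j _ => by ring
  apply det_pow N hN _ h2
  rw [Matrix.det_mul]
  obtain ⟨c, hc⟩ := Ideal.mem_span_range_iff_exists_fun.1 hmem
  rw [← hc, Finset.mul_sum]
  refine Ideal.sum_mem _ fun l _ => ?_
  have h3 := cramer_mem (Matrix.of b) g l
  have h4 : (Matrix.of b).det * (c l * g l) = c l * ((Matrix.of b).det * g l) := by ring
  rw [h4]
  refine Ideal.mul_mem_left _ _ ?_
  have h5 : (fun i => ∑ l, (Matrix.of b) i l * g l) =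
      fun i => (X i : MvPolynomial ι k) ^ N := by
    funext i
    exact hb i
  rw [h5] at h3
  exact h3

end VSQR
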