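import Mathlib

/-!
# DIMC: chains of primes and integral maps to polynomial rings

`ringKrullDim (MvPolynomial σ k) = Fintype.card σ` (`MvPolynomial.ringKrullDim_of_isNoetherianRing`,
`ringKrullDim_eq_zero_of_field`).  `dimc`: by going up
(`Ideal.exists_ideal_over_prime_of_isIntegral_of_isPrime` or similar) lift the chain to primes
`P_0 ≤ … ≤ P_m` of the polynomial ring with `P_i ∩ A = p_i` (start with `⊥`: its preimage is
`ker f ≤ p 0`); they are strictly increasing, so `m ≤ ringKrullDim`.
`dimr`: by incomparability (`Ideal.IsIntegral.comap_lt_comap` or similar) preimages of strict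
inclusions of primes are strict, so `ringKrullDim (MvPolynomial σ k) ≤ ringKrullDim A`.
-/

set_option autoImplicit false

namespace VSQR

open Finset

variable {k A σ : Type} [Field k] [CommRing A] [Fintype σ]

private theorem DIMC_dim : ringKrullDim (MvPolynomial σ k) = (Fintype.card σ : ℕ) := by
  rw [MvPolynomial.ringKrullDim_of_isNoetherianRing, ringKrullDim_eq_zero_of_field,
    Nat.card_eq_fintype_card, zero_add]

theorem dimc (f : A →+* MvPolynomial σ k) (hf : f.IsIntegral) (m : ℕ) (p : ℕ → Ideal A)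
    (h0 : RingHom.ker f ≤ p 0) (hp : ∀ i ≤ m, (p i).IsPrime) (hlt : ∀ i < m, p i < p (i + 1)) :
    m ≤ Fintype.card σ := by
  let _ := f.toAlgebra
  have : Algebra.IsIntegral A (MvPolynomial σ k) := ⟨hf⟩
  have key : ∀ i ≤ m, ∃ l : LTSeries (PrimeSpectrum (MvPolynomial σ k)),
      l.length = i ∧ l.last.asIdeal.comap f = p i := by
    intro i
    induction i with
    | zero =>
      intro _
      have := hp 0 (Nat.zero_le _)
      obtain ⟨Q, -, hQ, hQ'⟩ := Ideal.exists_ideal_over_prime_of_isIntegral (p 0)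
        (⊥ : Ideal (MvPolynomial σ k)) h0
      exact ⟨RelSeries.singleton _ ⟨Q, hQ⟩, rfl, hQ'⟩
    | succ i ih =>
      intro hi
      obtain ⟨l, hl, hl'⟩ := ih (by omega)
      have := hp (i + 1) hi
      have := l.last.isPrime
      have hle : l.last.asIdeal.comap (algebraMap A (MvPolynomial σ k)) ≤ p (i + 1) := by
        refine le_trans (le_of_eq hl') (hlt i (by omega)).le
      obtain ⟨Q, hQ, hQp, hQ'⟩ := Ideal.exists_ideal_over_prime_of_isIntegral_of_isPrime
        (p (i + 1)) l.last.asIdeal hle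
      have hlt' : l.last < (⟨Q, hQp⟩ : PrimeSpectrum (MvPolynomial σ k)) := by
        refine lt_of_le_of_ne hQ ?_
        intro heq
        have h1 : l.last.asIdeal = Q := congrArg PrimeSpectrum.asIdeal heq
        have h2 : p i = p (i + 1) := by
          rw [← hl', h1]
          exact hQ'
        exact (hlt i (by omega)).ne h2
      refine ⟨l.snoc ⟨Q, hQp⟩ hlt', ?_, ?_⟩
      · rw [RelSeries.snoc_length, hl]
      · rw [RelSeries.last_snoc]
        exact hQ'
  obtain ⟨l, hl, -⟩ := key m le_rfl
  have h1 := Order.LTSeries.length_le_krullDim l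
  have h2 : ((m : ℕ) : WithBot ℕ∞) ≤ ((Fintype.card σ : ℕ) : WithBot ℕ∞) := by
    rw [← DIMC_dim (k := k) (σ := σ), ← hl]
    exact h1
  exact_mod_cast h2

theorem dimr (f : A →+* MvPolynomial σ k) (hf : f.IsIntegral) (r : ℕ)
    (hr : ringKrullDim A = r) : Fintype.card σ ≤ r := by
  let _ := f.toAlgebra
  have : Algebra.IsIntegral A (MvPolynomial σ k) := ⟨hf⟩
  have hmono : StrictMono (PrimeSpectrum.comap f) := by
    intro P Q hPQ
    have := P.isPrime
    obtain ⟨x, hxQ, hxP⟩ := SetLike.exists_of_lt (show P.asIdeal < Q.asIdeal from hPQ)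
    exact Ideal.comap_lt_comap_of_integral_mem_sdiff (R := A) (I := P.asIdeal)
      (le_of_lt hPQ : P.asIdeal ≤ Q.asIdeal) ⟨hxQ, hxP⟩ (hf x)
  have h1 := Order.krullDim_le_of_strictMono _ hmono
  have h2 : ((Fintype.card σ : ℕ) : WithBot ℕ∞) ≤ ((r : ℕ) : WithBot ℕ∞) := by
    rw [← DIMC_dim (k := k) (σ := σ), ← hr]
    exact h1
  exact_mod_cast h2

end VSQR
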