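import Pool.Agent.H41.VS.Coh

/-!
# Definitions: graded pieces of the cohomology ring, very strongly quasi-regular systems of
parameters, the group `GG` of order `2 ^ 11`
-/

set_option autoImplicit false

namespace VSQR

open Finset

section Grading

variable {G : Type} [Group G]

/-- `Hgr k H n` is `H^n(H, k)`: the classes of the invariant cocycles which vanish on all the
sequences `(x_0,…,x_m)` with `m ≠ n`. -/
def Hgr (k : Type) [CommRing k] [CharP k 2] (H : Subgroup G) (n : ℕ) :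
    Submodule k (Coh k H) where
  carrier := {a | ∃ z : Zc k H,
    (∀ l : List G, l.length ≠ n + 1 → ((z : Coch G k) : List G → k) l = 0) ∧ cls k H z = a}
  add_mem' := by
    rintro _ _ ⟨z, hz, rfl⟩ ⟨z', hz', rfl⟩
    refine ⟨z + z', fun l hl => ?_, map_add _ _ _⟩
    change ((z : Coch G k) : List G → k) l + ((z' : Coch G k) : List G → k) l = 0
    rw [hz l hl, hz' l hl, add_zero]
  zero_mem' := ⟨0, fun _ _ => rfl, map_zero _⟩
  smul_mem' := by
    rintro c _ ⟨z, hz, rfl⟩
    refine ⟨c • z, fun l hl => ?_, rfl⟩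
    change c * ((z : Coch G k) : List G → k) l = 0
    rw [hz l hl, mul_zero]

end Grading

section Parameters

variable {A : Type} [CommRing A]

/-- The ideal `(h_1,…,h_i)`; the sequence is `h_1 = h 0, h_2 = h 1, …`. -/
def sp (h : ℕ → A) (i : ℕ) : Ideal A := Ideal.span {x | ∃ j < i, h j = x}

variable (k : Type) [Field k] [Algebra k A]

/-- `h_1 = h 0, …, h_r = h (r-1)`, of degrees `|h_1| = e 0, …, |h_r| = e (r-1)`, is a homogeneous
system of parameters of the `k`-algebra `A` graded by `𝒜`: the number `r` is the Krull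
dimension of `A`, the `h_i` are homogeneous of positive degree, and `A/(h_1,…,h_r)` is
finite-dimensional over `k`. -/
def IsHSOP (𝒜 : ℕ → Submodule k A) (r : ℕ) (h : ℕ → A) (e : ℕ → ℕ) : Prop :=
  ringKrullDim A = r ∧ (∀ i < r, 0 < e i ∧ h i ∈ 𝒜 (e i)) ∧ FiniteDimensional k (A ⧸ sp h r)

/-- `h_1, …, h_r` is filter-regular: for `1 ≤ i ≤ r` the annihilator of `h_i` in
`A/(h_1,…,h_{i-1})` is finite-dimensional over `k`. -/
def IsFilterRegular (r : ℕ) (h : ℕ → A) : Prop :=
  ∀ i < r, FiniteDimensional k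
    (LinearMap.ker (LinearMap.mulLeft k (Ideal.Quotient.mk (sp h i) (h i))))

/-- The system `h_1, …, h_r` has type `(d_0,…,d_r)`: `d_0 ≥ -1`, `d_{i-1} - 1 ≤ d_i ≤ d_{i-1}` for
`1 ≤ i ≤ r` and, with `h_{r+1} = 0`, for `0 ≤ i ≤ r` the annihilator of `h_{i+1}` in
`A/(h_1,…,h_i)` is concentrated in degrees `≤ d_i + |h_1| + … + |h_i|`. -/
def HasType (𝒜 : ℕ → Submodule k A) (r : ℕ) (h : ℕ → A) (e : ℕ → ℕ) (dd : ℕ → ℤ) : Prop :=
  -1 ≤ dd 0 ∧ (∀ i < r, dd i - 1 ≤ dd (i + 1) ∧ dd (i + 1) ≤ dd i) ∧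
    ∀ i ≤ r, ∀ n : ℕ, ∀ a ∈ 𝒜 n, (if i < r then h i else 0) * a ∈ sp h i → a ∉ sp h i →
      (n : ℤ) ≤ dd i + ∑ j ∈ range i, (e j : ℤ)

/-- Very strongly quasi-regular system of parameters: a filter-regular homogeneous system of
parameters of type `(-1,-2,…,-r,-r)`. -/
def IsVSQR (𝒜 : ℕ → Submodule k A) (r : ℕ) (h : ℕ → A) (e : ℕ → ℕ) : Prop :=
  IsHSOP k 𝒜 r h e ∧ IsFilterRegular k r h ∧
    HasType k 𝒜 r h e (fun i => if i < r then -(i : ℤ) - 1 else -(r : ℤ))

end Parameters

section TheGroup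

/-- The group `GG` of order `2 ^ 11`: triples `(t, r, c)` with `t ∈ F_2^2`, `r ∈ F_2^3` and
`c ∈ M_{2,3}(F_2)`; product `(t, r, c)(t', r', c') = (t + t', r + r', c + c' + t ⊗ r')`. -/
@[ext] structure GG where
  t : Fin 2 → ZMod 2
  r : Fin 3 → ZMod 2
  c : Fin 2 → Fin 3 → ZMod 2

namespace GG

theorem tw (a : ZMod 2) : a + a = 0 := CharTwo.add_self_eq_zero a

instance : Mul GG := ⟨fun x y => ⟨x.t + y.t, x.r + y.r, fun i j => x.c i j + y.c i j + x.t i * y.r j⟩⟩
instance : One GG := ⟨⟨0, 0, fun _ _ => 0⟩⟩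
instance : _root_.Inv GG := ⟨fun x => ⟨x.t, x.r, fun i j => x.c i j + x.t i * x.r j⟩⟩

@[simp] theorem mul_t (x y : GG) : (x * y).t = x.t + y.t := rfl
@[simp] theorem mul_r (x y : GG) : (x * y).r = x.r + y.r := rfl
@[simp] theorem mul_c (x y : GG) (i : Fin 2) (j : Fin 3) :
    (x * y).c i j = x.c i j + y.c i j + x.t i * y.r j := rfl
@[simp] theorem one_t : (1 : GG).t = 0 := rfl
@[simp] theorem one_r : (1 : GG).r = 0 := rfl
@[simp] theorem one_c (i : Fin 2) (j : Fin 3) : (1 : GG).c i j = 0 := rfl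
@[simp] theorem inv_t (x : GG) : x⁻¹.t = x.t := rfl
@[simp] theorem inv_r (x : GG) : x⁻¹.r = x.r := rfl
@[simp] theorem inv_c (x : GG) (i : Fin 2) (j : Fin 3) :
    x⁻¹.c i j = x.c i j + x.t i * x.r j := rfl

instance : Group GG where
  mul_assoc x y z := by
    ext i j
    · simp [add_assoc]
    · simp [add_assoc]
    · simp only [mul_c, mul_t, mul_r, Pi.add_apply]
      ring
  one_mul x := by
    ext i j <;> simp
  mul_one x := by
    ext i j <;> simp
  inv_mul_cancel x := by
    ext i j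
    · simp [tw]
    · simp [tw]
    · simp only [mul_c, inv_c, inv_t, one_c]
      have h1 := tw (x.c i j)
      have h2 := tw (x.t i * x.r j)
      linear_combination h1 + h2

end GG

end TheGroup

/-- index set of the variables `t_i`, `y_ij` -/
abbrev I := Fin 2 ⊕ (Fin 2 × Fin 3)

/-- index set of the variables `r_j`, `c_ij` -/
abbrev I' := Fin 3 ⊕ (Fin 2 × Fin 3)

/-- the embedding of `F_2` in a ring of characteristic two -/
def cz (k : Type) [CommRing k] [CharP k 2] : ZMod 2 →+* k := ZMod.castHom (dvd_refl 2) k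

open MvPolynomial in
/-- the automorphisms `α_r` of `k[t_i, y_ij]`: `t_i ↦ t_i`, `y_ij ↦ y_ij + r_j t_i` -/
noncomputable def al {k : Type} [CommRing k] [CharP k 2] (r : Fin 3 → ZMod 2) :
    MvPolynomial I k →ₐ[k] MvPolynomial I k :=
  aeval (Sum.elim (fun i => X (Sum.inl i))
    (fun p => X (Sum.inr p) + C (cz k (r p.2)) * X (Sum.inl p.1)))

/-- What the algebra half needs to know about the cohomology ring `A = H^*(GG, k)`:
the restriction `rho` to `H^*(V, k) = k[t_i, y_ij]`, the transfer `tau` back, and the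
restriction `rho'` to `H^*(U, k) = k[r_j, c_ij]`. -/
structure Pack (k A : Type) [Field k] [CharP k 2] [CommRing A] [Algebra k A]
    (𝒜 : ℕ → Submodule k A) where
  rho : A →ₐ[k] MvPolynomial I k
  tau : MvPolynomial I k →+ A
  rho' : A →ₐ[k] MvPolynomial I' k
  rho_deg : ∀ n, ∀ a ∈ 𝒜 n, (rho a).IsHomogeneous n
  tau_deg : ∀ n, ∀ s : MvPolynomial I k, s.IsHomogeneous n → tau s ∈ 𝒜 n
  proj : ∀ a s, tau (rho a * s) = a * tau s
  rho_tau : ∀ s, rho (tau s) = ∑ r : Fin 3 → ZMod 2, al r s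
  al_rho : ∀ r a, al r (rho a) = rho a
  fin : IsNoetherianRing A → rho.toRingHom.Finite
  fin' : IsNoetherianRing A → rho'.toRingHom.Finite
  zero : ∀ a ∈ 𝒜 0, ∃ c : k, a = algebraMap k A c

section Coordinates

variable {G : Type} [Group G]

/-- the cochain of degree `0` of a function on `G` -/
def zc {k : Type} [CommRing k] (f : G → k) : Coch G k :=
  ⟨fun l => match l with
    | [x] => f x
    | _ => 0, rfl, 2, fun l hl => by
      match l, hl with
      | _ :: _ :: _, _ => rfl⟩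

/-- the cochain of degree `0` of an `F_2`-valued function -/
def th (k : Type) [CommRing k] [CharP k 2] (θ : G → ZMod 2) : Coch G k := zc fun x => cz k (θ x)

/-- `θ` is additive with respect to left multiplication by elements of `H` -/
def Addi (H : Subgroup G) (θ : G → ZMod 2) : Prop := ∀ h ∈ H, ∀ x, θ (h * x) = θ h + θ x

end Coordinates

end VSQR
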