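import Mathlib

/-!
# EXPA: homogeneous polynomials of positive degree in terms of the variables

`expand`: each monomial `x^b` of degree `n > 0` has some `b i > 0`; choose one such `i` for each
monomial.  `det_homog`: Leibniz formula.
-/

set_option autoImplicit false

namespace VSQR

open Finset MvPolynomial

theorem expand {k σ : Type} [CommRing k] [Fintype σ] (f : MvPolynomial σ k) {n : ℕ}
    (hf : f.IsHomogeneous n) (hn : 0 < n) :
    ∃ c : σ → MvPolynomial σ k, (∀ i, (c i).IsHomogeneous (n - 1)) ∧ f = ∑ i, c i * X i := by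
  classical
  have hpos : ∀ b ∈ f.support, ∃ i, b i ≠ 0 := by
    intro b hb
    by_contra hcon
    push Not at hcon
    have h1 := hf (mem_support_iff.1 hb)
    have h2 : b = 0 := Finsupp.ext hcon
    rw [h2, map_zero] at h1
    omega
  rcases isEmpty_or_nonempty σ with hσ | hσ
  · refine ⟨fun _ => 0, fun i => isEmptyElim i, ?_⟩
    have h0 : f = 0 := by
      ext b
      by_contra hb
      rw [coeff_zero] at hb
      obtain ⟨i, _⟩ := hpos b (mem_support_iff.2 hb)
      exact isEmptyElim i
    rw [h0]
    simp
  choose! g hg using hpos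
  refine ⟨fun i => ∑ b ∈ f.support.filter (fun b => g b = i),
    monomial (b - Finsupp.single i 1) (coeff b f), ?_, ?_⟩
  · intro i
    refine IsHomogeneous.sum _ _ _ fun b hb => ?_
    rw [Finset.mem_filter] at hb
    refine isHomogeneous_monomial _ ?_
    have h1 := hf (mem_support_iff.1 hb.1)
    have h2 := hg b hb.1
    rw [hb.2] at h2
    have h3 : b - Finsupp.single i 1 + Finsupp.single i 1 = b :=
      tsub_add_cancel_of_le (Finsupp.single_le_iff.2 (Nat.one_le_iff_ne_zero.2 h2))
    have h4 : (b - Finsupp.single i 1).degree + 1 = b.degree := by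
      conv_rhs => rw [← h3]
      rw [map_add, Finsupp.degree_single]
    have h5 : b.degree = n := by
      rw [Finsupp.degree_eq_weight_one]
      exact h1
    omega
  · have h1 : ∀ i, (∑ b ∈ f.support.filter (fun b => g b = i),
        monomial (b - Finsupp.single i 1) (coeff b f)) * X i =
        ∑ b ∈ f.support.filter (fun b => g b = i), monomial b (coeff b f) := by
      intro i
      rw [Finset.sum_mul]
      refine Finset.sum_congr rfl fun b hb => ?_
      rw [Finset.mem_filter] at hb
      have h2 := hg b hb.1
      rw [hb.2] at h2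
      have h3 : b - Finsupp.single i 1 + Finsupp.single i 1 = b :=
        tsub_add_cancel_of_le (Finsupp.single_le_iff.2 (Nat.one_le_iff_ne_zero.2 h2))
      rw [X, monomial_mul, h3, mul_one]
    simp only [h1]
    have h5 := Finset.sum_fiberwise f.support g fun b => monomial b (coeff b f)
    rw [h5]
    exact f.as_sum

theorem det_homog {k σ ι : Type} [CommRing k] [Fintype ι] [DecidableEq ι]
    (m : Matrix ι ι (MvPolynomial σ k)) (n : ι → ℕ) (hm : ∀ i j, (m i j).IsHomogeneous (n i)) :
    m.det.IsHomogeneous (∑ i, n i) := by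
  rw [← Matrix.det_transpose, Matrix.det_apply]
  refine IsHomogeneous.sum _ _ _ fun s _ => ?_
  have h1 : (∏ i, m.transpose (s i) i).IsHomogeneous (∑ i, n i) :=
    IsHomogeneous.prod _ _ _ fun i _ => hm i (s i)
  rw [Units.smul_def, ← Int.cast_smul_eq_zsmul k]
  rw [smul_eq_C_mul]
  have h2 := (isHomogeneous_C σ (((Equiv.Perm.sign s : ℤˣ) : ℤ) : k)).mul h1
  rw [zero_add] at h2
  exact h2

end VSQR
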