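import Pool.Agent.H41.VS.KILL
import Pool.Agent.H41.VS.EXPA
import Pool.Agent.H41.VS.DET
import Pool.Agent.H41.VS.ALB

/-!
# MAINA: the transfer of the determinant is in the ideal of the first eight parameters

`P.rho (h i)` is homogeneous of degree `e i > 0`: `expand` gives `m` (rows indexed by `I` through
`eI : I ≃ Fin 8`), `m i j` homogeneous of degree `e (eI i) - 1`, so `m.det` is homogeneous of degree
`∑ (e (eI i) - 1)` (`det_homog`).  `P.rho (h 8) = ∑ c_j X j` (`expand`), so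
`P.rho (h 8) * m.det ∈ (P.rho (h i) : i < 8)` (`cramer_mem`):
`P.rho (h 8) * m.det = ∑ P.rho (h i) * s_i`, and
`h 8 * P.tau m.det = P.tau (P.rho (h 8) * m.det) = ∑ h_i * P.tau s_i ∈ sp h 8`.
`P.tau m.det ∈ 𝒜 n`, `n = ∑ (e i - 1) = ∑ e i - 8`, so `n + 9 ≤ ∑ e i` is false and `hty8` shows
`P.tau m.det ∈ sp h 8`: `P.tau m.det = ∑ h_i a_i`.  Apply `P.rho`: `P.rho_tau`, `u_i = P.rho a_i`,
`P.al_rho`.
-/

set_option autoImplicit false

namespace VSQR

open Finset MvPolynomial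

theorem mainA {k A : Type} [Field k] [CharP k 2] [CommRing A] [Algebra k A]
    (𝒜 : ℕ → Submodule k A) [GradedAlgebra 𝒜] (P : Pack k A 𝒜) (eI : I ≃ Fin 8)
    (h : ℕ → A) (e : ℕ → ℕ) (he : ∀ i < 9, 0 < e i ∧ h i ∈ 𝒜 (e i))
    (hty8 : ∀ n, ∀ a ∈ 𝒜 n, h 8 * a ∈ sp h 8 → a ∉ sp h 8 → n + 9 ≤ ∑ j ∈ range 8, e j) :
    ∃ (m : Matrix I I (MvPolynomial I k)) (u : I → MvPolynomial I k),
      (∀ i, P.rho (h (eI i)) = ∑ j, m i j * X j) ∧ (∀ r i, al r (u i) = u i) ∧
      ∑ r : Fin 3 → ZMod 2, al r m.det = ∑ i, P.rho (h (eI i)) * u i := by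
  have hexp : ∀ i : I, ∃ c : I → MvPolynomial I k,
      (∀ j, (c j).IsHomogeneous (e (eI i) - 1)) ∧ P.rho (h (eI i)) = ∑ j, c j * X j := by
    intro i
    have h1 := he (eI i) (by have := (eI i).2; omega)
    exact expand _ (P.rho_deg _ _ h1.2) h1.1
  choose m hmh hm using hexp
  have hsp : sp h 8 = Ideal.span (Set.range fun i : I => h (eI i)) := by
    unfold sp
    congr 1
    ext x
    constructor
    · rintro ⟨j, hj, rfl⟩
      exact ⟨eI.symm ⟨j, hj⟩, by simp⟩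
    · rintro ⟨i, rfl⟩
      exact ⟨eI i, (eI i).2, rfl⟩
  obtain ⟨c8, _, hc8⟩ := expand _ (P.rho_deg _ _ (he 8 (by norm_num)).2) (he 8 (by norm_num)).1
  have hmem : P.rho (h 8) * (Matrix.of m).det ∈
      Ideal.span (Set.range fun i : I => P.rho (h (eI i))) := by
    have h1 : (fun i : I => P.rho (h (eI i))) = fun i => ∑ l, (Matrix.of m) i l * X l := by
      funext i
      rw [hm i]
      rfl
    rw [h1, hc8, Finset.sum_mul]
    refine Ideal.sum_mem _ fun j _ => ?_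
    have h2 : c8 j * X j * (Matrix.of m).det = c8 j * ((Matrix.of m).det * X j) := by ring
    rw [h2]
    exact Ideal.mul_mem_left _ _ (cramer_mem (Matrix.of m) (fun j => X j) j)
  obtain ⟨s, hs⟩ := Ideal.mem_span_range_iff_exists_fun.1 hmem
  have h8 : h 8 * P.tau (Matrix.of m).det ∈ sp h 8 := by
    rw [← P.proj, ← hs, map_sum, hsp]
    refine Ideal.sum_mem _ fun i _ => ?_
    rw [mul_comm (s i), P.proj]
    exact Ideal.mul_mem_right _ _ (Ideal.subset_span ⟨i, rfl⟩)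
  have hdet : ((Matrix.of m).det).IsHomogeneous (∑ i : I, (e (eI i) - 1)) :=
    det_homog _ _ fun i j => hmh i j
  have hsum : (∑ i : I, (e (eI i) - 1)) + 8 = ∑ j ∈ range 8, e j := by
    have h1 : ∑ i : I, (e (eI i) - 1) = ∑ j : Fin 8, (e j - 1) :=
      Fintype.sum_equiv eI _ _ fun _ => rfl
    rw [h1, ← Fin.sum_univ_eq_sum_range]
    have h2 : ∀ j : Fin 8, e j = (e j - 1) + 1 := fun j => by
      have := (he j (by have := j.2; omega)).1
      omega
    rw [Finset.sum_congr rfl fun j _ => h2 j, Finset.sum_add_distrib]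
    simp
  have htau : P.tau (Matrix.of m).det ∈ sp h 8 := by
    by_contra hcon
    have h1 := hty8 _ _ (P.tau_deg _ _ hdet) h8 hcon
    omega
  rw [hsp] at htau
  obtain ⟨a, ha⟩ := Ideal.mem_span_range_iff_exists_fun.1 htau
  refine ⟨Matrix.of m, fun i => P.rho (a i), fun i => hm i, fun r i => P.al_rho r _, ?_⟩
  rw [← P.rho_tau, ← ha, map_sum]
  exact Finset.sum_congr rfl fun i _ => by rw [map_mul, mul_comm]

end VSQR
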