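import Pool.Agent.H41.VS.ALB

/-!
# SOC: socles of monomial complete intersections; the ideal of the parameters `gg`

`soc`: the ideal is a monomial ideal (`MvPolynomial.mem_ideal_span_monomial_image`): a polynomial
is in it iff each monomial `x^b` in its support has some `b l ≥ m l`.  If `x^b` is in the support of
`f` with all `b l < m l`, then `x_l x^b` is in the support of `X l * f`, so `b l + 1 ≥ m l`
for all `l`: `b = m - 1`.
`span_gg`: `nn k p ^ Q = X (inr p) ^ (2 * Q) + X (inl p.1) ^ Q * X (inr p) ^ Q` for `Q = 2 ^ e`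
(characteristic two: `add_pow_char_pow`), and `Q ≥ M`.
-/

set_option autoImplicit false

namespace VSQR

open Finset MvPolynomial

/-- the ideal generated by the `X l ^ m l` in terms of monomials -/
theorem soc_mem_iff {k ι : Type} [Field k] (m : ι → ℕ)
    (f : MvPolynomial ι k) :
    f ∈ Ideal.span (Set.range fun i => (X i : MvPolynomial ι k) ^ m i) ↔
      ∀ b ∈ f.support, ∃ l, m l ≤ b l := by
  have h1 : (Set.range fun i => (X i : MvPolynomial ι k) ^ m i) =
      (fun s => monomial s (1 : k)) '' (Set.range fun l => Finsupp.single l (m l)) := by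
    rw [← Set.range_comp]
    congr 1
    funext l
    exact X_pow_eq_monomial
  rw [h1, mem_ideal_span_monomial_image]
  constructor
  · intro h b hb
    obtain ⟨_, ⟨l, rfl⟩, h2⟩ := h b hb
    exact ⟨l, Finsupp.single_le_iff.1 h2⟩
  · intro h b hb
    obtain ⟨l, h2⟩ := h b hb
    exact ⟨_, ⟨l, rfl⟩, Finsupp.single_le_iff.2 h2⟩

theorem soc {k ι : Type} [Field k] [Fintype ι] [DecidableEq ι] (m : ι → ℕ) (hm : ∀ i, 0 < m i)
    (f : MvPolynomial ι k)
    (hf : ∀ l, X l * f ∈ Ideal.span (Set.range fun i => (X i : MvPolynomial ι k) ^ m i)) :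
    ∃ c : k, f - C c * ∏ l, X l ^ (m l - 1) ∈
      Ideal.span (Set.range fun i => (X i : MvPolynomial ι k) ^ m i) := by
  set b0 : ι →₀ ℕ := ∑ l, Finsupp.single l (m l - 1) with hb0
  have hb0l : ∀ l, b0 l = m l - 1 := by
    intro l
    rw [hb0, Finsupp.finsetSum_apply, Finset.sum_eq_single l]
    · rw [Finsupp.single_eq_same]
    · intro j _ hj
      rw [Finsupp.single_apply, if_neg hj]
    · intro h
      exact absurd (mem_univ l) h
  have h3 : ∏ l, (X l : MvPolynomial ι k) ^ (m l - 1) = monomial b0 1 := by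
    rw [hb0, monomial_sum_one]
    exact Finset.prod_congr rfl fun l _ => X_pow_eq_monomial
  refine ⟨coeff b0 f, ?_⟩
  rw [h3, C_mul_monomial, mul_one, soc_mem_iff]
  intro b hb
  rw [mem_support_iff, coeff_sub, coeff_monomial] at hb
  by_contra hcon
  push Not at hcon
  have hne : b0 ≠ b := by
    intro h
    rw [if_pos h, h, sub_self] at hb
    exact hb rfl
  rw [if_neg hne, sub_zero] at hb
  apply hne
  ext l
  have h1 : b + Finsupp.single l 1 ∈ (X l * f).support := by
    rw [mem_support_iff, mul_comm, coeff_mul_X]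
    exact hb
  obtain ⟨i, hi⟩ := (soc_mem_iff m _).1 (hf l) _ h1
  rw [Finsupp.add_apply, Finsupp.single_apply] at hi
  have h2 := hcon i
  by_cases hil : l = i
  · subst hil
    rw [if_pos rfl] at hi
    rw [hb0l]
    omega
  · rw [if_neg hil] at hi
    omega

/-- the exponents -/
def mm (M Q : ℕ) : I → ℕ := Sum.elim (fun _ => M) (fun _ => 2 * Q)

theorem nn_pow {k : Type} [CommRing k] [CharP k 2] (e : ℕ) (p : Fin 2 × Fin 3) :
    nn k p ^ (2 ^ e) = X (Sum.inr p) ^ (2 * 2 ^ e) +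
      X (Sum.inl p.1) ^ (2 ^ e) * X (Sum.inr p) ^ (2 ^ e) := by
  have : Fact (Nat.Prime 2) := ⟨Nat.prime_two⟩
  unfold nn
  rw [add_pow_char_pow (p := 2), ← pow_mul, mul_pow]

theorem span_gg {k : Type} [CommRing k] [CharP k 2] (M e : ℕ) (hM : M ≤ 2 ^ e) :
    Ideal.span (Set.range (gg k M (2 ^ e))) =
      Ideal.span (Set.range fun i => (X i : MvPolynomial I k) ^ mm M (2 ^ e) i) := by
  have hinl : ∀ J : Ideal (MvPolynomial I k), ∀ i : Fin 2,
      (X (Sum.inl i) : MvPolynomial I k) ^ M ∈ J → ∀ s : MvPolynomial I k,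
      X (Sum.inl i) ^ (2 ^ e) * s ∈ J := by
    intro J i hi s
    obtain ⟨d, hd⟩ := Nat.exists_eq_add_of_le hM
    rw [hd, pow_add, mul_assoc]
    exact Ideal.mul_mem_right _ _ hi
  apply le_antisymm
  · rw [Ideal.span_le]
    rintro _ ⟨i | p, rfl⟩
    · exact Ideal.subset_span ⟨Sum.inl i, rfl⟩
    · change nn k p ^ (2 ^ e) ∈ _
      rw [nn_pow]
      have h9 : (X (Sum.inl p.1) : MvPolynomial I k) ^ M ∈
          Ideal.span (Set.range fun i => (X i : MvPolynomial I k) ^ mm M (2 ^ e) i) :=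
        Ideal.subset_span ⟨Sum.inl p.1, rfl⟩
      exact Ideal.add_mem _ (Ideal.subset_span ⟨Sum.inr p, rfl⟩) (hinl _ p.1 h9 _)
  · rw [Ideal.span_le]
    rintro _ ⟨i | p, rfl⟩
    · exact Ideal.subset_span ⟨Sum.inl i, rfl⟩
    · change (X (Sum.inr p) : MvPolynomial I k) ^ (2 * 2 ^ e) ∈ _
      have h1 := nn_pow (k := k) e p
      have h2 : (X (Sum.inr p) : MvPolynomial I k) ^ (2 * 2 ^ e) = nn k p ^ (2 ^ e) -
          X (Sum.inl p.1) ^ (2 ^ e) * X (Sum.inr p) ^ (2 ^ e) := by
        rw [h1]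
        ring
      rw [h2]
      have h9 : (X (Sum.inl p.1) : MvPolynomial I k) ^ M ∈
          Ideal.span (Set.range (gg k M (2 ^ e))) :=
        Ideal.subset_span ⟨Sum.inl p.1, rfl⟩
      exact Ideal.sub_mem _ (Ideal.subset_span ⟨Sum.inr p, rfl⟩) (hinl _ p.1 h9 _)

theorem s0_eq (k : Type) [CommRing k] (M Q : ℕ) :
    s0 k M Q = ∏ i, (X i : MvPolynomial I k) ^ (mm M Q i - 1) := by
  rw [Fintype.prod_sum_type]
  unfold s0
  congr 1
  rw [Fin.prod_univ_two]
  rfl

end VSQR
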