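import Pool.Agent.H41.VS.INVA
import Pool.Agent.H41.VS.SOC

/-!
# INVB: the socle element has no invariant expression

Write `Q = 2 ^ e`, `L a b f = coeff (ex Q a b) f`, `Tr f = ∑ r, al r f`.  By `coeff_al` and
`al r (al r f) = f`: `L a b (u * Tr v) = L a b (Tr u * v)` (`adj`) for `a, b < 2Q`.
`L (M+2) (M-1) (w 0 * Tr s0) = L (M+2) (M-1) (t_1^3 * s0) = 1`.
On the other hand `L (M+2) (M-1) (w 0 * (gg i * a i)) = 0` for every `i`:
* `gg = t_1^M`: `L (M+2) (M-1) (t_1^M * (w 0 * a)) = L 2 (M-1) (w 0 * a)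
  = L 2 (M+2) (t_2^3 * (w 0 * a)) = L 2 (M+2) (Tr (w 1) * (w 0 * a)) = L 2 (M+2) (w 1 * Tr (w 0 * a))
  = L 2 (M+2) (w 1 * (t_1^3 * a)) = 0`, the exponent of `t_1` being `2 < 3` (`Tr_mul`, `Tr_w`);
* `gg = t_2^M`: zero as `M - 1 < M`;
* `gg = nn p ^ Q = y_p^(2Q) + t_i^Q y_p^Q` (`nn_pow`): zero as `2Q - 1 < 2Q` and `M + 2 < Q`.
-/

set_option autoImplicit false

namespace VSQR

open Finset MvPolynomial

section invb_aux

variable {k : Type} [CommRing k]

theorem invb_cX (i : I) (n : ℕ) (m : I →₀ ℕ) (f : MvPolynomial I k) :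
    coeff m (X i ^ n * f) = if n ≤ m i then coeff (m - Finsupp.single i n) f else 0 := by
  rw [X_pow_eq_monomial, coeff_monomial_mul']
  have h : Finsupp.single i n ≤ m ↔ n ≤ m i := by
    rw [Finsupp.single_le_iff]
  simp only [h, one_mul]

theorem invb_ex0 (Q a b : ℕ) : ex Q a b (Sum.inl 0) = a := rfl
theorem invb_ex1 (Q a b : ℕ) : ex Q a b (Sum.inl 1) = b := rfl
theorem invb_exr (Q a b : ℕ) (p : Fin 2 × Fin 3) : ex Q a b (Sum.inr p) = 2 * Q - 1 := rfl

theorem invb_sub0 (Q a b n : ℕ) :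
    ex Q (a + n) b - Finsupp.single (Sum.inl 0) n = ex Q a b := by
  ext i
  rcases i with i | p
  · fin_cases i
    · simp [invb_ex0]
    · simp [invb_ex1]
  · simp [invb_exr]

theorem invb_sub1 (Q a b n : ℕ) :
    ex Q a (b + n) - Finsupp.single (Sum.inl 1) n = ex Q a b := by
  ext i
  rcases i with i | p
  · fin_cases i
    · simp [invb_ex0]
    · simp [invb_ex1]
  · simp [invb_exr]

variable [CharP k 2]

theorem invb_adj (e a b : ℕ) (ha : a + 1 ≤ 2 * 2 ^ e)
    (hb : b + 1 ≤ 2 * 2 ^ e) (u v : MvPolynomial I k) :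
    coeff (ex (2 ^ e) a b) (u * ∑ r : Fin 3 → ZMod 2, al r v) =
      coeff (ex (2 ^ e) a b) ((∑ r : Fin 3 → ZMod 2, al r u) * v) := by
  rw [Finset.mul_sum, Finset.sum_mul, coeff_sum, coeff_sum]
  refine Finset.sum_congr rfl fun r _ => ?_
  have h1 : al r (al r u) = u := by
    rw [al_al]
    have : r + r = 0 := by
      ext j
      exact GG.tw (r j)
    rw [this, al_zero]
  have h2 : u * al r v = al r (al r u * v) := by
    rw [map_mul, h1]
  rw [h2, coeff_al e a b ha hb]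

omit [CharP k 2] in
theorem invb_s0 (M Q : ℕ) (hM : 1 ≤ M) :
    coeff (ex Q (M + 2) (M - 1)) (X (Sum.inl 0) ^ 3 * s0 k M Q) = 1 := by
  have h : X (Sum.inl 0) ^ 3 * s0 k M Q = monomial (ex Q (M + 2) (M - 1)) (1 : k) := by
    rw [s0, monomial_eq, C_1, one_mul, Finsupp.prod_fintype _ _ (fun i => pow_zero _),
      Fintype.prod_sum_type, Fin.prod_univ_two]
    rw [invb_ex0, invb_ex1]
    simp only [invb_exr]
    have h3 : M + 2 = 3 + (M - 1) := by omega
    rw [h3, pow_add]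
    ring
  rw [h, coeff_monomial, if_pos rfl]

end invb_aux

theorem invb {k : Type} [Field k] [CharP k 2] (e M : ℕ) (hM : 1 ≤ M) (hQ : M + 3 ≤ 2 ^ e)
    (a : I → MvPolynomial I k) (ha : ∀ r i, al r (a i) = a i)
    (hs : ∑ r : Fin 3 → ZMod 2, al r (s0 k M (2 ^ e)) = ∑ i, gg k M (2 ^ e) i * a i) :
    False := by
  have h1 : coeff (ex (2 ^ e) (M + 2) (M - 1)) (w k 0 * ∑ r : Fin 3 → ZMod 2,
      al r (s0 k M (2 ^ e))) = 1 := by
    rw [invb_adj e (M + 2) (M - 1) (by omega) (by omega), Tr_w, invb_s0 M _ hM]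
  have h2 : ∀ i : I, coeff (ex (2 ^ e) (M + 2) (M - 1)) (w k 0 * (gg k M (2 ^ e) i * a i)) = 0 := by
    intro i
    rcases i with i | p
    · have hgg : gg k M (2 ^ e) (Sum.inl i) = X (Sum.inl i) ^ M := rfl
      rw [hgg]
      fin_cases i
      · simp only [Fin.zero_eta]
        have e1 : w k 0 * (X (Sum.inl 0) ^ M * a (Sum.inl 0)) =
            X (Sum.inl 0) ^ M * (w k 0 * a (Sum.inl 0)) := by ring
        rw [e1, invb_cX, if_pos (by rw [invb_ex0]; omega), show M + 2 = 2 + M from by ring,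
          invb_sub0]
        have e2 : coeff (ex (2 ^ e) 2 (M - 1)) (w k 0 * a (Sum.inl 0)) =
            coeff (ex (2 ^ e) 2 (M + 2)) (X (Sum.inl 1) ^ 3 * (w k 0 * a (Sum.inl 0))) := by
          rw [invb_cX, if_pos (by rw [invb_ex1]; omega), show M + 2 = (M - 1) + 3 from by omega,
            invb_sub1]
        rw [e2, ← Tr_w, ← invb_adj e 2 (M + 2) (by omega) (by omega)]
        have e3 : ∑ r : Fin 3 → ZMod 2, al r (w k 0 * a (Sum.inl 0)) =
            X (Sum.inl 0) ^ 3 * a (Sum.inl 0) := by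
          rw [mul_comm, Tr_mul _ _ (fun r => ha r _), Tr_w, mul_comm]
        rw [e3, mul_left_comm, invb_cX, if_neg (by rw [invb_ex0]; omega)]
      · simp only [Fin.mk_one]
        rw [mul_left_comm, invb_cX, if_neg (by rw [invb_ex1]; omega)]
    · have hgg : gg k M (2 ^ e) (Sum.inr p) = nn k p ^ (2 ^ e) := rfl
      rw [hgg, nn_pow]
      have e1 : w k 0 * ((X (Sum.inr p) ^ (2 * 2 ^ e) + X (Sum.inl p.1) ^ 2 ^ e *
          X (Sum.inr p) ^ 2 ^ e) * a (Sum.inr p)) =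
          X (Sum.inr p) ^ (2 * 2 ^ e) * (w k 0 * a (Sum.inr p)) +
          X (Sum.inl p.1) ^ 2 ^ e * (X (Sum.inr p) ^ 2 ^ e * (w k 0 * a (Sum.inr p))) := by ring
      rw [e1, coeff_add, invb_cX, if_neg (by rw [invb_exr]; omega), invb_cX, if_neg, add_zero]
      rcases p with ⟨p1, p2⟩
      fin_cases p1
      · simp only [Fin.zero_eta]
        rw [invb_ex0]
        omega
      · simp only [Fin.mk_one]
        rw [invb_ex1]
        omega
  rw [hs, Finset.mul_sum, coeff_sum, Finset.sum_eq_zero fun i _ => h2 i] at h1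
  exact zero_ne_one h1

end VSQR
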