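import Pool.Agent.H41.VS.MU
import Pool.Agent.H41.VS.INVB
import Pool.Agent.H41.VS.DET

/-!
# MAINB: the contradiction in the polynomial ring

Take `M, e, μ` from `mu_exists`, `g = gg k M (2 ^ e)`, `a = μ * m`; `a x = g`.
* `X i ^ (2 * 2 ^ e) ∈ (g)` (`span_gg`), so `a.det ∉ (g)` (`det_gen`); `X l * a.det ∈ (g)` (`cramer_mem`).
* `soc` with `span_gg`, `s0_eq`: `a.det = C c * s0 + q`, `q ∈ (g)`, so `c ≠ 0`.
* `a.det = μ.det * m.det`, `μ.det` is invariant, so `Tr a.det = μ.det * Tr m.det =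
  μ.det * ∑ hb_i u_i`, and `μ.det * hb_i = ∑_j μ.adjugate i j * g_j` with invariant coefficients; so
  `Tr a.det = ∑ g_j b_j`, `b_j` invariant (`Matrix.adjugate` of an invariant matrix is invariant:
  `RingHom.map_adjugate`, `RingHom.map_det`).
* `q = ∑ g_j v_j`, so `Tr q = ∑ g_j Tr v_j` (`Tr_mul`, `al_gg`, `al_Tr`).
* `C c * Tr s0 = Tr a.det - Tr q`; divide by `c`; contradiction with `invb`.
-/

set_option autoImplicit false

namespace VSQR

open Finset MvPolynomial

theorem mainB_det_inv {k : Type} [Field k] [CharP k 2] (μ : Matrix I I (MvPolynomial I k))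
    (hμ : ∀ r i j, al r (μ i j) = μ i j) (r : Fin 3 → ZMod 2) : al r μ.det = μ.det := by
  have h := (al r : MvPolynomial I k →ₐ[k] MvPolynomial I k).map_det μ
  rw [h]
  congr 1
  ext1 i j
  exact hμ r i j

theorem mainB_adj_inv {ι S : Type} [CommRing S] [Fintype ι] [DecidableEq ι] (f : S →+* S)
    (μ : Matrix ι ι S) (hμ : ∀ i j, f (μ i j) = μ i j) (i j : ι) :
    f (μ.adjugate i j) = μ.adjugate i j := by
  have h := f.map_adjugate μ
  have h2 : f.mapMatrix μ = μ := by
    ext1 i j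
    exact hμ i j
  rw [h2] at h
  have h3 : (f.mapMatrix μ.adjugate) i j = μ.adjugate i j := by rw [h]
  rw [RingHom.mapMatrix_apply, Matrix.map_apply] at h3
  exact h3

theorem mainB_alg {ι S : Type} [CommRing S] [Fintype ι] [DecidableEq ι] (μ : Matrix ι ι S)
    (hb g u : ι → S) (hg : ∀ i, g i = ∑ j, μ i j * hb j) :
    μ.det * ∑ i, hb i * u i = ∑ j, g j * ∑ i, μ.adjugate i j * u i := by
  have h2 : ∀ i, μ.det * hb i = ∑ j, μ.adjugate i j * g j := by
    intro i
    have h3 : (μ.adjugate * μ).mulVec hb i = μ.adjugate.mulVec (μ.mulVec hb) i := by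
      rw [Matrix.mulVec_mulVec]
    rw [Matrix.adjugate_mul, Matrix.smul_mulVec, Matrix.one_mulVec] at h3
    have h4 : μ.mulVec hb = g := by
      funext j
      rw [hg j]
      rfl
    rw [h4] at h3
    exact h3
  rw [Finset.mul_sum]
  simp_rw [← mul_assoc, h2, Finset.sum_mul, Finset.mul_sum]
  rw [Finset.sum_comm]
  refine Finset.sum_congr rfl fun j _ => Finset.sum_congr rfl fun l _ => ?_
  ring

theorem mainB_x {ι S : Type} [CommRing S] [Fintype ι] (μ m : Matrix ι ι S)
    (hb g x : ι → S) (hm : ∀ i, hb i = ∑ j, m i j * x j) (hg : ∀ i, g i = ∑ j, μ i j * hb j)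
    (i : ι) : ∑ j, (μ * m) i j * x j = g i := by
  rw [hg i]
  simp_rw [hm, Matrix.mul_apply, Finset.sum_mul, Finset.mul_sum]
  rw [Finset.sum_comm]
  refine Finset.sum_congr rfl fun j _ => Finset.sum_congr rfl fun l _ => ?_
  ring

/-- the descent of a relation along the trace, in an abstract ring with operators -/
theorem mainB_tr {ι R S : Type} [CommRing S] [Fintype ι] [DecidableEq ι] [Fintype R]
    (f : R → S →+* S) (μ m : Matrix ι ι S) (hμ : ∀ r i j, f r (μ i j) = μ i j)
    (hb g u v : ι → S) (hg : ∀ i, g i = ∑ j, μ i j * hb j) (hgi : ∀ r i, f r (g i) = g i)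
    (htr : ∑ r, f r m.det = ∑ i, hb i * u i) (c c' s : S) (hc : c' * c = 1)
    (hci : ∀ r, f r c = c) (hv : ∑ i, v i * g i = (μ * m).det - c * s) :
    ∑ r, f r s = ∑ j, g j * (c' * (∑ i, μ.adjugate i j * u i - ∑ r, f r (v j))) := by
  have hdi : ∀ r, f r μ.det = μ.det := by
    intro r
    rw [(f r).map_det]
    congr 1
    ext1 i j
    exact hμ r i j
  have h1 : ∑ r, f r (μ * m).det = ∑ j, g j * ∑ i, μ.adjugate i j * u i := by
    rw [Matrix.det_mul, ← mainB_alg μ hb g u hg, ← htr, Finset.mul_sum]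
    refine Finset.sum_congr rfl fun r _ => ?_
    rw [map_mul, hdi]
  have h5 : ∑ r, f r (∑ i, v i * g i) = ∑ j, g j * ∑ r, f r (v j) := by
    simp_rw [map_sum]
    rw [Finset.sum_comm]
    refine Finset.sum_congr rfl fun j _ => ?_
    rw [Finset.mul_sum]
    refine Finset.sum_congr rfl fun r _ => ?_
    rw [map_mul, hgi, mul_comm]
  have h6 : ∑ r, f r (∑ i, v i * g i) = ∑ r, f r (μ * m).det - c * ∑ r, f r s := by
    rw [hv, Finset.mul_sum, ← Finset.sum_sub_distrib]
    refine Finset.sum_congr rfl fun r _ => ?_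
    rw [map_sub, map_mul, hci]
  have h7 : c * ∑ r, f r s = ∑ j, g j * (∑ i, μ.adjugate i j * u i - ∑ r, f r (v j)) := by
    simp_rw [mul_sub]
    rw [Finset.sum_sub_distrib, ← h1, ← h5, h6]
    ring
  calc ∑ r, f r s = c' * (c * ∑ r, f r s) := by rw [← mul_assoc, hc, one_mul]
    _ = _ := by
      rw [h7, Finset.mul_sum]
      refine Finset.sum_congr rfl fun j _ => ?_
      rw [mul_left_comm]

theorem mainB_inv {ι R S : Type} [CommRing S] [Fintype ι] [DecidableEq ι] [Fintype R]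
    (f : R → S →+* S) (htt : ∀ r s, f r (∑ r', f r' s) = ∑ r', f r' s) (μ : Matrix ι ι S)
    (hμ : ∀ r i j, f r (μ i j) = μ i j) (u : ι → S) (hu : ∀ r i, f r (u i) = u i) (c' v : S)
    (hc' : ∀ r, f r c' = c') (j : ι) (r : R) :
    f r (c' * (∑ i, μ.adjugate i j * u i - ∑ r, f r v)) =
      c' * (∑ i, μ.adjugate i j * u i - ∑ r, f r v) := by
  rw [map_mul, map_sub, map_sum, htt, hc']
  congr 2
  refine Finset.sum_congr rfl fun i _ => ?_
  rw [map_mul, mainB_adj_inv (f r) μ (hμ r), hu]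

theorem mainB {k : Type} [Field k] [CharP k 2] (hb : I → MvPolynomial I k)
    (hinv : ∀ r i, al r (hb i) = hb i) (m : Matrix I I (MvPolynomial I k))
    (hm : ∀ i, hb i = ∑ j, m i j * X j) (u : I → MvPolynomial I k)
    (hu : ∀ r i, al r (u i) = u i)
    (htr : ∑ r : Fin 3 → ZMod 2, al r m.det = ∑ i, hb i * u i) (N : ℕ) (hN : 0 < N)
    (hX : ∀ i, (X i : MvPolynomial I k) ^ N ∈ Ideal.span (Set.range hb)) : False := by
  obtain ⟨M, e, μ, hM, hMe, hμ, hg⟩ := mu_exists hb hinv N hN hX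
  have hQ : 0 < 2 ^ e := by positivity
  set g := gg k M (2 ^ e) with hgdef
  have hspan := span_gg (k := k) M e (by omega)
  rw [← hgdef] at hspan
  have hax : ∀ i, ∑ j, (μ * m) i j * X j = g i := mainB_x μ m hb g X hm hg
  -- powers of the variables
  have hpow : ∀ i, (X i : MvPolynomial I k) ^ (2 * 2 ^ e) ∈ Ideal.span (Set.range g) := by
    intro i
    rw [hspan]
    have h1 : (X i : MvPolynomial I k) ^ mm M (2 ^ e) i ∈
        Ideal.span (Set.range fun i => (X i : MvPolynomial I k) ^ mm M (2 ^ e) i) :=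
      Ideal.subset_span ⟨i, rfl⟩
    have h2 : mm M (2 ^ e) i ≤ 2 * 2 ^ e := by
      rcases i with i | p
      · change M ≤ _
        omega
      · exact le_refl _
    rw [← Nat.sub_add_cancel h2, pow_add]
    exact Ideal.mul_mem_left _ _ h1
  have hnot : (μ * m).det ∉ Ideal.span (Set.range g) :=
    det_gen (2 * 2 ^ e) (by omega) g hpow (μ * m) hax
  have hcr : ∀ l, X l * (μ * m).det ∈ Ideal.span (Set.range g) := by
    intro l
    rw [mul_comm]
    have h1 := cramer_mem (μ * m) (fun j => (X j : MvPolynomial I k)) l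
    have h2 : (fun i => ∑ l, (μ * m) i l * (X l : MvPolynomial I k)) = g := funext hax
    rw [h2] at h1
    exact h1
  obtain ⟨c, hc⟩ := soc (mm M (2 ^ e)) (by
    rintro (i | p)
    · exact hM
    · change 0 < 2 * 2 ^ e
      omega) (μ * m).det (by
    intro l
    rw [← hspan]
    exact hcr l)
  rw [← hspan, ← s0_eq] at hc
  have hc0 : c ≠ 0 := by
    rintro rfl
    rw [map_zero, zero_mul, sub_zero] at hc
    exact hnot hc
  obtain ⟨v, hv⟩ := (Ideal.mem_span_range_iff_exists_fun).1 hc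
  have hcc : (C c⁻¹ : MvPolynomial I k) * C c = 1 := by
    rw [← C_mul, inv_mul_cancel₀ hc0, C_1]
  have key := mainB_tr (fun r => (al r : MvPolynomial I k →ₐ[k] MvPolynomial I k).toRingHom) μ m
    hμ hb g u v hg (fun r i => al_gg M (2 ^ e) r i) htr (C c) (C c⁻¹) (s0 k M (2 ^ e)) hcc
    (fun r => (al r).commutes c) hv
  exact invb e M hM hMe _ (fun r j => mainB_inv
    (fun r => (al r : MvPolynomial I k →ₐ[k] MvPolynomial I k).toRingHom) (fun r s => al_Tr r s)
    μ hμ u hu (C c⁻¹) (v j) (fun r => (al r).commutes c⁻¹) j r) key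

end VSQR
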