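import Pool.Agent.H41.VS.FINS

/-!
# GRP: the group `GG`, its subgroups `V` and `U`, coordinates, representatives, finiteness

Everything is a finite check with the formulas `mul_t, mul_r, mul_c, inv_c` (`F_2`-arithmetic:
`x + x = 0`).  `VV = {r = 0}`, `UU = {t = 0}`, `gr r = (0, r, 0)`.
`sum_act_mem`: for `x ∈ GG`, `x * gr r = gr (r + x.r) * v` with `v ∈ VV`, so
`act x (∑ act (gr r) b) = ∑ act (gr (r + x.r)) b`.
`finV`: `fin_chain` with `n = 3`, `H i = {x | x.r j = 0 for all j < i}`, `θ i x = x.r i`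
(`H i` for `i ≥ 3` constant).  `finU`: `n = 2`, the same with `t`.
-/

set_option autoImplicit false

namespace VSQR

open Finset

/-- `V = {r = 0}` -/
def VV : Subgroup GG where
  carrier := {x | x.r = 0}
  mul_mem' := by
    intro x y hx hy
    change x.r + y.r = 0
    rw [show x.r = 0 from hx, show y.r = 0 from hy, add_zero]
  one_mem' := rfl
  inv_mem' := fun h => h

/-- `U = {t = 0}` -/
def UU : Subgroup GG where
  carrier := {x | x.t = 0}
  mul_mem' := by
    intro x y hx hy
    change x.t + y.t = 0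
    rw [show x.t = 0 from hx, show y.t = 0 from hy, add_zero]
  one_mem' := rfl
  inv_mem' := fun h => h

instance normalVV : VV.Normal := by
  refine ⟨fun x hx g => ?_⟩
  have hx' : x.r = 0 := hx
  change g.r + x.r + g.r = 0
  rw [hx', add_zero]
  funext i
  exact GG.tw (g.r i)

/-- representatives -/
def gr (r : Fin 3 → ZMod 2) : GG := ⟨0, r, fun _ _ => 0⟩

/-- the coordinates of `V` -/
def thV : I → GG → ZMod 2 :=
  Sum.elim (fun i x => x.t i) (fun p x => x.c p.1 p.2 + x.t p.1 * x.r p.2)

/-- the coordinates of `U` -/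
def thU : I' → GG → ZMod 2 := Sum.elim (fun j x => x.r j) (fun p x => x.c p.1 p.2)

theorem addi_thV (i : I) : Addi VV (thV i) := by
  intro h hh x
  have hr : h.r = 0 := hh
  rcases i with i | p
  · rfl
  · change (h.c p.1 p.2 + x.c p.1 p.2 + h.t p.1 * x.r p.2) + (h.t p.1 + x.t p.1) *
      (h.r p.2 + x.r p.2) = (h.c p.1 p.2 + h.t p.1 * h.r p.2) + (x.c p.1 p.2 + x.t p.1 * x.r p.2)
    have h0 : h.r p.2 = 0 := by rw [hr]; rfl
    rw [h0]
    have h1 := GG.tw (h.t p.1 * x.r p.2)
    linear_combination h1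

theorem addi_thU (i : I') : Addi UU (thU i) := by
  intro h hh x
  have ht : h.t = 0 := hh
  rcases i with j | p
  · rfl
  · change h.c p.1 p.2 + x.c p.1 p.2 + h.t p.1 * x.r p.2 = h.c p.1 p.2 + x.c p.1 p.2
    have h0 : h.t p.1 = 0 := by rw [ht]; rfl
    rw [h0]
    ring

theorem bij_thV : Function.Bijective fun (h : VV) (i : I) => thV i (h : GG) := by
  constructor
  · intro h h' he
    have hr : (h : GG).r = 0 := h.2
    have hr' : (h' : GG).r = 0 := h'.2
    apply Subtype.ext
    have ht : (h : GG).t = (h' : GG).t := by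
      funext i
      exact congrFun he (Sum.inl i)
    apply GG.ext ht (hr.trans hr'.symm)
    funext i j
    have h1 : (h : GG).c i j + (h : GG).t i * (h : GG).r j =
        (h' : GG).c i j + (h' : GG).t i * (h' : GG).r j := congrFun he (Sum.inr (i, j))
    rw [hr, hr'] at h1
    simpa using h1
  · intro f
    refine ⟨⟨⟨fun i => f (Sum.inl i), 0, fun i j => f (Sum.inr (i, j))⟩, rfl⟩, ?_⟩
    funext i
    rcases i with i | p
    · rfl
    · change f (Sum.inr (p.1, p.2)) + f (Sum.inl p.1) * 0 = f (Sum.inr p)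
      rw [mul_zero, add_zero]

theorem bij_thU : Function.Bijective fun (h : UU) (i : I') => thU i (h : GG) := by
  constructor
  · intro h h' he
    have ht : (h : GG).t = 0 := h.2
    have ht' : (h' : GG).t = 0 := h'.2
    apply Subtype.ext
    apply GG.ext (ht.trans ht'.symm)
    · funext j
      exact congrFun he (Sum.inl j)
    · funext i j
      exact congrFun he (Sum.inr (i, j))
  · intro f
    refine ⟨⟨⟨0, fun i => f (Sum.inl i), fun i j => f (Sum.inr (i, j))⟩, rfl⟩, ?_⟩
    funext i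
    rcases i with i | p
    · rfl
    · rfl

theorem thV_inl (r : Fin 3 → ZMod 2) (i : Fin 2) (x : GG) :
    thV (Sum.inl i) ((gr r)⁻¹ * x) = thV (Sum.inl i) x := by
  change (0 : ZMod 2) + x.t i = x.t i
  rw [zero_add]

theorem thV_inr (r : Fin 3 → ZMod 2) (p : Fin 2 × Fin 3) (x : GG) :
    thV (Sum.inr p) ((gr r)⁻¹ * x) = thV (Sum.inr p) x + r p.2 * thV (Sum.inl p.1) x := by
  change ((0 : ZMod 2) + 0 * r p.2 + x.c p.1 p.2 + 0 * x.r p.2) + (0 + x.t p.1) *
    (r p.2 + x.r p.2) = (x.c p.1 p.2 + x.t p.1 * x.r p.2) + r p.2 * x.t p.1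
  ring

theorem gr_inj : Function.Injective gr := fun _ _ h => congrArg GG.r h

variable {k : Type} [CommRing k] [CharP k 2]

theorem sum_act_mem (b : Coch GG k) (hb : b ∈ Inv k VV) :
    ∑ g ∈ univ.map ⟨gr, gr_inj⟩, act g b ∈ Inv k (⊤ : Subgroup GG) := by
  intro h _
  rw [Finset.sum_map, map_sum]
  have key : ∀ r : Fin 3 → ZMod 2, act h (act (gr r) b) = act (gr (r + h.r)) b := by
    intro r
    rw [← act_mul]
    have hv : (gr (r + h.r))⁻¹ * (h * gr r) ∈ VV := by
      change (r + h.r) + (h.r + r) = 0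
      funext i
      have h1 := GG.tw (r i)
      have h2 := GG.tw (h.r i)
      change (r i + h.r i) + (h.r i + r i) = 0
      linear_combination h1 + h2
    have h3 : h * gr r = gr (r + h.r) * ((gr (r + h.r))⁻¹ * (h * gr r)) := by group
    rw [h3, act_mul, hb _ hv]
  change ∑ r : Fin 3 → ZMod 2, act h (act (gr r) b) = ∑ r : Fin 3 → ZMod 2, act (gr r) b
  rw [Finset.sum_congr rfl fun r _ => key r]
  exact Fintype.sum_equiv (Equiv.addRight h.r) _ _ fun r => rfl

omit [CharP k 2] in
/-- the subgroup of the elements whose first `i` coordinates `r` vanish -/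
def grpHr (i : ℕ) : Subgroup GG where
  carrier := {x | ∀ j : Fin 3, (j : ℕ) < i → x.r j = 0}
  mul_mem' := by
    intro x y hx hy j hj
    change x.r j + y.r j = 0
    rw [hx j hj, hy j hj, add_zero]
  one_mem' := fun _ _ => rfl
  inv_mem' := fun h => h

/-- the subgroup of the elements whose first `i` coordinates `t` vanish -/
def grpHt (i : ℕ) : Subgroup GG where
  carrier := {x | ∀ j : Fin 2, (j : ℕ) < i → x.t j = 0}
  mul_mem' := by
    intro x y hx hy j hj
    change x.t j + y.t j = 0
    rw [hx j hj, hy j hj, add_zero]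
  one_mem' := fun _ _ => rfl
  inv_mem' := fun h => h

theorem grp_fin_aux {G : Type} [Group G] {A B A' B' : Subgroup G} (hA : A = A') (hB : B = B')
    (h : B ≤ A) (h' : B' ≤ A') (hf : (resC h : Coh k A →+* Coh k B).Finite) :
    (resC h' : Coh k A' →+* Coh k B').Finite := by
  subst hA hB
  exact hf

theorem grp_noeth_aux {G : Type} [Group G] {A A' : Subgroup G} (hA : A' = A)
    (hN : IsNoetherianRing (Coh k A)) : IsNoetherianRing (Coh k A') := by
  subst hA
  exact hN

theorem finV (hN : IsNoetherianRing (Coh k (⊤ : Subgroup GG))) :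
    (resC (le_top : VV ≤ ⊤) : Coh k (⊤ : Subgroup GG) →+* Coh k VV).Finite := by
  have e0 : grpHr 0 = ⊤ := by
    ext x
    simp only [Subgroup.mem_top, iff_true]
    exact fun j hj => absurd hj (Nat.not_lt_zero _)
  have e3 : grpHr 3 = VV := by
    ext x
    constructor
    · intro hx
      change x.r = 0
      funext j
      exact hx j j.2
    · intro hx j _
      have : x.r = 0 := hx
      rw [this]
      rfl
  have hle : ∀ i, grpHr (i + 1) ≤ grpHr i := fun i x hx j hj => hx j (by omega)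
  have h30 : grpHr 3 ≤ grpHr 0 := by rw [e0]; exact le_top
  refine grp_fin_aux e0 e3 h30 le_top ?_
  refine fin_chain 3 grpHr hle (fun i x => if h : i < 3 then x.r ⟨i, h⟩ else 0) ?_ ?_ ?_
    (grp_noeth_aux e0 hN) h30
  · intro i hi h _ x
    simp only [dif_pos hi]
    rfl
  · intro i hi h hh
    simp only [dif_pos hi]
    constructor
    · intro h1
      exact h1 ⟨i, hi⟩ (Nat.lt_succ_self i)
    · intro h1 j hj
      rcases Nat.lt_succ_iff_lt_or_eq.mp hj with h2 | h2
      · exact hh j h2
      · have : j = ⟨i, hi⟩ := Fin.ext h2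
        rw [this]
        exact h1
  · intro i hi
    refine ⟨gr (Pi.single ⟨i, hi⟩ 1), ?_, ?_⟩
    · intro j hj
      change (Pi.single (⟨i, hi⟩ : Fin 3) (1 : ZMod 2) : Fin 3 → ZMod 2) j = 0
      apply Pi.single_eq_of_ne
      intro h
      rw [h] at hj
      exact lt_irrefl _ hj
    · simp only [dif_pos hi]
      change (Pi.single (⟨i, hi⟩ : Fin 3) (1 : ZMod 2) : Fin 3 → ZMod 2) ⟨i, hi⟩ = 1
      exact Pi.single_eq_same _ _

theorem finU (hN : IsNoetherianRing (Coh k (⊤ : Subgroup GG))) :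
    (resC (le_top : UU ≤ ⊤) : Coh k (⊤ : Subgroup GG) →+* Coh k UU).Finite := by
  have e0 : grpHt 0 = ⊤ := by
    ext x
    simp only [Subgroup.mem_top, iff_true]
    exact fun j hj => absurd hj (Nat.not_lt_zero _)
  have e3 : grpHt 2 = UU := by
    ext x
    constructor
    · intro hx
      change x.t = 0
      funext j
      exact hx j j.2
    · intro hx j _
      have : x.t = 0 := hx
      rw [this]
      rfl
  have hle : ∀ i, grpHt (i + 1) ≤ grpHt i := fun i x hx j hj => hx j (by omega)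
  have h30 : grpHt 2 ≤ grpHt 0 := by rw [e0]; exact le_top
  refine grp_fin_aux e0 e3 h30 le_top ?_
  refine fin_chain 2 grpHt hle (fun i x => if h : i < 2 then x.t ⟨i, h⟩ else 0) ?_ ?_ ?_
    (grp_noeth_aux e0 hN) h30
  · intro i hi h _ x
    simp only [dif_pos hi]
    rfl
  · intro i hi h hh
    simp only [dif_pos hi]
    constructor
    · intro h1
      exact h1 ⟨i, hi⟩ (Nat.lt_succ_self i)
    · intro h1 j hj
      rcases Nat.lt_succ_iff_lt_or_eq.mp hj with h2 | h2
      · exact hh j h2
      · have : j = ⟨i, hi⟩ := Fin.ext h2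
        rw [this]
        exact h1
  · intro i hi
    refine ⟨⟨Pi.single ⟨i, hi⟩ 1, 0, fun _ _ => 0⟩, ?_, ?_⟩
    · intro j hj
      change (Pi.single (⟨i, hi⟩ : Fin 2) (1 : ZMod 2) : Fin 2 → ZMod 2) j = 0
      apply Pi.single_eq_of_ne
      intro h
      rw [h] at hj
      exact lt_irrefl _ hj
    · simp only [dif_pos hi]
      change (Pi.single (⟨i, hi⟩ : Fin 2) (1 : ZMod 2) : Fin 2 → ZMod 2) ⟨i, hi⟩ = 1
      exact Pi.single_eq_same _ _

/-- the elements of `GG` as triples -/
def grpEquiv : GG ≃ (Fin 2 → ZMod 2) × (Fin 3 → ZMod 2) × (Fin 2 → Fin 3 → ZMod 2) where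
  toFun x := (x.t, x.r, x.c)
  invFun y := ⟨y.1, y.2.1, y.2.2⟩
  left_inv _ := rfl
  right_inv _ := rfl

instance finiteGG : Finite GG := Finite.of_equiv _ grpEquiv.symm

theorem card_GG : Nat.card GG = 2 ^ 11 := by
  rw [Nat.card_congr grpEquiv, Nat.card_eq_fintype_card]
  simp [Fintype.card_prod, Fintype.card_fun, ZMod.card]

end VSQR
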