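import Pool.Agent.H41.VS.POLYI
import Pool.Agent.H41.VS.GRP

/-!
# PACK: the package of facts on `H^*(GG, k)`

`polyV`, `polyU` = `AlgEquiv.ofBijective` of `poly_bij`.  `rho = polyV.symm ∘ resA`,
`tau s = trC T (polyV s)` with `T = univ.map ⟨gr, gr_inj⟩` (`sum_act_mem`),
`rho' = polyU.symm ∘ resA`.  Degrees: `poly_deg`, `Hgr_resC`, `Hgr_trC`, `Hgr_chi`.  `proj`: `trC_res_mul`.
`rho_tau`: `res_trC` and `conj_polyV`.  `al_rho`: `conjC_resC` and `conj_polyV`.  `fin`, `fin'`:
`finV`, `finU`.  `zero`: `Hgr_zero`.
`conj_polyV`: both sides are ring homomorphisms in `F`; check on constants and variables, where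
`act (gr r) (th k θ) = th k (fun x => θ ((gr r)⁻¹ * x))` (`act_th`), `thV_inl`, `thV_inr`.
-/

set_option autoImplicit false

namespace VSQR

open MvPolynomial

variable (k : Type) [Field k] [CharP k 2]

noncomputable def polyV : MvPolynomial I k ≃ₐ[k] Coh k VV :=
  AlgEquiv.ofBijective (aeval fun i => chi k VV (thV i) (addi_thV i))
    (poly_bij I VV thV addi_thV bij_thV)

noncomputable def polyU : MvPolynomial I' k ≃ₐ[k] Coh k UU :=
  AlgEquiv.ofBijective (aeval fun i => chi k UU (thU i) (addi_thU i))
    (poly_bij I' UU thU addi_thU bij_thU)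

theorem pack_polyV_X (i : I) : polyV k (X i) = chi k VV (thV i) (addi_thV i) := by
  change aeval (fun i => chi k VV (thV i) (addi_thV i)) (X i) = _
  rw [aeval_X]

theorem conj_polyV (r : Fin 3 → ZMod 2) (F : MvPolynomial I k) :
    conjC VV (gr r) (polyV k F) = polyV k (al r F) := by
  have h1 : ((conjC VV (gr r)).comp ((polyV k : MvPolynomial I k →ₐ[k] Coh k VV) :
      MvPolynomial I k →+* Coh k VV)) =
      (((polyV k : MvPolynomial I k →ₐ[k] Coh k VV).comp (al r) :
        MvPolynomial I k →ₐ[k] Coh k VV) : MvPolynomial I k →+* Coh k VV) := by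
    apply MvPolynomial.ringHom_ext
    · intro c
      have h2 : polyV k (C c) = resC (le_top : VV ≤ ⊤) (algebraMap k (Coh k (⊤ : Subgroup GG)) c) := by
        have h3 : polyV k (C c) = algebraMap k (Coh k VV) c := (polyV k).commutes c
        rw [h3]
        exact ((resA k (le_top : VV ≤ ⊤)).commutes c).symm
      have h4 : al r (C c : MvPolynomial I k) = C c := (al r).commutes c
      change conjC VV (gr r) (polyV k (C c)) = polyV k (al r (C c))
      rw [h4, h2]
      exact conjC_resC _ _ (Subgroup.mem_top _) _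
    · intro i
      change conjC VV (gr r) (polyV k (X i)) = polyV k (al r (X i))
      rw [pack_polyV_X]
      rcases i with i | p
      · have h4 : al r (X (Sum.inl i) : MvPolynomial I k) = X (Sum.inl i) := by
          rw [al, aeval_X, Sum.elim_inl]
        rw [h4, pack_polyV_X]
        have h5 : act (gr r) (d (th k (thV (Sum.inl i)))) = d (th k (thV (Sum.inl i))) := by
          rw [act_d, act_th]
          congr 2
          funext x
          exact thV_inl r i x
        have hz : act (gr r) (d (th k (thV (Sum.inl i)))) ∈ Zc k VV := by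
          rw [h5]
          exact d_th_mem (addi_thV _)
        have h6 := conjC_cls VV (gr r) ⟨d (th k (thV (Sum.inl i))), d_th_mem (addi_thV _)⟩ hz
        rw [chi, h6]
        congr 1
        exact Subtype.ext h5
      · have h4 : al r (X (Sum.inr p) : MvPolynomial I k) =
            X (Sum.inr p) + C (cz k (r p.2)) * X (Sum.inl p.1) := by
          rw [al, aeval_X, Sum.elim_inr]
        have h5 : act (gr r) (d (th k (thV (Sum.inr p)))) =
            d (th k (thV (Sum.inr p))) + cz k (r p.2) • d (th k (thV (Sum.inl p.1))) := by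
          rw [act_d, act_th, ← map_smul, ← map_add]
          congr 1
          rw [th, th, th, ← zc_smul, ← zc_add]
          congr 1
          funext x
          rw [thV_inr, map_add, map_mul]
        have hz : act (gr r) (d (th k (thV (Sum.inr p)))) ∈ Zc k VV := by
          rw [h5]
          exact add_mem (d_th_mem (addi_thV _)) ((Zc k VV).smul_mem (d_th_mem (addi_thV _)) _)
        have h6 := conjC_cls VV (gr r) ⟨d (th k (thV (Sum.inr p))), d_th_mem (addi_thV _)⟩ hz
        have h7 : C (cz k (r p.2)) * X (Sum.inl p.1) =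
            (cz k (r p.2)) • (X (Sum.inl p.1) : MvPolynomial I k) := by
          rw [C_mul']
        rw [h4, h7, map_add, map_smul, pack_polyV_X, pack_polyV_X, chi, h6]
        have h8 : (cz k (r p.2)) • chi k VV (thV (Sum.inl p.1)) (addi_thV (Sum.inl p.1)) =
            cls k VV ((cz k (r p.2)) • ⟨d (th k (thV (Sum.inl p.1))), d_th_mem (addi_thV _)⟩) := rfl
        rw [h8, ← map_add]
        congr 1
        exact Subtype.ext h5
  exact congrArg (fun f : MvPolynomial I k →+* Coh k VV => f F) h1

theorem pack : Nonempty (Pack k (Coh k (⊤ : Subgroup GG)) (Hgr k (⊤ : Subgroup GG))) := by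
  classical
  have hT := fun (b : Coch GG k) (hb : b ∈ Inv k VV) => sum_act_mem b hb
  have hinjV : Function.Injective (aeval (fun i => chi k VV (thV i) (addi_thV i)) :
      MvPolynomial I k →ₐ[k] Coh k VV) := (poly_bij I VV thV addi_thV bij_thV).1
  have hV : ∀ (n : ℕ) (F : MvPolynomial I k), F.IsHomogeneous n ↔ polyV k F ∈ Hgr k VV n :=
    fun n F => poly_deg (Hgr k VV) (fun i => chi k VV (thV i) (addi_thV i))
      (fun i => Hgr_chi k VV (thV i) (addi_thV i)) hinjV n F
  refine ⟨{
    rho := ((polyV k).symm : Coh k VV →ₐ[k] MvPolynomial I k).comp (resA k (le_top : VV ≤ ⊤))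
    tau := (trC (Finset.univ.map ⟨gr, gr_inj⟩) hT).comp (polyV k : MvPolynomial I k →+ Coh k VV)
    rho' := ((polyU k).symm : Coh k UU →ₐ[k] MvPolynomial I' k).comp (resA k (le_top : UU ≤ ⊤))
    rho_deg := ?_
    tau_deg := ?_
    proj := ?_
    rho_tau := ?_
    al_rho := ?_
    fin := ?_
    fin' := ?_
    zero := fun a ha => Hgr_zero k _ a ha }⟩
  · intro n a ha
    rw [hV]
    change polyV k ((polyV k).symm (resC (le_top : VV ≤ ⊤) a)) ∈ _
    rw [AlgEquiv.apply_symm_apply]
    exact Hgr_resC _ ha
  · intro n s hs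
    exact Hgr_trC _ hT ((hV n s).1 hs)
  · intro a s
    change trC _ hT (polyV k ((polyV k).symm (resC (le_top : VV ≤ ⊤) a) * s)) =
      a * trC _ hT (polyV k s)
    rw [map_mul, AlgEquiv.apply_symm_apply]
    exact trC_res_mul _ _ (fun g _ => Subgroup.mem_top g) hT a _
  · intro s
    change (polyV k).symm (resC (le_top : VV ≤ ⊤) (trC _ hT (polyV k s))) = _
    rw [res_trC, Finset.sum_map, map_sum]
    refine Finset.sum_congr rfl fun r _ => ?_
    change (polyV k).symm (conjC VV (gr r) (polyV k s)) = _
    rw [conj_polyV, AlgEquiv.symm_apply_apply]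
  · intro r a
    apply (polyV k).injective
    rw [← conj_polyV]
    change conjC VV (gr r) (polyV k ((polyV k).symm (resC (le_top : VV ≤ ⊤) a))) =
      polyV k ((polyV k).symm (resC (le_top : VV ≤ ⊤) a))
    rw [AlgEquiv.apply_symm_apply]
    exact conjC_resC _ _ (Subgroup.mem_top _) _
  · intro hN
    exact RingHom.Finite.comp (RingHom.Finite.of_surjective _ (polyV k).symm.surjective)
      (finV hN)
  · intro hN
    exact RingHom.Finite.comp (RingHom.Finite.of_surjective _ (polyU k).symm.surjective)
      (finU hN)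

end VSQR
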