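import Pool.Agent.H41.VS.Defs

/-!
# PARB: powers of the variables are in the ideal generated by the parameters

`X i` is integral over `A`: `X i ^ n + ∑_{j=1}^{n} f (a_j) * X i ^ (n - j) = 0`; the homogeneous component
of degree `n` of this equation is `X i ^ n + ∑_{j=1}^n f ((a_j)_j) * X i ^ (n - j) = 0` with
`(a_j)_j ∈ 𝒜 j`, `j ≥ 1`, in the irrelevant ideal `A_+`.  So `X i ^ n ∈ A_+.map f`, and
`X i ^ (n * N) ∈ (A_+.map f) ^ N = (A_+ ^ N).map f ≤ (ker f ⊔ J).map f = J.map f`.  Take a common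
positive exponent for the finitely many `i`.
-/

set_option autoImplicit false

namespace VSQR

open Finset MvPolynomial

theorem parb_term {k A σ : Type} [Field k] [CommRing A] [Algebra k A]
    (𝒜 : ℕ → Submodule k A) [GradedAlgebra 𝒜] (f : A →ₐ[k] MvPolynomial σ k)
    (hdeg : ∀ n, ∀ a ∈ 𝒜 n, (f a).IsHomogeneous n) (a : A) (i : σ) {m n : ℕ} (h : m < n) :
    homogeneousComponent n (f a * X i ^ m) ∈
      (HomogeneousIdeal.irrelevant 𝒜).toIdeal.map f := by
  classical
  rw [← DirectSum.sum_support_decompose 𝒜 a, map_sum, Finset.sum_mul, map_sum]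
  refine Ideal.sum_mem _ fun j _ => ?_
  have hj : f (DirectSum.decompose 𝒜 a j : A) * X i ^ m ∈ homogeneousSubmodule σ k (j + m) := by
    have h1 : (X i ^ m : MvPolynomial σ k).IsHomogeneous m := by
      simpa using (isHomogeneous_X k i).pow m
    exact (hdeg j _ (SetLike.coe_mem _)).mul h1
  rw [homogeneousComponent_of_mem hj]
  split_ifs with hh
  · apply Ideal.mul_mem_right
    apply Ideal.mem_map_of_mem
    exact HomogeneousIdeal.mem_irrelevant_of_mem 𝒜 (by omega) (SetLike.coe_mem _)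
  · exact zero_mem _

theorem parb_pow {k A σ : Type} [Field k] [CommRing A] [Algebra k A]
    (𝒜 : ℕ → Submodule k A) [GradedAlgebra 𝒜] (f : A →ₐ[k] MvPolynomial σ k)
    (hf : f.toRingHom.Finite) (hdeg : ∀ n, ∀ a ∈ 𝒜 n, (f a).IsHomogeneous n) (i : σ) :
    ∃ n : ℕ, (X i : MvPolynomial σ k) ^ n ∈ (HomogeneousIdeal.irrelevant 𝒜).toIdeal.map f := by
  obtain ⟨p, hp, hp0⟩ := hf.to_isIntegral (X i)
  refine ⟨p.natDegree, ?_⟩
  rw [Polynomial.eval₂_eq_sum_range, Finset.sum_range_succ] at hp0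
  have h1 := congrArg (homogeneousComponent p.natDegree) hp0
  rw [map_add, map_zero, map_sum] at h1
  have h2 : homogeneousComponent p.natDegree
      (f.toRingHom (p.coeff p.natDegree) * (X i : MvPolynomial σ k) ^ p.natDegree) =
      X i ^ p.natDegree := by
    rw [hp.coeff_natDegree, map_one, one_mul]
    have h3 : (X i ^ p.natDegree : MvPolynomial σ k) ∈ homogeneousSubmodule σ k p.natDegree := by
      have h4 := (isHomogeneous_X k i).pow p.natDegree
      simpa using h4
    rw [homogeneousComponent_of_mem h3, if_pos rfl]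
  rw [h2] at h1
  have h5 : (X i : MvPolynomial σ k) ^ p.natDegree = -∑ m ∈ range p.natDegree,
      homogeneousComponent p.natDegree (f.toRingHom (p.coeff m) * X i ^ m) := by
    linear_combination h1
  rw [h5]
  apply neg_mem
  refine Ideal.sum_mem _ fun m hm => ?_
  exact parb_term 𝒜 f hdeg (p.coeff m) i (Finset.mem_range.1 hm)

theorem parb {k A σ : Type} [Field k] [CommRing A] [Algebra k A] [Finite σ]
    (𝒜 : ℕ → Submodule k A) [GradedAlgebra 𝒜] (f : A →ₐ[k] MvPolynomial σ k)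
    (hf : f.toRingHom.Finite) (hdeg : ∀ n, ∀ a ∈ 𝒜 n, (f a).IsHomogeneous n) (J : Ideal A)
    (N : ℕ) (hN : (HomogeneousIdeal.irrelevant 𝒜).toIdeal ^ N ≤ RingHom.ker f ⊔ J) :
    ∃ N' : ℕ, 0 < N' ∧ ∀ i : σ, (X i : MvPolynomial σ k) ^ N' ∈ J.map f := by
  classical
  have := Fintype.ofFinite σ
  choose n hn using fun i => parb_pow 𝒜 f hf hdeg i
  have hle : (RingHom.ker f ⊔ J).map f ≤ J.map f := by
    rw [Ideal.map_le_iff_le_comap, sup_le_iff]
    constructor
    · intro x hx
      rw [Ideal.mem_comap, (RingHom.mem_ker).1 hx]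
      exact zero_mem _
    · exact Ideal.le_comap_map
  have h1 : ∀ i, (X i : MvPolynomial σ k) ^ (n i * N) ∈ J.map f := by
    intro i
    rw [pow_mul]
    have h2 := Ideal.pow_mem_pow (hn i) N
    rw [← Ideal.map_pow] at h2
    exact hle (Ideal.map_mono hN h2)
  refine ⟨∑ i, n i * N + 1, Nat.succ_pos _, fun i => ?_⟩
  have h3 : n i * N ≤ ∑ i, n i * N + 1 :=
    (Finset.single_le_sum (f := fun i => n i * N) (fun _ _ => Nat.zero_le _)
      (Finset.mem_univ i)).trans (Nat.le_succ _)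
  rw [← Nat.sub_add_cancel h3, pow_add]
  exact Ideal.mul_mem_left _ _ (h1 i)

end VSQR
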