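import Pool.Agent.H41.VS.NOETH
import Pool.Agent.H41.VS.IRR
import Pool.Agent.H41.VS.PARB
import Pool.Agent.H41.VS.MAINA
import Pool.Agent.H41.VS.MAINB
import Pool.Agent.H41.VS.PACK

/-!
# FIN: the final assembly
-/

set_option autoImplicit false

namespace VSQR

open Finset MvPolynomial

theorem algmain {k A : Type} [Field k] [CharP k 2] [CommRing A] [Algebra k A]
    (𝒜 : ℕ → Submodule k A) [GradedAlgebra 𝒜] (P : Pack k A 𝒜) (r : ℕ) (h : ℕ → A)
    (e : ℕ → ℕ) : ¬ IsVSQR k 𝒜 r h e := by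
  rintro ⟨⟨hdim, hpos, hfin⟩, -, -, -, htype⟩
  have hN : IsNoetherianRing A := noeth 𝒜 r h e hpos hfin
  have hr : 9 ≤ r := by
    have h1 := dimr P.rho'.toRingHom (P.fin' hN).to_isIntegral r hdim
    have h2 : Fintype.card I' = 9 := by
      simp [I']
    omega
  have hty : ∀ i < 9, ∀ n, ∀ a ∈ 𝒜 n, h i * a ∈ sp h i → a ∉ sp h i →
      n + (i + 1) ≤ ∑ j ∈ range i, e j := by
    intro i hi n a ha h1 h2
    have h3 := htype i (by omega) n a ha
    rw [if_pos (by omega)] at h3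
    have h4 := h3 h1 h2
    simp only [if_pos (show i < r by omega)] at h4
    have h5 : ((∑ j ∈ range i, e j : ℕ) : ℤ) = ∑ j ∈ range i, (e j : ℤ) := by
      push_cast
      rfl
    rw [← h5] at h4
    omega
  have hB : ∀ i < 8, ∀ n, ∀ a ∈ 𝒜 n, h i * a ∈ sp h i → a ∉ sp h i →
      n < ∑ j ∈ range 8, e j := by
    intro i hi n a ha h1 h2
    have h3 := hty i (by omega) n a ha h1 h2
    have h4 : ∑ j ∈ range i, e j ≤ ∑ j ∈ range 8, e j :=
      Finset.sum_le_sum_of_subset (Finset.range_subset_range.2 hi.le)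
    omega
  obtain ⟨N, hNle⟩ := irr 𝒜 P h e (fun i hi => hpos i (by omega)) _ hB
  obtain ⟨N', hN', hX⟩ := parb 𝒜 P.rho (P.fin hN) P.rho_deg (sp h 8) N hNle
  have hcard : Fintype.card I = Fintype.card (Fin 8) := by simp [I]
  let eI : I ≃ Fin 8 := Fintype.equivOfCardEq hcard
  obtain ⟨m, u, hm, hu, htr⟩ := mainA 𝒜 P eI h e (fun i hi => hpos i (by omega))
    (fun n a ha h1 h2 => by have := hty 8 (by omega) n a ha h1 h2; omega)
  refine mainB (fun i => P.rho (h (eI i))) (fun r i => P.al_rho r _) m hm u hu htr N' hN' ?_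
  intro i
  have h1 := hX i
  refine (Ideal.map_le_iff_le_comap.2 ?_ : (sp h 8).map P.rho ≤ _) h1
  refine Ideal.span_le.2 ?_
  rintro x ⟨j, hj, rfl⟩
  refine Ideal.subset_span ⟨eI.symm ⟨j, hj⟩, ?_⟩
  simp

end VSQR
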