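import Pool.Agent.H41.VS.GYS

/-!
# FINS: finiteness of restriction

`fin_step`: by `gysin`, `tr : Coh k H' → Coh k H` is `Coh k H`-linear for the module structure of
`Coh k H'` given by `resC hle` (first property), with kernel the image of `resC hle`, which is
generated by `1`; its image is an ideal of the Noetherian ring `Coh k H`, so finitely generated.
So `Coh k H'` is a finite module (`Submodule.fg_of_fg_map_of_fg_inf_ker` or
`Module.Finite.of_submodule_quotient`, or by hand: if `tr s_1, …, tr s_n` generate the image then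
`1, s_1, …, s_n` generate).
`fin_chain`: induction on `n`; if `R` is Noetherian and `R → S` is finite then `S` is Noetherian
(`isNoetherian_of_isNoetherianRing_of_finite`, `isNoetherian_of_tower`); composites of finite
maps are finite (`RingHom.Finite.comp`), and `resC` is transitive.
-/

set_option autoImplicit false

namespace VSQR

variable {G : Type} [Group G] {k : Type} [CommRing k] [CharP k 2]

theorem fins_trans {H1 H2 H3 : Subgroup G} (h32 : H3 ≤ H2) (h21 : H2 ≤ H1) (h31 : H3 ≤ H1) :
    (resC h31 : Coh k H1 →+* Coh k H3) = (resC h32).comp (resC h21) := by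
  apply RingHom.ext
  intro a
  obtain ⟨z, rfl⟩ := cls_surj H1 a
  rfl

theorem fins_noeth {A B : Type*} [CommRing A] [CommRing B] (f : A →+* B) (hf : f.Finite)
    (hA : IsNoetherianRing A) : IsNoetherianRing B := by
  let _ := f.toAlgebra
  have : Module.Finite A B := hf
  have : IsNoetherian A B := isNoetherian_of_isNoetherianRing_of_finite A B
  exact isNoetherian_of_tower A inferInstance

theorem fin_step {H H' : Subgroup G} (hle : H' ≤ H) (θ : G → ZMod 2) (hθ : Addi H θ)
    (hH' : ∀ h ∈ H, h ∈ H' ↔ θ h = 0) (hg : ∃ g ∈ H, θ g = 1)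
    (hN : IsNoetherianRing (Coh k H)) : (resC hle : Coh k H →+* Coh k H').Finite := by
  obtain ⟨tr, h1, h2, h3, -, -⟩ := gysin (k := k) hle θ hθ hH' hg
  let _ := (resC hle : Coh k H →+* Coh k H').toAlgebra
  let f : Coh k H' →ₗ[Coh k H] Coh k H :=
    { toFun := tr
      map_add' := map_add tr
      map_smul' := fun a s => h1 a s }
  change Module.Finite (Coh k H) (Coh k H')
  refine ⟨Submodule.fg_of_fg_map_of_fg_inf_ker f (IsNoetherian.noetherian _) ?_⟩
  have hk : (⊤ : Submodule (Coh k H) (Coh k H')) ⊓ f.ker = Submodule.span (Coh k H) {1} := by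
    rw [top_inf_eq]
    apply le_antisymm
    · intro s hs
      obtain ⟨a, rfl⟩ := h3 s hs
      rw [Submodule.mem_span_singleton]
      exact ⟨a, mul_one _⟩
    · rw [Submodule.span_le, Set.singleton_subset_iff]
      change tr 1 = 0
      have := h2 1
      rwa [map_one] at this
  rw [hk]
  exact ⟨{1}, by simp⟩

theorem fin_chain (n : ℕ) (H : ℕ → Subgroup G) (hle : ∀ i, H (i + 1) ≤ H i)
    (θ : ℕ → G → ZMod 2) (hθ : ∀ i < n, Addi (H i) (θ i))
    (hH : ∀ i < n, ∀ h ∈ H i, h ∈ H (i + 1) ↔ θ i h = 0) (hg : ∀ i < n, ∃ g ∈ H i, θ i g = 1)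
    (hN : IsNoetherianRing (Coh k (H 0))) (h0 : H n ≤ H 0) :
    (resC h0 : Coh k (H 0) →+* Coh k (H n)).Finite := by
  induction n with
  | zero =>
    apply RingHom.Finite.of_surjective
    intro a
    obtain ⟨z, rfl⟩ := cls_surj (H 0) a
    exact ⟨cls k (H 0) z, rfl⟩
  | succ n ih =>
    have hanti : ∀ m, H m ≤ H 0 := by
      intro m
      induction m with
      | zero => exact le_rfl
      | succ m ihm => exact (hle m).trans ihm
    have ih' := ih (fun i hi => hθ i (by omega)) (fun i hi => hH i (by omega))
      (fun i hi => hg i (by omega)) (hanti n)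
    have hNn : IsNoetherianRing (Coh k (H n)) := fins_noeth _ ih' hN
    have hs := fin_step (hle n) (θ n) (hθ n (by omega)) (hH n (by omega)) (hg n (by omega)) hNn
    rw [fins_trans (hle n) (hanti n) h0]
    exact hs.comp ih'

end VSQR
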