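import Pool.Agent.H41.VS.Chi

/-!
# GRADA: the cohomology ring is the internal direct sum of its graded pieces

Proof.  For a function `f` on lists let `pr n f` be the function `l ↦ if l.length = n + 1 then f l
else 0`.  It maps `Coch G k` into itself, commutes with `act g`, and
`del (pr n f) = pr (n + 1) (del f)`, `pr 0 (del f) = 0` if `f [] = 0` (look at
`del f l = ∑ i < l.length, (-1) ^ i * f (l.eraseIdx i)`).  An element of `Coch G k` vanishes on
long lists, so it is a finite sum of its `pr n f`; if it is a cocycle then all `pr n f` are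
cocycles: so the `Hgr k H n` span.  The operators `pr n` induce operators of the cohomology, which
are the identity on `Hgr k H n` and zero on the other pieces: this gives the independence.
-/

set_option autoImplicit false

namespace VSQR

variable {G : Type} [Group G] (k : Type) [CommRing k] [CharP k 2] (H : Subgroup G)

/-- the component of degree `n` of a function on lists -/
def GRADA_raw {X k : Type} [CommRing k] (n : ℕ) (f : List X → k) : List X → k :=
  fun l => if l.length = n + 1 then f l else 0

theorem GRADA_raw_mem {X k : Type} [CommRing k] (n : ℕ) (f : Coch X k) :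
    GRADA_raw n (f : List X → k) ∈ Coch X k := by
  refine ⟨by simp [GRADA_raw], n + 2, fun l hl => ?_⟩
  unfold GRADA_raw
  rw [if_neg (by omega)]

/-- the component of degree `n` of a cochain -/
def GRADA_pr {X k : Type} [CommRing k] (n : ℕ) : Coch X k →ₗ[k] Coch X k where
  toFun f := ⟨GRADA_raw n (f : List X → k), GRADA_raw_mem n f⟩
  map_add' f g := by
    apply Subtype.ext
    funext l
    change GRADA_raw n ((f : List X → k) + (g : List X → k)) l =
      GRADA_raw n (f : List X → k) l + GRADA_raw n (g : List X → k) l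
    unfold GRADA_raw
    split_ifs with h
    · rfl
    · rw [add_zero]
  map_smul' c f := by
    apply Subtype.ext
    funext l
    change GRADA_raw n (c • (f : List X → k)) l = c * GRADA_raw n (f : List X → k) l
    unfold GRADA_raw
    split_ifs with h
    · rfl
    · rw [mul_zero]

theorem GRADA_coe_pr {X k : Type} [CommRing k] (n : ℕ) (f : Coch X k) (l : List X) :
    ((GRADA_pr n f : Coch X k) : List X → k) l =
      if l.length = n + 1 then (f : List X → k) l else 0 := rfl

theorem GRADA_act_pr {k : Type} [CommRing k] (n : ℕ) (g : G) (f : Coch G k) :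
    act g (GRADA_pr n f) = GRADA_pr n (act g f) := by
  apply Subtype.ext
  funext l
  rw [coe_act, GRADA_coe_pr, GRADA_coe_pr, coe_act, List.length_map]

theorem GRADA_d_pr {X k : Type} [CommRing k] (n : ℕ) (f : Coch X k) :
    d (GRADA_pr n f) = GRADA_pr (n + 1) (d f) := by
  apply Subtype.ext
  funext l
  rw [coe_d, GRADA_coe_pr, coe_d]
  unfold del
  split_ifs with h
  · refine Finset.sum_congr rfl fun i hi => ?_
    rw [Finset.mem_range] at hi
    rw [GRADA_coe_pr, if_pos (by rw [List.length_eraseIdx_of_lt hi]; omega)]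
  · refine Finset.sum_eq_zero fun i hi => ?_
    rw [Finset.mem_range] at hi
    rw [GRADA_coe_pr, if_neg (by rw [List.length_eraseIdx_of_lt hi]; omega), mul_zero]

theorem GRADA_pr_zero_d {X k : Type} [CommRing k] (f : Coch X k) :
    GRADA_pr 0 (d f) = 0 := by
  apply Subtype.ext
  funext l
  rw [GRADA_coe_pr, coe_d]
  split_ifs with h
  · match l, h with
    | [x], _ =>
      unfold del
      simp [f.2.1]
  · rfl

theorem GRADA_pr_inv {k : Type} [CommRing k] (H : Subgroup G) (n : ℕ) (f : Coch G k)
    (hf : f ∈ Inv k H) : GRADA_pr n f ∈ Inv k H := by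
  intro h hh
  rw [GRADA_act_pr, hf h hh]

theorem GRADA_pr_zc (n : ℕ) (f : Coch G k) (hf : f ∈ Zc k H) : GRADA_pr n f ∈ Zc k H := by
  refine ⟨GRADA_pr_inv H n f hf.1, ?_⟩
  rw [GRADA_d_pr, hf.2, map_zero]

theorem GRADA_pr_d {k : Type} [CommRing k] (H : Subgroup G) (n : ℕ) (b : Coch G k)
    (hb : b ∈ Inv k H) : ∃ c ∈ Inv k H, d c = GRADA_pr n (d b) := by
  cases n with
  | zero => exact ⟨0, zero_mem _, by rw [GRADA_pr_zero_d, map_zero]⟩
  | succ n => exact ⟨GRADA_pr n b, GRADA_pr_inv H n b hb, GRADA_d_pr n b⟩

/-- the component of degree `n` of a cohomology class -/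
def GRADA_P (n : ℕ) : Coh k H →+ Coh k H :=
  QuotientAddGroup.lift (Bc k H).toAddSubgroup
    { toFun := fun z => cls k H ⟨GRADA_pr n (z : Coch G k), GRADA_pr_zc k H n _ z.2⟩
      map_zero' := by
        rw [cls_eq_zero]
        refine ⟨0, zero_mem _, ?_⟩
        rw [map_zero]
        symm
        exact map_zero (GRADA_pr n)
      map_add' := by
        intro z z'
        rw [← map_add]
        congr 1
        apply Subtype.ext
        exact map_add (GRADA_pr n) _ _ }
    (by
      rintro z ⟨b, hb, hz⟩
      change cls k H _ = 0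
      rw [cls_eq_zero]
      obtain ⟨c, hc, hc'⟩ := GRADA_pr_d H n b hb
      refine ⟨c, hc, ?_⟩
      rw [hc', hz])

theorem GRADA_P_cls (n : ℕ) (z : Zc k H) :
    GRADA_P k H n (cls k H z) = cls k H ⟨GRADA_pr n (z : Coch G k), GRADA_pr_zc k H n _ z.2⟩ :=
  rfl

theorem GRADA_P_self (n : ℕ) (a : Coh k H) (ha : a ∈ Hgr k H n) : GRADA_P k H n a = a := by
  obtain ⟨z, hz, rfl⟩ := ha
  rw [GRADA_P_cls]
  congr 1
  apply Subtype.ext
  apply Subtype.ext
  funext l
  change ((GRADA_pr n (z : Coch G k) : Coch G k) : List G → k) l = _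
  rw [GRADA_coe_pr]
  split_ifs with h
  · rfl
  · exact (hz l h).symm

theorem GRADA_P_ne (n m : ℕ) (hnm : m ≠ n) (a : Coh k H) (ha : a ∈ Hgr k H m) :
    GRADA_P k H n a = 0 := by
  obtain ⟨z, hz, rfl⟩ := ha
  rw [GRADA_P_cls]
  have : (⟨GRADA_pr n (z : Coch G k), GRADA_pr_zc k H n _ z.2⟩ : Zc k H) = 0 := by
    apply Subtype.ext
    apply Subtype.ext
    funext l
    change ((GRADA_pr n (z : Coch G k) : Coch G k) : List G → k) l = 0
    rw [GRADA_coe_pr]
    split_ifs with h
    · exact hz l (by omega)
    · rfl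
  rw [this, map_zero]

theorem GRADA_sum_pr {X k : Type} [CommRing k] (f : Coch X k) :
    ∃ N : ℕ, f = ∑ n ∈ Finset.range N, GRADA_pr n f := by
  obtain ⟨N, hN⟩ := f.2.2
  refine ⟨N, ?_⟩
  apply Subtype.ext
  funext l
  have h1 : ((∑ n ∈ Finset.range N, GRADA_pr n f : Coch X k) : List X → k) l =
      ∑ n ∈ Finset.range N, ((GRADA_pr n f : Coch X k) : List X → k) l := by
    rw [AddSubmonoidClass.coe_finsetSum, Finset.sum_apply]
  rw [h1]
  simp only [GRADA_coe_pr]
  rcases Nat.eq_zero_or_pos l.length with h0 | h0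
  · have : l = [] := List.length_eq_zero_iff.mp h0
    subst this
    rw [f.2.1]
    symm
    refine Finset.sum_eq_zero fun n _ => ?_
    rw [if_neg (by simp)]
  · by_cases hl : N ≤ l.length
    · rw [hN l hl]
      simp
    · rw [Finset.sum_eq_single (l.length - 1)]
      · rw [if_pos (by omega)]
      · intro m _ hm
        rw [if_neg (by omega)]
      · intro h
        exact absurd (Finset.mem_range.mpr (by omega)) h

theorem Hgr_internal : DirectSum.IsInternal (Hgr k H) := by
  constructor
  · rw [injective_iff_map_eq_zero]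
    intro x hx
    have key : ∀ (i : ℕ) (y : DirectSum ℕ fun n => Hgr k H n),
        GRADA_P k H i (DirectSum.coeAddMonoidHom (Hgr k H) y) = (y i : Coh k H) := by
      intro i y
      induction y using DirectSum.induction_on with
      | zero =>
        rw [map_zero, map_zero]
        rfl
      | of j y =>
        rw [DirectSum.coeAddMonoidHom_of]
        by_cases hij : j = i
        · subst hij
          rw [GRADA_P_self k H j _ y.2, DirectSum.of_eq_same]
        · rw [GRADA_P_ne k H i j hij _ y.2, DirectSum.of_eq_of_ne _ _ _ (Ne.symm hij)]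
          rfl
      | add y z hy hz =>
        rw [map_add, map_add, hy, hz]
        rfl
    ext i
    rw [← key i x, hx, map_zero]
    rfl
  · intro a
    obtain ⟨z, rfl⟩ := cls_surj H a
    obtain ⟨N, hN⟩ := GRADA_sum_pr (z : Coch G k)
    refine ⟨∑ n ∈ Finset.range N, DirectSum.of (fun n => Hgr k H n) n
      ⟨cls k H ⟨GRADA_pr n (z : Coch G k), GRADA_pr_zc k H n _ z.2⟩,
        ⟨⟨GRADA_pr n (z : Coch G k), GRADA_pr_zc k H n _ z.2⟩, fun l hl => if_neg hl, rfl⟩⟩, ?_⟩
    rw [map_sum]
    simp only [DirectSum.coeAddMonoidHom_of]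
    rw [← map_sum]
    congr 1
    apply Subtype.ext
    rw [AddSubmonoidClass.coe_finsetSum]
    exact hN.symm

end VSQR
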