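import Pool.Agent.H41.VS.GRADA

/-!
# GRADB: the graded algebra structure, and the degrees of the standard maps

`Hgr_mul`: the cup product of functions supported on lists of length `m + 1` resp. `n + 1` is
supported on lists of length `m + n + 1` (`cup f g l = ∑ i < l.length, f (l.take (i+1)) * g (l.drop i)`).
`Hgr_zero`: a cocycle `z` of degree `0` satisfies `0 = d z [x, y] = z [y] - z [x]`, so
`z = z [1] • 1`.
-/

set_option autoImplicit false

namespace VSQR

variable {G : Type} [Group G] (k : Type) [CommRing k] [CharP k 2] (H : Subgroup G)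

theorem Hgr_one : (1 : Coh k H) ∈ Hgr k H 0 := by
  refine ⟨1, fun l hl => ?_, map_one _⟩
  change uno (k := k) l = 0
  unfold uno
  rw [if_neg]
  omega

theorem Hgr_mul {m n : ℕ} {a b : Coh k H} (ha : a ∈ Hgr k H m) (hb : b ∈ Hgr k H n) :
    a * b ∈ Hgr k H (m + n) := by
  obtain ⟨z, hz, rfl⟩ := ha
  obtain ⟨z', hz', rfl⟩ := hb
  refine ⟨z * z', fun l hl => ?_, map_mul _ _ _⟩
  change cup ((z : Coch G k) : List G → k) ((z' : Coch G k) : List G → k) l = 0
  unfold cup
  refine Finset.sum_eq_zero fun i hi => ?_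
  rw [Finset.mem_range] at hi
  by_cases h : i = m
  · rw [hz' _ (by rw [List.length_drop]; omega), mul_zero]
  · rw [hz _ (by rw [List.length_take]; omega), zero_mul]

noncomputable instance instGradedAlgebraHgr : GradedAlgebra (Hgr k H) :=
  { (Hgr_internal k H).chooseDecomposition with
    one_mem := Hgr_one k H
    mul_mem := fun _ _ _ _ ha hb => Hgr_mul k H ha hb }

theorem Hgr_zero (a : Coh k H) (ha : a ∈ Hgr k H 0) : ∃ c : k, a = algebraMap k (Coh k H) c := by
  obtain ⟨z, hz, rfl⟩ := ha
  refine ⟨((z : Coch G k) : List G → k) [1], ?_⟩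
  have h0 : z = (((z : Coch G k) : List G → k) [1]) • (1 : Zc k H) := by
    apply Subtype.ext
    apply Subtype.ext
    funext l
    change ((z : Coch G k) : List G → k) l = ((z : Coch G k) : List G → k) [1] * uno l
    by_cases hl : l.length = 1
    · obtain ⟨x, rfl⟩ := List.length_eq_one_iff.1 hl
      have h1 : ((d (z : Coch G k) : Coch G k) : List G → k) [1, x] = 0 := by
        rw [z.2.2]
        rfl
      rw [coe_d] at h1
      simp only [del, List.length_cons, List.length_nil, Finset.sum_range_succ,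
        Finset.sum_range_zero, zero_add, pow_zero, one_mul, pow_one, List.eraseIdx_cons_zero,
        List.eraseIdx_cons_succ] at h1
      have h2 : ((z : Coch G k) : List G → k) [x] = ((z : Coch G k) : List G → k) [1] := by
        linear_combination h1
      rw [h2]
      simp [uno]
    · rw [hz l hl]
      unfold uno
      rw [if_neg hl, mul_zero]
  have h3 : cls k H z = cls k H ((((z : Coch G k) : List G → k) [1]) • (1 : Zc k H)) :=
    congrArg (cls k H) h0
  rw [h3, Algebra.algebraMap_eq_smul_one]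
  rfl

theorem Hgr_chi (θ : G → ZMod 2) (h : Addi H θ) : chi k H θ h ∈ Hgr k H 1 := by
  refine ⟨⟨d (th k θ), d_th_mem h⟩, fun l hl => ?_, rfl⟩
  change del ((th k θ : Coch G k) : List G → k) l = 0
  unfold del
  refine Finset.sum_eq_zero fun i hi => ?_
  rw [Finset.mem_range] at hi
  have h1 : ∀ m : List G, m.length ≠ 1 → ((th k θ : Coch G k) : List G → k) m = 0 := by
    intro m hm
    match m with
    | [] => rfl
    | [x] => exact absurd rfl hm
    | _ :: _ :: _ => rfl
  rw [h1 _ (by rw [List.length_eraseIdx_of_lt hi]; omega), mul_zero]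

variable {k H}

theorem Hgr_resC {H' : Subgroup G} (hle : H' ≤ H) {n : ℕ} {a : Coh k H} (ha : a ∈ Hgr k H n) :
    resC hle a ∈ Hgr k H' n := by
  obtain ⟨z, hz, rfl⟩ := ha
  exact ⟨⟨z, Zc_mono hle z.2⟩, hz, rfl⟩

theorem Hgr_trC {H' : Subgroup G} (T : Finset G)
    (hT : ∀ b ∈ Inv k H, ∑ g ∈ T, act g b ∈ Inv k H') {n : ℕ} {s : Coh k H}
    (hs : s ∈ Hgr k H n) : trC T hT s ∈ Hgr k H' n := by
  obtain ⟨z, hz, rfl⟩ := hs
  have hz' : ∑ g ∈ T, act g (z : Coch G k) ∈ Zc k H' := by
    refine ⟨hT _ z.2.1, ?_⟩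
    rw [map_sum]
    refine Finset.sum_eq_zero fun g _ => ?_
    rw [← act_d, z.2.2, map_zero]
  refine ⟨⟨∑ g ∈ T, act g (z : Coch G k), hz'⟩, fun l hl => ?_, (trC_cls T hT z hz').symm⟩
  change ((∑ g ∈ T, act g (z : Coch G k) : Coch G k) : List G → k) l = 0
  rw [AddSubmonoidClass.coe_finsetSum, Finset.sum_apply]
  refine Finset.sum_eq_zero fun g _ => ?_
  rw [coe_act]
  exact hz _ (by rwa [List.length_map])

end VSQR
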