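import Pool.Agent.H41.VS.Chi

/-!
# GYS: the Gysin sequence of a subgroup `H' = ker θ` of index two in `H`

Take `T = {1, g}`, `g ∈ H`, `θ g = 1` (`act_th_of_mem`: `act g (th θ) = th θ + 1`,
`act h (th θ) = th θ` for `h ∈ H'`; `g⁻¹` and `g` differ by an element of `H'`, and so do
`g * g` and `1`, `H'` is normalised by `H`).  `tr b = b + act g b`; every element of `H` is in
`H'` or in `g H'`, so `tr` maps `Inv k H'` into `Inv k H` (module `Coh`: `trC`, `trC_cls`,
`trC_res_mul`).  Write `t = th k θ`.  Since `k` has characteristic two: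
1. `f ∈ Zc k H'`, `tr f = d b` with `b ∈ Inv k H`: then `f' = f + d (t * b)` satisfies
   `act g f' = f'`, so `f' ∈ Zc k H` and `f - f' = d (t * b)` with `t * b ∈ Inv k H'`.
2. `f ∈ Zc k H`, `d t * f = d b` with `b ∈ Inv k H`: then `s = t * f + b` is in `Zc k H'` and
   `tr s = t * f + (t + 1) * f + b + b = f`.
3. `f ∈ Zc k H`, `f = d b` with `b ∈ Inv k H'`: then `tr b ∈ Zc k H`,
   `b' = b + t * tr b ∈ Inv k H` and `d b' = f + d t * tr b`.
4. `tr (resC a) = a * tr 1 = a * (1 + 1) = 0`.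
-/

set_option autoImplicit false

namespace VSQR

variable {G : Type} [Group G] {k : Type} [CommRing k] [CharP k 2]

theorem gys_zmod_two (a : ZMod 2) : a = 0 ∨ a = 1 := by
  revert a
  decide

/-- elements of `H'` act trivially on invariants of `H'` and the rest acts as `g`. -/
theorem gys_act {H H' : Subgroup G} (θ : G → ZMod 2) (hθ : Addi H θ)
    (hH' : ∀ h ∈ H, h ∈ H' ↔ θ h = 0) {g : G} (hg : g ∈ H) (hg1 : θ g = 1)
    {b : Coch G k} (hb : b ∈ Inv k H') {x : G} (hx : x ∈ H) :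
    (θ x = 0 ∧ act x b = b) ∨ (θ x = 1 ∧ act x b = act g b) := by
  rcases gys_zmod_two (θ x) with h | h
  · exact Or.inl ⟨h, hb x ((hH' x hx).2 h)⟩
  · refine Or.inr ⟨h, ?_⟩
    have h1 : x = g * (g⁻¹ * x) := by group
    rw [h1, act_mul]
    congr 1
    refine hb _ ?_
    rw [hH' _ (H.mul_mem (H.inv_mem hg) hx), hθ _ (H.inv_mem hg), hθ.inv hg, hg1, h]
    rfl

theorem gys_inv {H H' : Subgroup G} (hle : H' ≤ H) (θ : G → ZMod 2) (hθ : Addi H θ)
    (hH' : ∀ h ∈ H, h ∈ H' ↔ θ h = 0) {g : G} (hg : g ∈ H) (hg1 : θ g = 1)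
    {b : Coch G k} (hb : b ∈ Inv k H') (hgb : act g b = b) : b ∈ Inv k H := by
  intro x hx
  rcases gys_act θ hθ hH' hg hg1 hb hx with h | h
  · exact h.2
  · rw [h.2, hgb]

theorem gys_tr {H H' : Subgroup G} (hle : H' ≤ H) (θ : G → ZMod 2) (hθ : Addi H θ)
    (hH' : ∀ h ∈ H, h ∈ H' ↔ θ h = 0) {g : G} (hg : g ∈ H) (hg1 : θ g = 1)
    {b : Coch G k} (hb : b ∈ Inv k H') : b + act g b ∈ Inv k H := by
  intro x hx
  rw [map_add, ← act_mul]
  have hxg : x * g ∈ H := H.mul_mem hx hg
  have h3 : θ (x * g) = θ x + 1 := by rw [hθ x hx, hg1]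
  rcases gys_act θ hθ hH' hg hg1 hb hx with h | h
  · rcases gys_act θ hθ hH' hg hg1 hb hxg with h' | h'
    · exfalso
      rw [h3, h.1] at h'
      exact absurd h'.1 (by decide)
    · rw [h.2, h'.2]
  · rcases gys_act θ hθ hH' hg hg1 hb hxg with h' | h'
    · rw [h.2, h'.2, add_comm]
    · exfalso
      rw [h3, h.1] at h'
      exact absurd h'.1 (by decide)

theorem gys_act_t {H : Subgroup G} (θ : G → ZMod 2) (hθ : Addi H θ) {g : G} (hg : g ∈ H)
    (hg1 : θ g = 1) : act g (th k θ) = th k θ + 1 := by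
  rw [act_th_of_mem hθ hg, hg1, map_one, one_smul]

theorem gys_act_t0 {H H' : Subgroup G} (hle : H' ≤ H) (θ : G → ZMod 2) (hθ : Addi H θ)
    (hH' : ∀ h ∈ H, h ∈ H' ↔ θ h = 0) : th k θ ∈ Inv k H' := by
  intro x hx
  rw [act_th_of_mem hθ (hle hx), (hH' x (hle hx)).1 hx, map_zero, zero_smul, add_zero]

theorem gysin {H H' : Subgroup G} (hle : H' ≤ H) (θ : G → ZMod 2) (hθ : Addi H θ)
    (hH' : ∀ h ∈ H, h ∈ H' ↔ θ h = 0) (hg : ∃ g ∈ H, θ g = 1) :
    ∃ tr : Coh k H' →+ Coh k H,
      (∀ a s, tr (resC hle a * s) = a * tr s) ∧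
      (∀ a, tr (resC hle a) = 0) ∧
      (∀ s, tr s = 0 → ∃ a, s = resC hle a) ∧
      (∀ a, chi k H θ hθ * a = 0 → ∃ s, a = tr s) ∧
      (∀ a, resC hle a = 0 → ∃ b, a = chi k H θ hθ * b) := by
  classical
  obtain ⟨g, hg, hg1⟩ := hg
  have hne : (1 : G) ≠ g := by
    intro h
    rw [← h, hθ.one] at hg1
    exact absurd hg1 (by decide)
  have hsum : ∀ b : Coch G k, ∑ x ∈ ({1, g} : Finset G), act x b = b + act g b := by
    intro b
    rw [Finset.sum_pair hne, act_one]
  have hT : ∀ b ∈ Inv k H', ∑ x ∈ ({1, g} : Finset G), act x b ∈ Inv k H := by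
    intro b hb
    rw [hsum]
    exact gys_tr hle θ hθ hH' hg hg1 hb
  have hTH : ∀ x ∈ ({1, g} : Finset G), x ∈ H := by
    intro x hx
    rw [Finset.mem_insert, Finset.mem_singleton] at hx
    rcases hx with rfl | rfl
    · exact H.one_mem
    · exact hg
  have hcls : ∀ (z : Zc k H') (hz : (z : Coch G k) + act g (z : Coch G k) ∈ Zc k H),
      trC ({1, g} : Finset G) hT (cls k H' z) = cls k H ⟨(z : Coch G k) + act g (z : Coch G k), hz⟩ := by
    intro z hz
    have hz' : ∑ x ∈ ({1, g} : Finset G), act x (z : Coch G k) ∈ Zc k H := by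
      rw [hsum]
      exact hz
    rw [trC_cls _ hT z hz']
    congr 1
    exact Subtype.ext (hsum _)
  have hmem : ∀ (z : Zc k H'), (z : Coch G k) + act g (z : Coch G k) ∈ Zc k H := by
    intro z
    refine ⟨gys_tr hle θ hθ hH' hg hg1 z.2.1, ?_⟩
    rw [map_add, ← act_d, z.2.2, map_zero, add_zero]
  have ht0 : th k θ ∈ Inv k H' := gys_act_t0 hle θ hθ hH'
  have htg : act g (th k θ) = th k θ + 1 := gys_act_t θ hθ hg hg1
  refine ⟨trC ({1, g} : Finset G) hT, trC_res_mul hle _ hTH hT, ?_, ?_, ?_, ?_⟩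
  · intro a
    obtain ⟨z, rfl⟩ := cls_surj H a
    rw [resC_cls, hcls _ (hmem _), cls_eq_zero]
    refine ⟨0, zero_mem _, ?_⟩
    change d 0 = (z : Coch G k) + act g (z : Coch G k)
    rw [z.2.1 g hg, add_self_zero, map_zero]
  · intro s hs
    obtain ⟨z, rfl⟩ := cls_surj H' s
    rw [hcls _ (hmem _), cls_eq_zero] at hs
    obtain ⟨b, hb, hdb⟩ := hs
    change d b = (z : Coch G k) + act g (z : Coch G k) at hdb
    have hb' : b ∈ Inv k H' := Inv_mono hle hb
    have hf1 : (z : Coch G k) + d (th k θ * b) ∈ Inv k H' := by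
      refine add_mem z.2.1 ?_
      intro x hx
      rw [act_d, mul_mem ht0 hb' x hx]
    have hf2 : act g ((z : Coch G k) + d (th k θ * b)) = (z : Coch G k) + d (th k θ * b) := by
      rw [map_add, act_d, map_mul, htg, hb g hg, add_mul, one_mul, map_add, hdb]
      have h1 := add_self_zero (act g (z : Coch G k))
      calc act g (z : Coch G k) + (d (th k θ * b) + ((z : Coch G k) + act g (z : Coch G k)))
          = (act g (z : Coch G k) + act g (z : Coch G k)) + ((z : Coch G k) + d (th k θ * b)) := by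
            abel
        _ = (z : Coch G k) + d (th k θ * b) := by rw [h1, zero_add]
    have hf3 : (z : Coch G k) + d (th k θ * b) ∈ Zc k H := by
      refine ⟨gys_inv hle θ hθ hH' hg hg1 hf1 hf2, ?_⟩
      rw [map_add, d_d, z.2.2, add_zero]
    refine ⟨cls k H ⟨_, hf3⟩, ?_⟩
    rw [resC_cls, ← sub_eq_zero, ← map_sub, cls_eq_zero]
    refine ⟨-(th k θ * b), neg_mem (mul_mem ht0 hb'), ?_⟩
    change d (-(th k θ * b)) = (z : Coch G k) - ((z : Coch G k) + d (th k θ * b))
    rw [map_neg]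
    abel
  · intro a ha
    obtain ⟨f, rfl⟩ := cls_surj H a
    rw [chi, ← map_mul, cls_eq_zero] at ha
    obtain ⟨b, hb, hdb⟩ := ha
    change d b = d (th k θ) * (f : Coch G k) at hdb
    have hs : th k θ * (f : Coch G k) + b ∈ Zc k H' := by
      refine ⟨add_mem (mul_mem ht0 (Inv_mono hle f.2.1)) (Inv_mono hle hb), ?_⟩
      rw [map_add, d_mul, f.2.2, mul_zero, add_zero, hdb, add_self_zero]
    refine ⟨cls k H' ⟨_, hs⟩, ?_⟩
    rw [hcls _ (hmem _)]
    congr 1
    apply Subtype.ext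
    change (f : Coch G k) = (th k θ * (f : Coch G k) + b) + act g (th k θ * (f : Coch G k) + b)
    rw [map_add, map_mul, htg, f.2.1 g hg, hb g hg, add_mul, one_mul]
    have h1 := add_self_zero (th k θ * (f : Coch G k))
    have h2 := add_self_zero b
    calc (f : Coch G k) = (th k θ * (f : Coch G k) + th k θ * (f : Coch G k)) + (b + b) + f := by
          rw [h1, h2, zero_add, zero_add]
      _ = _ := by abel
  · intro a ha
    obtain ⟨f, rfl⟩ := cls_surj H a
    rw [resC_cls, cls_eq_zero] at ha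
    obtain ⟨b, hb, hdb⟩ := ha
    change d b = (f : Coch G k) at hdb
    have htr : b + act g b ∈ Zc k H := by
      refine ⟨gys_tr hle θ hθ hH' hg hg1 hb, ?_⟩
      rw [map_add, ← act_d, hdb, f.2.1 g hg, add_self_zero]
    have hb1 : b + th k θ * (b + act g b) ∈ Inv k H' :=
      add_mem hb (mul_mem ht0 (Inv_mono hle htr.1))
    have hb2 : act g (b + th k θ * (b + act g b)) = b + th k θ * (b + act g b) := by
      have h0 : act g (b + act g b) = b + act g b := htr.1 g hg
      have h1 : act g (b + th k θ * (b + act g b)) =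
          act g b + (th k θ + 1) * act g (b + act g b) := by
        rw [map_add, map_mul, htg]
      rw [h1, h0, add_mul, one_mul]
      have h2 := add_self_zero (act g b)
      calc act g b + (th k θ * (b + act g b) + (b + act g b))
          = (act g b + act g b) + (b + th k θ * (b + act g b)) := by abel
        _ = _ := by rw [h2, zero_add]
    refine ⟨cls k H ⟨_, htr⟩, ?_⟩
    rw [chi, ← map_mul, ← sub_eq_zero, ← map_sub, cls_eq_zero]
    refine ⟨b + th k θ * (b + act g b), gys_inv hle θ hθ hH' hg hg1 hb1 hb2, ?_⟩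
    change d (b + th k θ * (b + act g b)) = (f : Coch G k) - d (th k θ) * (b + act g b)
    have hx := add_self_zero (d (th k θ) * (b + act g b))
    rw [map_add, d_mul, htr.2, mul_zero, add_zero, hdb, sub_eq_add_neg,
      ← eq_neg_of_add_eq_zero_left hx]

end VSQR
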