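import Pool.Agent.H41.VS.ALB

/-!
# INVA: the invariant coefficient functionals

`al r` is a composition of elementary substitutions `y_p ↦ y_p + c t_i`; for each of them the
coefficient at an exponent `E` with `E y_p = 2Q-1`, `E t_i ≤ 2Q-1` is invariant, because the binomial
coefficient `choose (2Q-1+d) (2Q-1)` is even for `1 ≤ d ≤ 2Q-1`, `Q = 2^e`.
-/

set_option autoImplicit false

namespace VSQR

open Finset MvPolynomial

/-- the exponent `(a, b)` at `t_1, t_2` and `2 Q - 1` at all `y_p` -/
noncomputable def ex (Q a b : ℕ) : I →₀ ℕ :=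
  Finsupp.equivFunOnFinite.symm (Sum.elim ![a, b] fun _ => 2 * Q - 1)

private theorem choose_even (e n k : ℕ) (hk : k = 2 * 2 ^ e - 1) (hkn : k < n)
    (hn : n - k ≤ 2 * 2 ^ e - 1) : 2 ∣ n.choose k := by
  obtain ⟨d, rfl⟩ := Nat.exists_eq_add_of_lt hkn
  have hpos : 0 < 2 ^ e := by positivity
  have h1 : (k + d + 1).choose k = (k + d + 1).choose (d + 1) := by
    rw [← Nat.choose_symm (n := k + d + 1) (k := k) (by omega)]
    congr 1
    omega
  rw [h1]
  have h2 := Nat.choose_succ_right_eq (k + d + 1) d
  have h3 : k + d + 1 - d = 2 ^ (e + 1) := by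
    rw [pow_succ]; omega
  rw [h3] at h2
  by_contra hodd
  have hcop : Nat.Coprime (2 ^ (e + 1)) ((k + d + 1).choose (d + 1)) := by
    apply Nat.Coprime.pow_left
    rwa [Nat.Prime.coprime_iff_not_dvd Nat.prime_two]
  have h4 : 2 ^ (e + 1) ∣ (k + d + 1).choose (d + 1) * (d + 1) := by
    rw [h2]
    exact Dvd.intro_left _ rfl
  have h5 : 2 ^ (e + 1) ∣ d + 1 := hcop.dvd_of_dvd_mul_left h4
  have h6 := Nat.le_of_dvd (by omega) h5
  rw [pow_succ] at h6
  omega

/-- elementary substitution `X p ↦ X p + c X q` -/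
private noncomputable def phi {k σ : Type} [CommRing k] [DecidableEq σ] (p q : σ) (c : k) :
    MvPolynomial σ k →ₐ[k] MvPolynomial σ k :=
  aeval (Function.update X p (X p + C c * X q))

private theorem phi_mono {k σ : Type} [CommRing k] [DecidableEq σ] (p q : σ) (c : k)
    (u : σ →₀ ℕ) (hu : u p = 0) : phi p q c (monomial u (1 : k)) = monomial u 1 := by
  rw [phi, aeval_monomial, map_one, one_mul, monomial_eq, C_1, one_mul]
  apply Finsupp.prod_congr
  intro x hx
  have : x ≠ p := by
    rintro rfl
    exact (Finsupp.mem_support_iff.1 hx) hu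
  rw [Function.update_of_ne this]

private theorem coeff_phi_mono {k σ : Type} [CommRing k] [CharP k 2] [DecidableEq σ] (p q : σ)
    (hpq : p ≠ q) (c : k) (e : ℕ) (E : σ →₀ ℕ) (hp : E p = 2 * 2 ^ e - 1)
    (hq : E q ≤ 2 * 2 ^ e - 1) (u : σ →₀ ℕ) :
    coeff E (phi p q c (monomial u 1)) = coeff E (monomial u (1 : k)) := by
  have hu : monomial u (1 : k) = monomial (u.erase p) 1 * X p ^ (u p) := by
    rw [X_pow_eq_monomial, monomial_mul, one_mul, Finsupp.erase_add_single]
  have h1 : phi p q c (monomial u 1) = ∑ m ∈ range (u p + 1),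
      monomial (u.erase p + Finsupp.single p m + Finsupp.single q (u p - m))
        (c ^ (u p - m) * ((u p).choose m : k)) := by
    rw [hu, map_mul, phi_mono p q c _ (by simp), map_pow]
    have : phi p q c (X p) = X p + C c * X q := by simp [phi]
    rw [this, add_pow, Finset.mul_sum]
    apply Finset.sum_congr rfl
    intro m _
    rw [mul_pow, ← C_pow, X_pow_eq_monomial, X_pow_eq_monomial, ← map_natCast (C : k →+* _)]
    simp only [C_apply, monomial_mul, zero_add, add_zero, one_mul, mul_one]
    congr 1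
    rw [add_assoc]
  rw [h1, coeff_sum, Finset.sum_range_succ, Finset.sum_eq_zero, zero_add]
  · simp only [Nat.sub_self, pow_zero, Nat.choose_self, Nat.cast_one, mul_one,
      Finsupp.single_zero, add_zero, Finsupp.erase_add_single]
  · intro m hm
    rw [Finset.mem_range] at hm
    rw [coeff_monomial]
    split_ifs with h
    · have hmp : m = 2 * 2 ^ e - 1 := by
        rw [← hp, ← h]
        simp [hpq.symm]
      have hmq : u p - m ≤ 2 * 2 ^ e - 1 := by
        refine le_trans ?_ hq
        rw [← h]
        simp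
      have h2 := choose_even e (u p) m hmp hm hmq
      rw [(CharP.cast_eq_zero_iff k 2 _).2 h2, mul_zero]
    · rfl

private theorem coeff_phi {k σ : Type} [CommRing k] [CharP k 2] [DecidableEq σ] (p q : σ)
    (hpq : p ≠ q) (c : k) (e : ℕ) (E : σ →₀ ℕ) (hp : E p = 2 * 2 ^ e - 1)
    (hq : E q ≤ 2 * 2 ^ e - 1) (f : MvPolynomial σ k) :
    coeff E (phi p q c f) = coeff E f := by
  have h : (lcoeff k E).comp (phi p q c).toLinearMap = lcoeff k E := by
    apply (basisMonomials σ k).ext
    intro u
    simpa [coe_basisMonomials] using coeff_phi_mono p q hpq c e E hp hq u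
  exact LinearMap.congr_fun h f

open scoped Classical in
/-- partial automorphism -/
private noncomputable def alS {k : Type} [CommRing k] [CharP k 2] (r : Fin 3 → ZMod 2)
    (S : Finset (Fin 2 × Fin 3)) : MvPolynomial I k →ₐ[k] MvPolynomial I k :=
  aeval (Sum.elim (fun i => X (Sum.inl i))
    (fun p => X (Sum.inr p) + if p ∈ S then C (cz k (r p.2)) * X (Sum.inl p.1) else 0))

private theorem alS_univ {k : Type} [CommRing k] [CharP k 2] (r : Fin 3 → ZMod 2) :
    alS (k := k) r univ = al r := by
  simp [alS, al]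

private theorem alS_empty {k : Type} [CommRing k] [CharP k 2] (r : Fin 3 → ZMod 2) :
    alS (k := k) r ∅ = AlgHom.id k _ := by
  apply MvPolynomial.algHom_ext
  intro i
  rcases i with i | p <;> simp [alS]

private theorem alS_insert {k : Type} [CommRing k] [CharP k 2] (r : Fin 3 → ZMod 2)
    (S : Finset (Fin 2 × Fin 3)) (p : Fin 2 × Fin 3) (hp : p ∉ S) :
    alS (k := k) r (insert p S) =
      (alS r S).comp (phi (Sum.inr p) (Sum.inl p.1) (cz k (r p.2))) := by
  apply MvPolynomial.algHom_ext
  intro i
  rcases i with i | p'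
  · simp [alS, phi]
  · by_cases h : p' = p
    · subst h
      simp [alS, phi, hp]
    · simp [alS, phi, h]

theorem coeff_al {k : Type} [CommRing k] [CharP k 2] (e a b : ℕ) (ha : a + 1 ≤ 2 * 2 ^ e)
    (hb : b + 1 ≤ 2 * 2 ^ e) (r : Fin 3 → ZMod 2) (f : MvPolynomial I k) :
    coeff (ex (2 ^ e) a b) (al r f) = coeff (ex (2 ^ e) a b) f := by
  classical
  have key : ∀ (S : Finset (Fin 2 × Fin 3)) (f : MvPolynomial I k),
      coeff (ex (2 ^ e) a b) (alS r S f) = coeff (ex (2 ^ e) a b) f := by
    intro S
    induction S using Finset.induction_on with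
    | empty => intro f; rw [alS_empty]; rfl
    | insert p S hp ih =>
      intro f
      rw [alS_insert r S p hp, AlgHom.comp_apply, ih]
      apply coeff_phi _ _ (by simp) _ e
      · simp [ex]
      · simp only [ex, Finsupp.equivFunOnFinite_symm_apply_apply, Sum.elim_inl]
        have : ∀ i : Fin 2, (![a, b] : Fin 2 → ℕ) i ≤ 2 * 2 ^ e - 1 := by
          intro i
          fin_cases i
          · simp; omega
          · simp; omega
        exact this p.1
  rw [← alS_univ, key]

end VSQR
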