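import Pool.Agent.H41.VS.Defs

/-!
# KILL: annihilators bounded in degree are killed by powers

`kill`: every homogeneous component `a_n` of `a` satisfies `x * a_n ∈ J` (`x` and `J` are
homogeneous), hence also `x * (y ^ B * a_n) ∈ J`; `y ^ B * a_n ∈ 𝒜 (B * m + n)` has degree
`≥ B`, so it is in `J`.  Sum over `n`.
-/

set_option autoImplicit false

namespace VSQR

open Finset

theorem sp_succ {A : Type} [CommRing A] (h : ℕ → A) (i : ℕ) :
    sp h (i + 1) = sp h i ⊔ Ideal.span {h i} := by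
  unfold sp
  rw [← Ideal.span_union]
  congr 1
  ext x
  simp only [Set.mem_ofPred_eq, Set.mem_union, Set.mem_singleton_iff]
  constructor
  · rintro ⟨j, hj, rfl⟩
    rcases Nat.lt_succ_iff_lt_or_eq.1 hj with h1 | h1
    · exact Or.inl ⟨j, h1, rfl⟩
    · exact Or.inr (by rw [h1])
  · rintro (⟨j, hj, rfl⟩ | h1)
    · exact ⟨j, Nat.lt_succ_of_lt hj, rfl⟩
    · exact ⟨i, Nat.lt_succ_self i, h1.symm⟩

theorem sp_zero {A : Type} [CommRing A] (h : ℕ → A) : sp h 0 = ⊥ := by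
  unfold sp
  have h1 : {x | ∃ j < 0, h j = x} = (∅ : Set A) := by
    ext x
    simp
  rw [h1, Ideal.span_empty]

variable {k A : Type} [Field k] [CommRing A] [Algebra k A] (𝒜 : ℕ → Submodule k A)
  [GradedAlgebra 𝒜]

theorem sp_homog (r : ℕ) (h : ℕ → A) (e : ℕ → ℕ) (he : ∀ i < r, h i ∈ 𝒜 (e i)) :
    (sp h r).IsHomogeneous 𝒜 := by
  refine Ideal.homogeneous_span 𝒜 _ ?_
  rintro x ⟨j, hj, rfl⟩
  exact ⟨e j, he j hj⟩

theorem kill (J : Ideal A) (hJ : J.IsHomogeneous 𝒜) {d m : ℕ} (x : A) (hx : x ∈ 𝒜 d) (B : ℕ)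
    (hB : ∀ n, ∀ a ∈ 𝒜 n, x * a ∈ J → a ∉ J → n < B) (y : A) (hy : y ∈ 𝒜 m) (hm : 0 < m)
    (a : A) (ha : x * a ∈ J) : y ^ B * a ∈ J := by
  classical
  rw [← DirectSum.sum_support_decompose 𝒜 a, Finset.mul_sum]
  refine Ideal.sum_mem _ fun n _ => ?_
  have h1 : x * (DirectSum.decompose 𝒜 a n : A) ∈ J := by
    rw [← DirectSum.coe_decompose_mul_add_of_left_mem 𝒜 hx]
    exact hJ (d + n) ha
  by_contra h2
  have h3 : y ^ B * (DirectSum.decompose 𝒜 a n : A) ∈ 𝒜 (B • m + n) :=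
    SetLike.mul_mem_graded (SetLike.pow_mem_graded B hy) (SetLike.coe_mem _)
  have h4 : x * (y ^ B * (DirectSum.decompose 𝒜 a n : A)) ∈ J := by
    rw [mul_left_comm]
    exact Ideal.mul_mem_left _ _ h1
  have h5 := hB _ _ h3 h4 h2
  rw [smul_eq_mul] at h5
  have h6 : B * 1 ≤ B * m := Nat.mul_le_mul_left B hm
  omega

end VSQR
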