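import Pool.Agent.H41.VS.NORM

/-!
# MU: the parameters `gg` in terms of the `hb`, with invariant coefficients

`M = 8 * N`, `2 ^ e ≥ 8 * N + 3`.  `t_i ^ N` is invariant and in `(hb)`, so by `norm_three`
`t_i ^ (8 N) = ∑ s_i hb_i`, `s_i` invariant.  `nn p ^ N = y_p ^ N * (y_p + t_i) ^ N` is
invariant (`al_nn`) and in `(hb)`, so `nn p ^ (8 N) = ∑ s_i hb_i`, and
`nn p ^ (2 ^ e) = nn p ^ (2 ^ e - 8 N) * nn p ^ (8 N)`.
-/

set_option autoImplicit false

namespace VSQR

open Finset MvPolynomial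

theorem mu_exists {k : Type} [Field k] [CharP k 2] (hb : I → MvPolynomial I k)
    (hinv : ∀ r i, al r (hb i) = hb i) (N : ℕ) (hN : 0 < N)
    (hX : ∀ i, (X i : MvPolynomial I k) ^ N ∈ Ideal.span (Set.range hb)) :
    ∃ (M e : ℕ) (μ : Matrix I I (MvPolynomial I k)), 1 ≤ M ∧ M + 3 ≤ 2 ^ e ∧
      (∀ r i j, al r (μ i j) = μ i j) ∧ ∀ i, gg k M (2 ^ e) i = ∑ j, μ i j * hb j := by
  have hle : 8 * N + 3 ≤ 2 ^ (8 * N + 3) := Nat.lt_two_pow_self.le
  have key : ∀ i : I, ∃ s : I → MvPolynomial I k, (∀ r j, al r (s j) = s j) ∧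
      gg k (8 * N) (2 ^ (8 * N + 3)) i = ∑ j, s j * hb j := by
    rintro (i | p)
    · obtain ⟨s, hs1, hs2⟩ := norm_three ((X (Sum.inl i) : MvPolynomial I k) ^ N) (by
        intro r
        rw [map_pow, al_inl]) hb hinv (hX (Sum.inl i))
      refine ⟨s, hs1, ?_⟩
      rw [← hs2, ← pow_mul, mul_comm N 8]
      rfl
    · obtain ⟨s, hs1, hs2⟩ := norm_three (nn k p ^ N) (by
        intro r
        rw [map_pow, al_nn]) hb hinv (by
        have h1 : nn k p ^ N = X (Sum.inr p) ^ N * (X (Sum.inr p) + X (Sum.inl p.1)) ^ N := by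
          rw [← mul_pow]
          congr 1
          unfold nn
          ring
        rw [h1]
        exact Ideal.mul_mem_right _ _ (hX (Sum.inr p)))
      refine ⟨fun j => nn k p ^ (2 ^ (8 * N + 3) - 8 * N) * s j, ?_, ?_⟩
      · intro r j
        rw [map_mul, map_pow, al_nn, hs1]
      · have h2 : gg k (8 * N) (2 ^ (8 * N + 3)) (Sum.inr p) =
            nn k p ^ (2 ^ (8 * N + 3) - 8 * N) * (nn k p ^ N) ^ 8 := by
          rw [← pow_mul, mul_comm N 8, ← pow_add, Nat.sub_add_cancel (by omega)]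
          rfl
        rw [h2, hs2, Finset.mul_sum]
        exact Finset.sum_congr rfl fun j _ => by ring
  choose μ hμ1 hμ2 using key
  exact ⟨8 * N, 8 * N + 3, μ, by omega, hle, fun r i j => hμ1 i r j, hμ2⟩

end VSQR
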