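import Pool.Agent.H41.VS.FIN

/-!
# Models of the cohomology ring
-/

set_option autoImplicit false

namespace VSQR

open Finset

/-- The (finite sums of) homogeneous cochains of the group `G` with values in `k`: functions `f` on
the finite sequences `(x_0,…,x_n)` of elements of `G`, `n ≥ 0`, vanishing on all long sequences,
with `f (g x_0,…,g x_n) = f (x_0,…,x_n)`. -/
def IsCochain {G k : Type} [Group G] [CommRing k] (f : List G → k) : Prop :=
  f [] = 0 ∧ (∃ N : ℕ, ∀ l : List G, N ≤ l.length → f l = 0) ∧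
    ∀ (g : G) (l : List G), f (l.map fun x => g * x) = f l

/-- The cocycles. -/
def IsCocycle {G k : Type} [Group G] [CommRing k] (f : List G → k) : Prop :=
  IsCochain f ∧ del f = 0

/-- `A` with the submodules `𝒜 n` is the graded ring `H^*(G, k) = ⊕ H^n(G, k)`, and `cl` maps a cocycle
to its cohomology class: on cocycles `cl` is `k`-linear, takes cup products to products and
`1` to `1`, its kernel consists of the coboundaries, it is onto `A`, and `𝒜 n` is the set of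
the classes of the cocycles of degree `n`. -/
def IsCohomologyRing (k G : Type) {A : Type} [Field k] [Group G] [CommRing A] [Algebra k A]
    (𝒜 : ℕ → Submodule k A) (cl : (List G → k) → A) : Prop :=
  (∀ f g : List G → k, IsCocycle f → IsCocycle g →
    cl (fun l => f l + g l) = cl f + cl g ∧ cl (cup f g) = cl f * cl g) ∧
  (∀ (c : k) (f : List G → k), IsCocycle f → cl (fun l => c * f l) = c • cl f) ∧
  cl uno = 1 ∧
  (∀ f : List G → k, IsCocycle f → (cl f = 0 ↔ ∃ b : List G → k, IsCochain b ∧ del b = f)) ∧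
  (∀ a : A, ∃ f : List G → k, IsCocycle f ∧ cl f = a) ∧
  ∀ (n : ℕ) (a : A), a ∈ 𝒜 n ↔
    ∃ f : List G → k, IsCocycle f ∧ (∀ l : List G, l.length ≠ n + 1 → f l = 0) ∧ cl f = a

section

variable {G k : Type} [Group G] [Field k] [CharP k 2]

theorem isCocycle_iff (f : List G → k) :
    IsCocycle f ↔ ∃ z : Zc k (⊤ : Subgroup G), ((z : Coch G k) : List G → k) = f := by
  constructor
  · rintro ⟨⟨h0, h1, h2⟩, h3⟩
    refine ⟨⟨⟨f, h0, h1⟩, ?_, ?_⟩, rfl⟩
    · intro g _
      apply Subtype.ext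
      funext l
      exact h2 _ l
    · exact Subtype.ext h3
  · rintro ⟨z, rfl⟩
    refine ⟨⟨(z : Coch G k).2.1, (z : Coch G k).2.2, ?_⟩, ?_⟩
    · intro g l
      have h := z.2.1 g⁻¹ (Subgroup.mem_top _)
      have h' := congrArg (fun w : Coch G k => (w : List G → k) l) h
      beta_reduce at h'
      rw [coe_act, inv_inv] at h'
      exact h'
    · exact congrArg Subtype.val z.2.2

theorem isCochain_iff (f : List G → k) :
    IsCochain f ↔ ∃ z : Coch G k, z ∈ Inv k (⊤ : Subgroup G) ∧ (z : List G → k) = f := by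
  constructor
  · rintro ⟨h0, h1, h2⟩
    refine ⟨⟨f, h0, h1⟩, ?_, rfl⟩
    intro g _
    apply Subtype.ext
    funext l
    exact h2 _ l
  · rintro ⟨z, hz, rfl⟩
    refine ⟨z.2.1, z.2.2, ?_⟩
    intro g l
    have h := hz g⁻¹ (Subgroup.mem_top _)
    have h' := congrArg (fun w : Coch G k => (w : List G → k) l) h
    beta_reduce at h'
    rw [coe_act, inv_inv] at h'
    exact h'

/-- the cohomology ring `Coh k ⊤` is a model -/
theorem model_exists : ∃ cl : (List G → k) → Coh k (⊤ : Subgroup G),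
    IsCohomologyRing k G (Hgr k (⊤ : Subgroup G)) cl := by
  classical
  refine ⟨fun f => if h : ∃ z : Zc k (⊤ : Subgroup G), ((z : Coch G k) : List G → k) = f
    then cls k ⊤ h.choose else 0, ?_⟩
  set cl : (List G → k) → Coh k (⊤ : Subgroup G) :=
    fun f => if h : ∃ z : Zc k (⊤ : Subgroup G), ((z : Coch G k) : List G → k) = f
    then cls k ⊤ h.choose else 0 with hcl
  have key : ∀ z : Zc k (⊤ : Subgroup G), cl ((z : Coch G k) : List G → k) = cls k ⊤ z := by
    intro z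
    have h : ∃ z' : Zc k (⊤ : Subgroup G), ((z' : Coch G k) : List G → k) =
      ((z : Coch G k) : List G → k) := ⟨z, rfl⟩
    rw [hcl]
    beta_reduce
    rw [dif_pos h]
    congr 1
    exact Subtype.ext (Subtype.ext h.choose_spec)
  refine ⟨?_, ?_, ?_, ?_, ?_, ?_⟩
  · intro f g hf hg
    obtain ⟨z, rfl⟩ := (isCocycle_iff f).1 hf
    obtain ⟨z', rfl⟩ := (isCocycle_iff g).1 hg
    rw [key, key]
    refine ⟨?_, ?_⟩
    · rw [← map_add]
      exact key (z + z')
    · rw [← map_mul]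
      exact key (z * z')
  · intro c f hf
    obtain ⟨z, rfl⟩ := (isCocycle_iff f).1 hf
    rw [key]
    exact key (c • z)
  · exact (key 1).trans (map_one _)
  · intro f hf
    obtain ⟨z, rfl⟩ := (isCocycle_iff f).1 hf
    rw [key, cls_eq_zero]
    constructor
    · rintro ⟨b, hb, hz⟩
      exact ⟨b, (isCochain_iff _).2 ⟨b, hb, rfl⟩, congrArg Subtype.val hz⟩
    · rintro ⟨b, hb, hz⟩
      obtain ⟨b, hb', rfl⟩ := (isCochain_iff _).1 hb
      exact ⟨b, hb', Subtype.ext hz⟩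
  · intro a
    obtain ⟨z, rfl⟩ := cls_surj _ a
    exact ⟨_, (isCocycle_iff _).2 ⟨z, rfl⟩, key z⟩
  · intro n a
    constructor
    · rintro ⟨z, hz, rfl⟩
      exact ⟨_, (isCocycle_iff _).2 ⟨z, rfl⟩, hz, key z⟩
    · rintro ⟨f, hf, hl, rfl⟩
      obtain ⟨z, rfl⟩ := (isCocycle_iff f).1 hf
      exact ⟨z, hl, (key z).symm⟩

variable {A : Type} [CommRing A] [Algebra k A]

/-- every model is isomorphic to `Coh k ⊤` -/
theorem model_equiv (𝒜 : ℕ → Submodule k A) (cl : (List G → k) → A)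
    (h : IsCohomologyRing k G 𝒜 cl) :
    ∃ φ : Coh k (⊤ : Subgroup G) ≃ₐ[k] A, ∀ n a, φ a ∈ 𝒜 n ↔ a ∈ Hgr k (⊤ : Subgroup G) n := by
  obtain ⟨h1, h2, h3, h4, h5, h6⟩ := h
  have hc : ∀ z : Zc k (⊤ : Subgroup G), IsCocycle ((z : Coch G k) : List G → k) :=
    fun z => (isCocycle_iff _).2 ⟨z, rfl⟩
  have hz : cl (fun _ => 0) = 0 := by
    have h7 := h2 0 _ (hc 0)
    rw [zero_smul] at h7
    rw [← h7]
    congr 1
    funext l
    rw [zero_mul]
  let ψ : Zc k (⊤ : Subgroup G) →+* A :=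
    { toFun := fun z => cl ((z : Coch G k) : List G → k)
      map_one' := h3
      map_mul' := fun z z' => (h1 _ _ (hc z) (hc z')).2
      map_zero' := hz
      map_add' := fun z z' => (h1 _ _ (hc z) (hc z')).1 }
  have hψ : ∀ z : Zc k (⊤ : Subgroup G), ψ z = 0 ↔ cls k ⊤ z = 0 := by
    intro z
    rw [cls_eq_zero]
    refine (h4 _ (hc z)).trans ?_
    constructor
    · rintro ⟨b, hb, hz⟩
      obtain ⟨b, hb', rfl⟩ := (isCochain_iff _).1 hb
      exact ⟨b, hb', Subtype.ext hz⟩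
    · rintro ⟨b, hb, hz⟩
      exact ⟨b, (isCochain_iff _).2 ⟨b, hb, rfl⟩, congrArg Subtype.val hz⟩
  let φ₀ : Coh k (⊤ : Subgroup G) →+* A := Ideal.Quotient.lift (Bc k ⊤) ψ (by
    intro z hz
    exact (hψ z).2 (Ideal.Quotient.eq_zero_iff_mem.2 hz))
  have hφ₀ : ∀ z, φ₀ (cls k ⊤ z) = ψ z := fun z => rfl
  have hinj : Function.Injective φ₀ := by
    rw [injective_iff_map_eq_zero]
    intro a ha
    obtain ⟨z, rfl⟩ := cls_surj _ a
    rw [hφ₀, hψ] at ha
    exact ha
  have hsurj : Function.Surjective φ₀ := by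
    intro a
    obtain ⟨f, hf, rfl⟩ := h5 a
    obtain ⟨z, rfl⟩ := (isCocycle_iff f).1 hf
    exact ⟨cls k ⊤ z, rfl⟩
  have hsmul : ∀ (c : k) (a : Coh k (⊤ : Subgroup G)), φ₀ (c • a) = c • φ₀ a := by
    intro c a
    obtain ⟨z, rfl⟩ := cls_surj _ a
    exact h2 c _ (hc z)
  let φ₁ : Coh k (⊤ : Subgroup G) →ₐ[k] A :=
    { φ₀ with
      commutes' := fun c => by
        change φ₀ (algebraMap k _ c) = _
        rw [Algebra.algebraMap_eq_smul_one, hsmul, map_one, Algebra.algebraMap_eq_smul_one] }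
  refine ⟨AlgEquiv.ofBijective φ₁ ⟨hinj, hsurj⟩, fun n a => ?_⟩
  rw [AlgEquiv.coe_ofBijective, h6]
  constructor
  · rintro ⟨f, hf, hl, hfa⟩
    obtain ⟨z, rfl⟩ := (isCocycle_iff f).1 hf
    have h8 : φ₀ (cls k ⊤ z) = φ₀ a := hfa
    exact ⟨z, hl, hinj h8⟩
  · rintro ⟨z, hl, rfl⟩
    exact ⟨_, hc z, hl, rfl⟩

end

section

variable {A B k : Type} [Field k] [CharP k 2] [CommRing A] [Algebra k A] [CommRing B]
  [Algebra k B]

/-- transport of the package along an isomorphism -/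
theorem pack_transport (𝒜 : ℕ → Submodule k A) (ℬ : ℕ → Submodule k B) (φ : A ≃ₐ[k] B)
    (hφ : ∀ n a, φ a ∈ ℬ n ↔ a ∈ 𝒜 n) (P : Pack k A 𝒜) : Nonempty (Pack k B ℬ) := by
  have hφ' : ∀ n b, b ∈ ℬ n ↔ φ.symm b ∈ 𝒜 n := by
    intro n b
    rw [← hφ, AlgEquiv.apply_symm_apply]
  have hfin : φ.symm.toAlgHom.toRingHom.Finite :=
    RingHom.Finite.of_surjective _ φ.symm.surjective
  have hN : IsNoetherianRing B → IsNoetherianRing A := fun h =>
    isNoetherianRing_of_ringEquiv B φ.symm.toRingEquiv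
  exact ⟨{
    rho := P.rho.comp φ.symm.toAlgHom
    tau := φ.toRingEquiv.toAddMonoidHom.comp P.tau
    rho' := P.rho'.comp φ.symm.toAlgHom
    rho_deg := fun n b hb => P.rho_deg n _ ((hφ' n b).1 hb)
    tau_deg := fun n s hs => (hφ n _).2 (P.tau_deg n s hs)
    proj := fun b s => by
      change φ (P.tau (P.rho (φ.symm b) * s)) = b * φ (P.tau s)
      rw [P.proj, map_mul, AlgEquiv.apply_symm_apply]
    rho_tau := fun s => by
      change P.rho (φ.symm (φ (P.tau s))) = _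
      rw [AlgEquiv.symm_apply_apply, P.rho_tau]
    al_rho := fun r b => P.al_rho r _
    fin := fun h => (P.fin (hN h)).comp hfin
    fin' := fun h => (P.fin' (hN h)).comp hfin
    zero := fun b hb => by
      obtain ⟨c, hc⟩ := P.zero _ ((hφ' 0 b).1 hb)
      refine ⟨c, ?_⟩
      rw [← AlgEquiv.apply_symm_apply φ b, hc, AlgEquiv.commutes] }⟩

theorem internal_transport (𝒜 : ℕ → Submodule k A) (ℬ : ℕ → Submodule k B) (φ : A ≃ₐ[k] B)
    (hφ : ∀ n a, φ a ∈ ℬ n ↔ a ∈ 𝒜 n) (h : DirectSum.IsInternal 𝒜) : DirectSum.IsInternal ℬ := by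
  have hmap : ℬ = fun n => (Submodule.orderIsoMapComap φ.toLinearEquiv) (𝒜 n) := by
    funext n
    ext b
    change b ∈ ℬ n ↔ b ∈ (𝒜 n).map (φ.toLinearEquiv : A →ₗ[k] B)
    constructor
    · intro hb
      refine ⟨φ.symm b, ?_, φ.apply_symm_apply b⟩
      change φ.symm b ∈ 𝒜 n
      rw [← hφ, AlgEquiv.apply_symm_apply]
      exact hb
    · rintro ⟨a, ha, rfl⟩
      exact (hφ n a).2 ha
  rw [DirectSum.isInternal_submodule_iff_iSupIndep_and_iSup_eq_top] at h ⊢
  rw [hmap]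
  refine ⟨h.1.map_orderIso (Submodule.orderIsoMapComap φ.toLinearEquiv), ?_⟩
  rw [← OrderIso.map_iSup, h.2, OrderIso.map_top]

end

/-- no model of the cohomology ring of `GG` has a very strongly quasi-regular system of
parameters -/
theorem model_main {A k : Type} [Field k] [CharP k 2] [CommRing A] [Algebra k A]
    (𝒜 : ℕ → Submodule k A) (cl : (List GG → k) → A) (h : IsCohomologyRing k GG 𝒜 cl) (r : ℕ)
    (hh : ℕ → A) (e : ℕ → ℕ) : ¬ IsVSQR k 𝒜 r hh e := by
  obtain ⟨φ, hφ⟩ := model_equiv 𝒜 cl h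
  obtain ⟨P⟩ := pack k
  obtain ⟨P'⟩ := pack_transport _ 𝒜 φ hφ P
  have hint := internal_transport _ 𝒜 φ hφ (Hgr_internal k (⊤ : Subgroup GG))
  have hone : (1 : A) ∈ 𝒜 0 := by
    have h1 := (hφ 0 1).2 (Hgr_one k _)
    rwa [map_one] at h1
  have hmul : ∀ {m n : ℕ} {a b : A}, a ∈ 𝒜 m → b ∈ 𝒜 n → a * b ∈ 𝒜 (m + n) := by
    intro m n a b ha hb
    obtain ⟨a, rfl⟩ := φ.surjective a
    obtain ⟨b, rfl⟩ := φ.surjective b
    rw [← map_mul, hφ]
    exact Hgr_mul k _ ((hφ _ _).1 ha) ((hφ _ _).1 hb)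
  letI : GradedAlgebra 𝒜 :=
    { hint.chooseDecomposition with
      one_mem := hone
      mul_mem := fun _ _ _ _ ha hb => hmul ha hb }
  exact algmain 𝒜 P' r hh e

end VSQR
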