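import Pool.Agent.H41.VS.Defs

/-!
# NOETH: a graded algebra, finite-dimensional modulo homogeneous elements of positive degree, is
Noetherian

Choose finitely many elements of `A` spanning `A` modulo `sp h r` over `k`; replace them by their
homogeneous components `w_1, …, w_m` (`w_j ∈ 𝒜 (n_j)`), which still span modulo `sp h r`.  Let
`B = Algebra.adjoin k ({h_i | i < r} ∪ {w_j})`.  Claim: `𝒜 n ≤ B` for all `n`, by strong induction:
for `a ∈ 𝒜 n` write `a = ∑ c_j w_j + ∑_{i<r} h_i a_i` and take the component of degree `n`: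
`a = ∑_{n_j = n} c_j w_j + ∑_i h_i (a_i)_{n - e i}` (the terms with `e i ≤ n`), where the
`(a_i)_{n - e i} ∈ 𝒜 (n - e i)` are in `B` by induction as `e i > 0`.  So `B = ⊤`, `A` is of
finite type over the field `k`, hence Noetherian (`Algebra.FiniteType.isNoetherianRing`).
-/

set_option autoImplicit false

namespace VSQR

open Finset

variable {k A : Type} [Field k] [CommRing A] [Algebra k A] (𝒜 : ℕ → Submodule k A)
  [GradedAlgebra 𝒜]

theorem noeth (r : ℕ) (h : ℕ → A) (e : ℕ → ℕ) (he : ∀ i < r, 0 < e i ∧ h i ∈ 𝒜 (e i))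
    (hfin : FiniteDimensional k (A ⧸ sp h r)) : IsNoetherianRing A := by
  classical
  obtain ⟨S, hS⟩ := (Module.Finite.fg_top : (⊤ : Submodule k (A ⧸ sp h r)).FG)
  obtain ⟨g, hg⟩ : ∃ g : (A ⧸ sp h r) → A, ∀ x, Ideal.Quotient.mk (sp h r) (g x) = x :=
    ⟨fun x => (Ideal.Quotient.mk_surjective x).choose,
      fun x => (Ideal.Quotient.mk_surjective x).choose_spec⟩
  have hsp : sp h r = Ideal.span (Set.range fun i : Fin r => h i) := by
    unfold sp
    congr 1
    ext x
    constructor
    · rintro ⟨j, hj, rfl⟩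
      exact ⟨⟨j, hj⟩, rfl⟩
    · rintro ⟨i, rfl⟩
      exact ⟨i, i.2, rfl⟩
  -- the generators
  let W : Finset A := (S.image g).biUnion fun t =>
    (DirectSum.decompose 𝒜 t).support.image fun n => (DirectSum.decompose 𝒜 t n : A)
  let T : Finset A := (Finset.univ.image fun i : Fin r => h i) ∪ W
  have hhT : ∀ i : Fin r, h i ∈ Algebra.adjoin k (T : Set A) := fun i =>
    Algebra.subset_adjoin (by
      rw [Finset.mem_coe]
      exact Finset.mem_union_left _ (Finset.mem_image_of_mem _ (Finset.mem_univ _)))
  have hwT : ∀ x ∈ S, ∀ n, (DirectSum.decompose 𝒜 (g x) n : A) ∈ Algebra.adjoin k (T : Set A) := by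
    intro x hx n
    by_cases h0 : DirectSum.decompose 𝒜 (g x) n = 0
    · rw [h0]
      exact Subalgebra.zero_mem _
    · refine Algebra.subset_adjoin ?_
      rw [Finset.mem_coe]
      refine Finset.mem_union_right _ (Finset.mem_biUnion.2 ⟨g x, Finset.mem_image_of_mem _ hx, ?_⟩)
      exact Finset.mem_image.2 ⟨n, DFinsupp.mem_support_iff.2 h0, rfl⟩
  have hproj_add : ∀ (a b : A) (n : ℕ), (DirectSum.decompose 𝒜 (a + b) n : A) =
      (DirectSum.decompose 𝒜 a n : A) + (DirectSum.decompose 𝒜 b n : A) := by
    intro a b n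
    rw [DirectSum.decompose_add]
    rfl
  have hproj_sum : ∀ {ι : Type} (s : Finset ι) (f : ι → A) (n : ℕ),
      (DirectSum.decompose 𝒜 (∑ i ∈ s, f i) n : A) =
        ∑ i ∈ s, (DirectSum.decompose 𝒜 (f i) n : A) := by
    intro ι s f n
    exact map_sum (GradedRing.proj 𝒜 n) f s
  have key : ∀ n, ∀ a ∈ 𝒜 n, a ∈ Algebra.adjoin k (T : Set A) := by
    intro n
    induction n using Nat.strong_induction_on with
    | _ n ih =>
      intro a ha
      -- an element of the span of the lifts
      have h1 : Ideal.Quotient.mk (sp h r) a ∈ Submodule.span k (S : Set (A ⧸ sp h r)) := by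
        rw [hS]
        trivial
      have h1' : Ideal.Quotient.mk (sp h r) a ∈
          Submodule.span k (Set.range fun x : S => (x : A ⧸ sp h r)) := by
        have h5 : (Set.range fun x : S => (x : A ⧸ sp h r)) = (S : Set (A ⧸ sp h r)) :=
          Subtype.range_coe
        rw [h5]
        exact h1
      obtain ⟨c, hc⟩ := (Submodule.mem_span_range_iff_exists_fun k).1 h1'
      let w : A := ∑ x : S, c x • g x
      have hw : Ideal.Quotient.mk (sp h r) w = Ideal.Quotient.mk (sp h r) a := by
        rw [← hc, map_sum]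
        refine Finset.sum_congr rfl fun x _ => ?_
        have h2 : Ideal.Quotient.mk (sp h r) (c x • g x) =
            c x • Ideal.Quotient.mk (sp h r) (g x) := rfl
        rw [h2, hg]
      have hz : a - w ∈ sp h r := by
        rw [← Ideal.Quotient.eq_zero_iff_mem, map_sub, hw, sub_self]
      rw [hsp] at hz
      obtain ⟨b, hb⟩ := Ideal.mem_span_range_iff_exists_fun.1 hz
      have ha2 : a = w + ∑ i : Fin r, b i * h i := by
        rw [hb]
        ring
      have ha3 : a = (DirectSum.decompose 𝒜 w n : A) +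
          ∑ i : Fin r, (DirectSum.decompose 𝒜 (b i * h i) n : A) := by
        have h3 : a = (DirectSum.decompose 𝒜 a n : A) := (DirectSum.decompose_of_mem_same 𝒜 ha).symm
        rw [h3]
        conv_lhs => rw [ha2]
        rw [hproj_add, hproj_sum _ (fun i : Fin r => b i * h i)]
      rw [ha3]
      refine Subalgebra.add_mem _ ?_ (Subalgebra.sum_mem _ fun i _ => ?_)
      · have h4 : (DirectSum.decompose 𝒜 w n : A) =
            ∑ x : S, c x • (DirectSum.decompose 𝒜 (g x) n : A) := by
          change (DirectSum.decompose 𝒜 (∑ x : S, c x • g x) n : A) = _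
          rw [hproj_sum]
          refine Finset.sum_congr rfl fun x _ => ?_
          rw [DirectSum.decompose_smul]
          rfl
        rw [h4]
        exact Subalgebra.sum_mem _ fun x _ => Subalgebra.smul_mem _ (hwT _ x.2 n) _
      · by_cases hle : e i ≤ n
        · rw [DirectSum.coe_decompose_mul_of_right_mem_of_le 𝒜 (he i i.2).2 hle]
          refine Subalgebra.mul_mem _ (ih (n - e i) ?_ _ (SetLike.coe_mem _)) (hhT i)
          have := (he i i.2).1
          omega
        · rw [DirectSum.coe_decompose_mul_of_right_mem_of_not_le 𝒜 (he i i.2).2 hle]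
          exact Subalgebra.zero_mem _
  have htop : Algebra.adjoin k (T : Set A) = ⊤ := by
    refine eq_top_iff.2 fun a _ => ?_
    rw [← DirectSum.sum_support_decompose 𝒜 a]
    exact Subalgebra.sum_mem _ fun n _ => key n _ (SetLike.coe_mem _)
  have hft : Algebra.FiniteType k A := ⟨⟨T, htop⟩⟩
  exact Algebra.FiniteType.isNoetherianRing k A

end VSQR
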