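import Pool.Agent.H41.VS.ALB

/-!
# NORM: invariant coefficients for a power

`norm_one`: `x ^ 2 = x * T x = ∑_i hb_i^2 s_i (T s_i) + ∑_{i<j} hb_i hb_j (s_i (T s_j) + s_j (T s_i))`, so
`s'_i = hb_i * s_i * T s_i + ∑_{j>i} hb_j * (s_i * T s_j + s_j * T s_i)` works.
`norm_three`: apply `norm_one` three times with `T = al (Pi.single j 1)`, `j = 0, 1, 2`; these
commute and are involutions (`al_al`, `al_zero`), and every `al r` is a composite of them.  (Number the set `I` with
`Fin 8`, for instance by `Fintype.equivFinOfCardEq`.)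
-/

set_option autoImplicit false

namespace VSQR

open Finset MvPolynomial

theorem norm_dsum {S : Type} [CommRing S] {n : ℕ} (a : Fin n → Fin n → S) :
    ∑ l, ∑ j, a l j = ∑ l, (a l l + ∑ j ∈ Ioi l, (a l j + a j l)) := by
  have h1 : ∀ l j : Fin n, a l j = (if j = l then a l j else 0) + ((if l < j then a l j else 0) +
      (if j < l then a l j else 0)) := by
    intro l j
    rcases lt_trichotomy l j with h | h | h
    · rw [if_neg h.ne', if_pos h, if_neg h.le.not_gt]; ring
    · subst h; simp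
    · rw [if_neg h.ne, if_neg h.le.not_gt, if_pos h]; ring
  have h2 : ∑ l, ∑ j, (if j < l then a l j else 0) = ∑ l, ∑ j, (if l < j then a j l else 0) :=
    Finset.sum_comm
  have h3 : ∀ (l : Fin n) (f : Fin n → S), ∑ j, (if l < j then f j else 0) = ∑ j ∈ Ioi l, f j := by
    intro l f
    rw [← Finset.sum_filter]
    refine Finset.sum_congr ?_ fun _ _ => rfl
    ext j
    simp
  calc ∑ l, ∑ j, a l j = ∑ l, ∑ j, ((if j = l then a l j else 0) +
        ((if l < j then a l j else 0) + (if j < l then a l j else 0))) := by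
        refine Finset.sum_congr rfl fun l _ => Finset.sum_congr rfl fun j _ => h1 l j
    _ = ∑ l, ∑ j, (if j = l then a l j else 0) + (∑ l, ∑ j, (if l < j then a l j else 0) +
        ∑ l, ∑ j, (if j < l then a l j else 0)) := by
        simp only [Finset.sum_add_distrib]
    _ = ∑ l, (a l l + ∑ j ∈ Ioi l, (a l j + a j l)) := by
        rw [h2]
        simp only [Finset.sum_add_distrib, h3, Finset.sum_ite_eq', Finset.mem_univ, if_true]

theorem norm_one {S : Type} [CommRing S] (T : S →+* S) (hT : ∀ s, T (T s) = s) {n : ℕ}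
    (hb : Fin n → S) (hhb : ∀ l, T (hb l) = hb l) (x : S) (hx : T x = x) (s : Fin n → S)
    (hs : x = ∑ l, hb l * s l) :
    ∃ s' : Fin n → S, x ^ 2 = ∑ l, hb l * s' l ∧ (∀ l, T (s' l) = s' l) ∧
      ∀ T' : S →+* S, (∀ a, T (T' a) = T' (T a)) → (∀ l, T' (hb l) = hb l) →
        (∀ l, T' (s l) = s l) → ∀ l, T' (s' l) = s' l := by
  refine ⟨fun l => hb l * (s l * T (s l)) + ∑ j ∈ Ioi l, hb j * (s l * T (s j) + s j * T (s l)),
    ?_, ?_, ?_⟩
  · have h1 : x = ∑ j, hb j * T (s j) := by
      conv_lhs => rw [← hx, hs]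
      rw [map_sum]
      refine Finset.sum_congr rfl fun j _ => ?_
      rw [map_mul, hhb]
    have h2 : x ^ 2 = ∑ l, ∑ j, (hb l * s l) * (hb j * T (s j)) := by
      rw [← Finset.sum_mul_sum, ← hs, ← h1, sq]
    rw [h2, norm_dsum]
    refine Finset.sum_congr rfl fun l _ => ?_
    rw [mul_add, Finset.mul_sum]
    congr 1
    · ring
    · refine Finset.sum_congr rfl fun j _ => ?_
      ring
  · intro l
    rw [map_add, map_mul, map_mul, hhb, hT, map_sum]
    congr 1
    · ring
    · refine Finset.sum_congr rfl fun j _ => ?_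
      rw [map_mul, map_add, map_mul, map_mul, hhb, hT, hT]
      ring
  · intro T' hc hhb' hs' l
    have h1 : ∀ l, T' (T (s l)) = T (s l) := by
      intro l
      rw [← hc, hs']
    rw [map_add, map_mul, map_mul, hhb', hs', h1, map_sum]
    congr 1
    refine Finset.sum_congr rfl fun j _ => ?_
    rw [map_mul, map_add, map_mul, map_mul, hhb', hs', hs', h1, h1]

theorem norm_all {k : Type} [CommRing k] [CharP k 2] (s : MvPolynomial I k)
    (hs : ∀ j : Fin 3, al (Pi.single j 1) s = s) (r : Fin 3 → ZMod 2) : al r s = s := by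
  classical
  let H : AddSubmonoid (Fin 3 → ZMod 2) :=
    { carrier := {r | al r s = s}
      add_mem' := by
        intro a b ha hb
        change al (a + b) s = s
        rw [← al_al]
        have ha' : al a s = s := ha
        have hb' : al b s = s := hb
        rw [hb', ha']
      zero_mem' := al_zero s }
  have h1 : r ∈ H := by
    rw [← Finset.univ_sum_single r]
    refine AddSubmonoid.sum_mem _ fun j _ => ?_
    have h2 : r j = 0 ∨ r j = 1 := by
      generalize r j = z
      revert z
      decide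
    rcases h2 with h2 | h2
    · rw [h2, Pi.single_zero]
      exact H.zero_mem
    · rw [h2]
      exact hs j
  exact h1

theorem norm_three {k : Type} [CommRing k] [CharP k 2] (x : MvPolynomial I k)
    (hx : ∀ r, al r x = x) (hb : I → MvPolynomial I k) (hhb : ∀ r i, al r (hb i) = hb i)
    (hxs : x ∈ Ideal.span (Set.range hb)) :
    ∃ s : I → MvPolynomial I k, (∀ r i, al r (s i) = s i) ∧ x ^ 8 = ∑ i, s i * hb i := by
  classical
  obtain ⟨c, hc⟩ := Ideal.mem_span_range_iff_exists_fun.1 hxs
  let E : Fin (Fintype.card I) ≃ I := (Fintype.equivFin I).symm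
  let T : Fin 3 → (MvPolynomial I k →+* MvPolynomial I k) :=
    fun j => ((al (Pi.single j 1) : MvPolynomial I k →ₐ[k] MvPolynomial I k) :
      MvPolynomial I k →+* MvPolynomial I k)
  have hTa : ∀ j s, T j s = al (Pi.single j 1) s := fun _ _ => rfl
  have hTT : ∀ j s, T j (T j s) = s := by
    intro j s
    rw [hTa, hTa, al_al]
    have h : (Pi.single j 1 + Pi.single j 1 : Fin 3 → ZMod 2) = 0 := by
      ext i
      exact GG.tw _
    rw [h, al_zero]
  have hcomm : ∀ i j s, T i (T j s) = T j (T i s) := by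
    intro i j s
    rw [hTa, hTa, hTa, hTa, al_al, al_al, add_comm]
  have hTx : ∀ j, T j x = x := fun j => hx _
  have hThb : ∀ j l, T j (hb (E l)) = hb (E l) := fun j l => hhb _ _
  obtain ⟨s0, h0, i00, -⟩ := norm_one (T 0) (hTT 0) (fun l => hb (E l)) (hThb 0) x (hTx 0)
    (fun l => c (E l)) (by
      rw [← hc, ← E.sum_comp]
      exact Finset.sum_congr rfl fun l _ => mul_comm _ _)
  obtain ⟨s1, h1, i11, q1⟩ := norm_one (T 1) (hTT 1) (fun l => hb (E l)) (hThb 1) (x ^ 2)
    (by rw [map_pow, hTx]) s0 h0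
  have i10 := q1 (T 0) (hcomm 1 0) (hThb 0) i00
  obtain ⟨s2, h2, i22, q2⟩ := norm_one (T 2) (hTT 2) (fun l => hb (E l)) (hThb 2) ((x ^ 2) ^ 2)
    (by rw [map_pow, map_pow, hTx]) s1 h1
  have i21 := q2 (T 1) (hcomm 2 1) (hThb 1) i11
  have i20 := q2 (T 0) (hcomm 2 0) (hThb 0) i10
  refine ⟨fun i => s2 (E.symm i), ?_, ?_⟩
  · intro r i
    refine norm_all _ (fun j => ?_) r
    fin_cases j
    · exact i20 _
    · exact i21 _
    · exact i22 _
  · have h3 : x ^ 8 = ((x ^ 2) ^ 2) ^ 2 := by ring
    rw [h3, h2, ← E.sum_comp]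
    refine Finset.sum_congr rfl fun l _ => ?_
    change hb (E l) * s2 l = s2 (E.symm (E l)) * hb (E l)
    rw [E.symm_apply_apply, mul_comm]

end VSQR
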