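import Mathlib

/-!
# POLYS: a graded algebra with a regular element of degree one and polynomial quotient

Surjectivity: every `a ∈ 𝒜 n` is in the range, by strong induction on `n`: `f a = F (f x)` for
some `F ∈ k[σ]`, so `a - F (x) = c * b`; take the component of degree `n`: the components of
`F (x)` are the values at `x` of the homogeneous components of `F` (because `x i ∈ 𝒜 1`) and
the component of degree `n` of `c * b` is `c * b_(n-1)` (`0` if `n = 0`).
Injectivity: write `F = ∑ X none ^ j * F_j` with `F_j ∈ k[σ]` (`MvPolynomial.optionEquivLeft`).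
If `F ≠ 0` take `j` minimal with `F_j ≠ 0`; `F (c, x) = 0` and regularity of `c` give
`F_j (x) + c * (…) = 0`, apply `f`.
-/

set_option autoImplicit false

namespace VSQR

open MvPolynomial

section polys_aux

variable {k A σ : Type} [CommRing k] [CommRing A] [Algebra k A]
    (𝒜 : ℕ → Submodule k A) [GradedAlgebra 𝒜]

theorem polys_mem (x : σ → A) (hx : ∀ i, x i ∈ 𝒜 1) (n : ℕ) (F : MvPolynomial σ k)
    (hF : F.IsHomogeneous n) : aeval x F ∈ 𝒜 n := by
  classical
  rw [aeval_def, eval₂_eq]
  refine Submodule.sum_mem _ fun d hd => ?_
  rw [← Algebra.smul_def]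
  refine Submodule.smul_mem _ _ ?_
  have h1 : ∏ i ∈ d.support, x i ^ d i ∈ 𝒜 (∑ i ∈ d.support, d i • 1) :=
    SetLike.prod_mem_graded 𝒜 _ _ fun i _ => SetLike.pow_mem_graded _ (hx i)
  have h2 : ∑ i ∈ d.support, d i • 1 = n := by
    have h3 := hF (mem_support_iff.1 hd)
    rw [← h3, Finsupp.weight_apply, Finsupp.sum]
    rfl
  rw [h2] at h1
  exact h1

theorem polys_proj (x : σ → A) (hx : ∀ i, x i ∈ 𝒜 1) (n : ℕ) (F : MvPolynomial σ k) :
    (DirectSum.decompose 𝒜 (aeval x F) n : A) = aeval x (homogeneousComponent n F) := by
  classical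
  conv_lhs => rw [← sum_homogeneousComponent F]
  rw [map_sum, DirectSum.decompose_sum]
  have h1 : ∀ i : ℕ, ((DirectSum.decompose 𝒜 (aeval x (homogeneousComponent i F))) n : A) =
      if i = n then aeval x (homogeneousComponent n F) else 0 := by
    intro i
    have h2 := polys_mem 𝒜 x hx i _ (homogeneousComponent_isHomogeneous i F)
    split_ifs with h
    · subst h
      exact DirectSum.decompose_of_mem_same 𝒜 h2
    · exact DirectSum.decompose_of_mem_ne 𝒜 h2 h
  rw [DFinsupp.finsetSum_apply]
  push_cast
  rw [Finset.sum_congr rfl fun i _ => h1 i, Finset.sum_ite_eq']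
  split_ifs with h
  · rfl
  · rw [Finset.mem_range, not_lt] at h
    rw [homogeneousComponent_eq_zero _ _ (by omega), map_zero]

end polys_aux

theorem poly_step {k A B σ : Type} [CommRing k] [CommRing A] [Algebra k A] [CommRing B]
    [Algebra k B] (𝒜 : ℕ → Submodule k A) [GradedAlgebra 𝒜] (f : A →ₐ[k] B) (c : A)
    (hc : c ∈ 𝒜 1) (hreg : ∀ a, c * a = 0 → a = 0) (hker : ∀ a, f a = 0 → ∃ b, a = c * b)
    (hfc : f c = 0) (x : σ → A) (hx : ∀ i, x i ∈ 𝒜 1)
    (hb : Function.Bijective (aeval (fun i => f (x i)) : MvPolynomial σ k →ₐ[k] B)) :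
    Function.Bijective
      (aeval (fun o : Option σ => o.elim c x) : MvPolynomial (Option σ) k →ₐ[k] A) := by
  classical
  have hfx : ∀ F : MvPolynomial σ k, f (aeval x F) = aeval (fun i => f (x i)) F := by
    intro F
    have h := congrArg (fun g => g F) (comp_aeval (R := k) x f)
    simpa using h
  constructor
  · -- injectivity
    have key : ∀ n : ℕ, ∀ P : Polynomial (MvPolynomial σ k), P.natDegree ≤ n →
        Polynomial.eval₂ ((aeval x : MvPolynomial σ k →ₐ[k] A) : MvPolynomial σ k →+* A) c P = 0 →
        P = 0 := by
      have step : ∀ P : Polynomial (MvPolynomial σ k),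
          Polynomial.eval₂ ((aeval x : MvPolynomial σ k →ₐ[k] A) : MvPolynomial σ k →+* A) c P
            = 0 → P.coeff 0 = 0 ∧ Polynomial.eval₂
            ((aeval x : MvPolynomial σ k →ₐ[k] A) : MvPolynomial σ k →+* A) c P.divX = 0 := by
        intro P hP
        have h1 := Polynomial.divX_mul_X_add P
        have h2 : Polynomial.eval₂
            ((aeval x : MvPolynomial σ k →ₐ[k] A) : MvPolynomial σ k →+* A) c P.divX * c +
            aeval x (P.coeff 0) = 0 := by
          rw [← h1, Polynomial.eval₂_add, Polynomial.eval₂_mul, Polynomial.eval₂_X,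
            Polynomial.eval₂_C] at hP
          exact hP
        have h3 : P.coeff 0 = 0 := by
          apply hb.1
          rw [map_zero, ← hfx]
          have h4 := congrArg f h2
          rw [map_add, map_mul, hfc, mul_zero, zero_add, map_zero] at h4
          exact h4
        refine ⟨h3, ?_⟩
        rw [h3, map_zero, add_zero, mul_comm] at h2
        exact hreg _ h2
      intro n
      induction n with
      | zero =>
        intro P hn hP
        have h1 := step P hP
        rw [Polynomial.eq_C_of_natDegree_le_zero hn, h1.1, Polynomial.C_0]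
      | succ n ih =>
        intro P hn hP
        have h1 := step P hP
        have h2 := ih P.divX (by rw [Polynomial.natDegree_divX_eq_natDegree_tsub_one]; omega) h1.2
        rw [← Polynomial.divX_mul_X_add P, h1.1, h2]
        simp
    rw [injective_iff_map_eq_zero]
    intro F hF
    have h1 : ∀ G : MvPolynomial (Option σ) k, aeval (fun o : Option σ => o.elim c x) G =
        Polynomial.eval₂ ((aeval x : MvPolynomial σ k →ₐ[k] A) : MvPolynomial σ k →+* A) c
          (optionEquivLeft k σ G) := by
      intro G
      induction G using MvPolynomial.induction_on with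
      | C a =>
        simp [optionEquivLeft_C]
      | add p q hp hq =>
        rw [map_add, map_add, Polynomial.eval₂_add, hp, hq]
      | mul_X p i hp =>
        rw [map_mul, map_mul, Polynomial.eval₂_mul, hp]
        congr 1
        cases i with
        | none => simp [optionEquivLeft_X_none]
        | some i => simp [optionEquivLeft_X_some]
    rw [h1] at hF
    have h2 := key _ _ le_rfl hF
    exact (map_eq_zero_iff _ (optionEquivLeft k σ).injective).1 h2
  · -- surjectivity
    have hsome : ∀ F : MvPolynomial σ k,
        aeval (fun o : Option σ => o.elim c x) (rename some F) = aeval x F := by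
      intro F
      rw [aeval_rename]
      rfl
    have hmem : ∀ n : ℕ, ∀ a ∈ 𝒜 n,
        a ∈ (aeval (fun o : Option σ => o.elim c x) : MvPolynomial (Option σ) k →ₐ[k] A).range := by
      have hcr : c ∈ (aeval (fun o : Option σ => o.elim c x) :
          MvPolynomial (Option σ) k →ₐ[k] A).range := ⟨X none, by simp⟩
      have hxr : ∀ F : MvPolynomial σ k, aeval x F ∈ (aeval (fun o : Option σ => o.elim c x) :
          MvPolynomial (Option σ) k →ₐ[k] A).range := fun F => ⟨rename some F, hsome F⟩
      have base : ∀ a : A, ∃ (F : MvPolynomial σ k) (b : A), a = aeval x F + c * b := by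
        intro a
        obtain ⟨F, hF⟩ := hb.2 (f a)
        obtain ⟨b, hb'⟩ := hker (a - aeval x F) (by
          rw [map_sub, hfx, hF, sub_self])
        exact ⟨F, b, by rw [← hb']; ring⟩
      intro n
      induction n with
      | zero =>
        intro a ha
        obtain ⟨F, b, hab⟩ := base a
        have h1 : a = aeval x (homogeneousComponent 0 F) := by
          have h2 : (DirectSum.decompose 𝒜 a 0 : A) = a := DirectSum.decompose_of_mem_same 𝒜 ha
          rw [← h2, ← polys_proj 𝒜 x hx 0 F]
          conv_lhs => rw [hab]
          rw [DirectSum.decompose_add]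
          push_cast
          rw [DirectSum.add_apply]
          push_cast
          rw [DirectSum.coe_decompose_mul_of_left_mem_of_not_le 𝒜 hc (by omega), add_zero]
        rw [h1]
        exact hxr _
      | succ n ih =>
        intro a ha
        obtain ⟨F, b, hab⟩ := base a
        have h1 : a = aeval x (homogeneousComponent (n + 1) F) +
            c * (DirectSum.decompose 𝒜 b n : A) := by
          have h2 : (DirectSum.decompose 𝒜 a (n + 1) : A) = a :=
            DirectSum.decompose_of_mem_same 𝒜 ha
          rw [← polys_proj 𝒜 x hx (n + 1) F]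
          conv_lhs => rw [← h2, hab]
          rw [DirectSum.decompose_add, DirectSum.add_apply]
          push_cast
          rw [add_comm n 1, DirectSum.coe_decompose_mul_add_of_left_mem 𝒜 hc]
        rw [h1]
        exact add_mem (hxr _) (mul_mem hcr (ih _ (SetLike.coe_mem _)))
    intro a
    have h : a ∈ (aeval (fun o : Option σ => o.elim c x) :
        MvPolynomial (Option σ) k →ₐ[k] A).range := by
      rw [← DirectSum.sum_support_decompose 𝒜 a]
      exact sum_mem fun i _ => hmem i _ (SetLike.coe_mem _)
    exact h

/-- degrees are preserved and detected -/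
theorem poly_deg {k A σ : Type} [CommRing k] [CommRing A] [Algebra k A]
    (𝒜 : ℕ → Submodule k A) [GradedAlgebra 𝒜] (x : σ → A) (hx : ∀ i, x i ∈ 𝒜 1)
    (hb : Function.Injective (aeval x : MvPolynomial σ k →ₐ[k] A)) (n : ℕ)
    (F : MvPolynomial σ k) : F.IsHomogeneous n ↔ aeval x F ∈ 𝒜 n := by
  classical
  constructor
  · exact polys_mem 𝒜 x hx n F
  · intro h
    have h1 : aeval x F = aeval x (homogeneousComponent n F) := by
      rw [← polys_proj 𝒜 x hx n F, DirectSum.decompose_of_mem_same 𝒜 h]
    rw [hb h1]
    exact homogeneousComponent_isHomogeneous n F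

end VSQR
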