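import Pool.Agent.H41.VS.GRADB
import Pool.Agent.H41.VS.GYS
import Pool.Agent.H41.VS.CONTR
import Pool.Agent.H41.VS.POLYS

/-!
# POLYI: the cohomology ring of an elementary abelian subgroup is a polynomial ring

`Finite.induction_empty_option` on `ι` (for all `H`, `θ`).
* Equivalence `α ≃ β`: `MvPolynomial.rename`.
* `ι = PEmpty`: `H` has one element, `H = ⊥`; `coh_bot`, `algebraMap_inj`.
* `Option σ`: let `H'` be the subgroup of the `h ∈ H` with `θ none h = 0`.  The `θ (some i)` satisfy
  the hypotheses for `H'`.  So `resC : Coh k H → Coh k H'` is onto, since the generators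
  `chi k H' (θ (some i))` are restrictions (`resC_chi`, `resC_smul`, `resA`).  In `gysin`:
  `tr = 0` as `tr (resC a) = 0`, so `c = chi k H (θ none)` is a nonzerodivisor, and the kernel of
  `resC` is `c * Coh k H`; `resC c = 0` since `θ none` vanishes on `H'`: `th k (θ none)` is
  `H'`-invariant, so `d (th …)` is a coboundary for `H'`.  Apply `poly_step` with
  `𝒜 = Hgr k H` (`Hgr_chi`).
-/

set_option autoImplicit false

namespace VSQR

open MvPolynomial

variable {G : Type} [Group G] {k : Type} [CommRing k] [CharP k 2]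

/-- the statement for a fixed index type -/
def PolyiP (G : Type) [Group G] (k : Type) [CommRing k] [CharP k 2] (ι : Type) : Prop :=
  ∀ (H : Subgroup G) (θ : ι → G → ZMod 2)
    (hθ : ∀ i, Addi H (θ i)) (_ : Function.Bijective fun (h : H) (i : ι) => θ i (h : G)),
    Function.Bijective
      (aeval (fun i => chi k H (θ i) (hθ i)) : MvPolynomial ι k →ₐ[k] Coh k H)

theorem polyi_equiv {α β : Type} (e : α ≃ β) (h : PolyiP G k α) : PolyiP G k β := by
  intro H θ hθ hb
  have h1 := h H (fun i => θ (e i)) (fun i => hθ (e i)) (by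
    have h2 : (fun (h : H) (i : α) => θ (e i) (h : G)) =
        (Equiv.arrowCongr e.symm (Equiv.refl (ZMod 2))) ∘ fun (h : H) (i : β) => θ i (h : G) := by
      funext h i
      simp
    rw [h2]
    exact (Equiv.bijective _).comp hb)
  have hcast : ∀ j j' : β, j = j' → chi k H (θ j) (hθ j) = chi k H (θ j') (hθ j') := by
    rintro j _ rfl
    rfl
  have h3 : (aeval (fun i => chi k H (θ i) (hθ i)) : MvPolynomial β k →ₐ[k] Coh k H) =
      (aeval (fun i => chi k H (θ (e i)) (hθ (e i))) : MvPolynomial α k →ₐ[k] Coh k H).comp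
        (rename e.symm) := by
    apply MvPolynomial.algHom_ext
    intro j
    rw [AlgHom.comp_apply, rename_X, aeval_X, aeval_X]
    exact hcast _ _ (e.apply_symm_apply j).symm
  rw [h3]
  have h4 : Function.Bijective (rename e.symm : MvPolynomial β k →ₐ[k] MvPolynomial α k) :=
    (renameEquiv k e.symm).bijective
  exact h1.comp h4

theorem polyi_empty : PolyiP G k PEmpty := by
  intro H θ hθ hb
  have hbot : H = ⊥ := by
    rw [Subgroup.eq_bot_iff_forall]
    intro x hx
    have h1 : (⟨x, hx⟩ : H) = 1 := hb.1 (funext fun i => i.elim)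
    exact congrArg Subtype.val h1
  subst hbot
  constructor
  · intro p q hpq
    obtain ⟨a, rfl⟩ := C_surjective PEmpty p
    obtain ⟨b, rfl⟩ := C_surjective PEmpty q
    rw [aeval_C, aeval_C] at hpq
    rw [algebraMap_inj _ hpq]
  · intro a
    obtain ⟨c, rfl⟩ := coh_bot a
    exact ⟨C c, aeval_C _ _⟩

/-- the kernel of a coordinate -/
def polyiKer (H : Subgroup G) (θ : G → ZMod 2) (h : Addi H θ) : Subgroup G where
  carrier := {x | x ∈ H ∧ θ x = 0}
  mul_mem' := by
    rintro a b ⟨ha, ha0⟩ ⟨hb, hb0⟩
    exact ⟨H.mul_mem ha hb, by rw [h a ha, ha0, hb0, add_zero]⟩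
  one_mem' := ⟨H.one_mem, h.one⟩
  inv_mem' := by
    rintro a ⟨ha, ha0⟩
    exact ⟨H.inv_mem ha, by rw [h.inv ha, ha0]⟩

theorem polyi_option {α : Type} (h : PolyiP G k α) : PolyiP G k (Option α) := by
  intro H θ hθ hb
  let H' := polyiKer H (θ none) (hθ none)
  have hle : H' ≤ H := fun x hx => hx.1
  have hb' : Function.Bijective fun (h : H') (i : α) => θ (some i) (h : G) := by
    constructor
    · intro a b hab
      have h1 : (⟨a.1, hle a.2⟩ : H) = ⟨b.1, hle b.2⟩ := by
        apply hb.1
        funext o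
        cases o with
        | none => exact a.2.2.trans b.2.2.symm
        | some i => exact congrFun hab i
      have h2 : (a : G) = b := congrArg (fun x : H => (x : G)) h1
      exact Subtype.ext h2
    · intro v
      obtain ⟨x, hx⟩ := hb.2 (fun o => o.elim 0 v)
      refine ⟨⟨x.1, x.2, congrFun hx none⟩, ?_⟩
      funext i
      exact congrFun hx (some i)
  have IH := h H' (fun i => θ (some i)) (fun i => (hθ (some i)).mono hle) hb'
  have hmem : ∀ x ∈ H, x ∈ H' ↔ θ none x = 0 := fun x hx => ⟨fun h => h.2, fun h => ⟨hx, h⟩⟩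
  have hex : ∃ g ∈ H, θ none g = 1 := by
    obtain ⟨x, hx⟩ := hb.2 (fun _ => 1)
    exact ⟨x.1, x.2, congrFun hx none⟩
  obtain ⟨tr, -, h2, -, h4, h5⟩ := gysin (k := k) hle (θ none) (hθ none) hmem hex
  have hsurj : ∀ s : Coh k H', ∃ a : Coh k H, s = resC hle a := by
    intro s
    obtain ⟨F, rfl⟩ := IH.2 s
    refine ⟨aeval (fun i => chi k H (θ (some i)) (hθ (some i))) F, ?_⟩
    rw [← resA_apply]
    have e1 : (resA k hle).comp
        (aeval (fun i => chi k H (θ (some i)) (hθ (some i))) : MvPolynomial α k →ₐ[k] Coh k H) =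
        aeval (fun i => chi k H' (θ (some i)) ((hθ (some i)).mono hle)) := by
      apply MvPolynomial.algHom_ext
      intro j
      rw [AlgHom.comp_apply, aeval_X, aeval_X]
      rfl
    exact (AlgHom.congr_fun e1 F).symm
  have htr : ∀ s, tr s = 0 := by
    intro s
    obtain ⟨a, rfl⟩ := hsurj s
    exact h2 a
  have hfc : resA k hle (chi k H (θ none) (hθ none)) = 0 := by
    rw [resA_apply, resC_chi]
    refine (cls_eq_zero H' _).2 ⟨th k (θ none), fun g hg => ?_, rfl⟩
    rw [act_th_of_mem (hθ none) hg.1, hg.2, map_zero, zero_smul, add_zero]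
  have hres := poly_step (Hgr k H) (resA k hle) (chi k H (θ none) (hθ none)) (Hgr_chi k H _ _)
    (fun a ha => by
      obtain ⟨s, rfl⟩ := h4 a ha
      exact htr s)
    (fun a ha => h5 a ha) hfc (fun i => chi k H (θ (some i)) (hθ (some i)))
    (fun i => Hgr_chi k H _ _) IH
  have hfun : (fun o : Option α => o.elim (chi k H (θ none) (hθ none))
      (fun i => chi k H (θ (some i)) (hθ (some i)))) = fun o => chi k H (θ o) (hθ o) := by
    funext o
    cases o <;> rfl
  rw [hfun] at hres
  exact hres

theorem poly_bij (ι : Type) [Finite ι] (H : Subgroup G) (θ : ι → G → ZMod 2)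
    (hθ : ∀ i, Addi H (θ i)) (hb : Function.Bijective fun (h : H) (i : ι) => θ i (h : G)) :
    Function.Bijective
      (aeval (fun i => chi k H (θ i) (hθ i)) : MvPolynomial ι k →ₐ[k] Coh k H) :=
  Finite.induction_empty_option (P := PolyiP G k) (fun e h => polyi_equiv e h) polyi_empty
    (fun h => polyi_option h) ι H θ hθ hb

end VSQR
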