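import Mathlib

/-!
# Homogeneous cochains: raw operations on functions on finite sequences

A cochain of degree `n` is a function of `n + 1` variables; all cochains together are functions on
lists. `cup` is the Alexander-Whitney product, `del` the differential, `uno` the unit.
-/

set_option autoImplicit false

namespace VSQR

open Finset

variable {X k : Type} [CommRing k]

/-- the cup product `(f ∪ g)(x_0,…,x_n) = ∑ i, f (x_0,…,x_i) g (x_i,…,x_n)` -/
def cup (f g : List X → k) : List X → k :=
  fun l => ∑ i ∈ range l.length, f (l.take (i + 1)) * g (l.drop i)

/-- the differential `(d f)(x_0,…,x_n) = ∑ i, (-1)^i f (x_0,…,x_{i-1},x_{i+1},…,x_n)` -/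
def del (f : List X → k) : List X → k :=
  fun l => ∑ i ∈ range l.length, (-1) ^ i * f (l.eraseIdx i)

/-- the unit: the constant function `1` of one variable -/
def uno : List X → k := fun l => if l.length = 1 then 1 else 0

theorem cup_nil (f g : List X → k) : cup f g [] = 0 := by simp [cup]

theorem cup_cons (f g : List X → k) (x : X) (l : List X) :
    cup f g (x :: l) = f [x] * g (x :: l) + cup (fun m => f (x :: m)) g l := by
  simp only [cup, List.length_cons]
  rw [Finset.sum_range_succ']
  simp only [List.take_succ_cons, List.drop_succ_cons, List.drop_zero, zero_add, List.take_zero]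
  rw [add_comm]

theorem del_nil (f : List X → k) : del f [] = 0 := by simp [del]

theorem del_cons (f : List X → k) (x : X) (l : List X) :
    del f (x :: l) = f l - del (fun m => f (x :: m)) l := by
  simp only [del, List.length_cons]
  rw [Finset.sum_range_succ']
  simp only [List.eraseIdx_cons_succ, List.eraseIdx_cons_zero, pow_zero, one_mul]
  rw [sub_eq_neg_add, ← Finset.sum_neg_distrib]
  congr 1
  refine Finset.sum_congr rfl fun i _ => ?_
  rw [pow_succ]
  ring

theorem cup_add_left (f f' g : List X → k) : cup (f + f') g = cup f g + cup f' g := by
  funext l
  simp only [cup, Pi.add_apply, add_mul, Finset.sum_add_distrib]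

theorem cup_add_right (f g g' : List X → k) : cup f (g + g') = cup f g + cup f g' := by
  funext l
  simp only [cup, Pi.add_apply, mul_add, Finset.sum_add_distrib]

theorem cup_smul_left (c : k) (f g : List X → k) : cup (c • f) g = c • cup f g := by
  funext l
  simp only [cup, Pi.smul_apply, smul_eq_mul, Finset.mul_sum, mul_assoc]

theorem cup_smul_right (c : k) (f g : List X → k) : cup f (c • g) = c • cup f g := by
  funext l
  simp only [cup, Pi.smul_apply, smul_eq_mul, Finset.mul_sum]
  refine Finset.sum_congr rfl fun i _ => ?_
  ring

theorem cup_assoc (f g h : List X → k) : cup (cup f g) h = cup f (cup g h) := by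
  funext l
  induction l generalizing f with
  | nil => rw [cup_nil, cup_nil]
  | cons x l ih =>
    rw [cup_cons (cup f g) h, cup_cons f (cup g h), ← ih]
    have h1 : (fun m => cup f g (x :: m)) =
        f [x] • (fun m => g (x :: m)) + cup (fun m => f (x :: m)) g := by
      funext m
      rw [cup_cons]
      rfl
    rw [h1, cup_add_left, cup_smul_left]
    rw [cup_cons f g, cup_nil, cup_cons g h]
    simp only [Pi.add_apply, Pi.smul_apply, smul_eq_mul]
    ring

theorem uno_cup (g : List X → k) (hg : g [] = 0) : cup uno g = g := by
  funext l
  cases l with
  | nil => rw [cup_nil, hg]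
  | cons x l =>
    rw [cup_cons]
    have h1 : ∀ m : List X, cup (fun m => uno (k := k) (x :: m)) g m = 0 := by
      intro m
      unfold cup
      refine Finset.sum_eq_zero fun i hi => ?_
      have : uno (k := k) (x :: m.take (i + 1)) = 0 := by
        unfold uno
        rw [if_neg]
        rw [Finset.mem_range] at hi
        simp only [List.length_cons, List.length_take]
        omega
      change uno (k := k) (x :: m.take (i + 1)) * g (List.drop i m) = 0
      rw [this, zero_mul]
    rw [h1]
    simp [uno]

theorem cup_uno (f : List X → k) (hf : f [] = 0) : cup f uno = f := by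
  have key : ∀ (l : List X) (f : List X → k), l ≠ [] → cup f uno l = f l := by
    intro l
    induction l with
    | nil => intro f h; exact absurd rfl h
    | cons x l ih =>
      intro f _
      rw [cup_cons]
      cases l with
      | nil => simp [cup_nil, uno]
      | cons y l =>
        rw [ih _ (by simp)]
        simp [uno]
  funext l
  cases l with
  | nil => rw [cup_nil, hf]
  | cons x l => exact key _ _ (by simp)

theorem del_add (f g : List X → k) : del (f + g) = del f + del g := by
  funext l
  simp only [del, Pi.add_apply, mul_add, Finset.sum_add_distrib]

theorem del_smul (c : k) (f : List X → k) : del (c • f) = c • del f := by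
  funext l
  simp only [del, Pi.smul_apply, smul_eq_mul, Finset.mul_sum]
  refine Finset.sum_congr rfl fun i _ => ?_
  ring

theorem del_del (f : List X → k) : del (del f) = 0 := by
  funext l
  induction l generalizing f with
  | nil => rw [del_nil]; rfl
  | cons x l ih =>
    rw [del_cons]
    have h1 : (fun m => del f (x :: m)) = f + (-1 : k) • del (fun m => f (x :: m)) := by
      funext m
      rw [del_cons]
      simp only [Pi.add_apply, Pi.smul_apply, smul_eq_mul]
      ring
    rw [h1, del_add, del_smul]
    have h2 := ih (fun m => f (x :: m))
    simp only [Pi.add_apply, Pi.smul_apply, smul_eq_mul, Pi.zero_apply] at h2 ⊢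
    rw [h2]
    ring

end VSQR
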