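import Pool.Agent.H41.VS.Raw

/-!
# Characteristic 2: Leibniz rule, the cup-one product
-/

set_option autoImplicit false

namespace VSQR

open Finset

variable {X k : Type} [CommRing k]

/-- Steenrod's cup-one product, by recursion -/
def cupOne : (List X → k) → (List X → k) → List X → k
  | _, _, [] => 0
  | f, g, x :: l => cup (fun m => g (x :: m)) (fun m => f (x :: m)) l +
      cupOne (fun m => f (x :: m)) g l

theorem cupOne_nil (f g : List X → k) : cupOne f g [] = 0 := by simp [cupOne]

theorem cupOne_cons (f g : List X → k) (x : X) (l : List X) :
    cupOne f g (x :: l) = cup (fun m => g (x :: m)) (fun m => f (x :: m)) l +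
      cupOne (fun m => f (x :: m)) g l := by
  rw [cupOne]

theorem cupOne_add_left (f f' g : List X → k) :
    cupOne (f + f') g = cupOne f g + cupOne f' g := by
  funext l
  induction l generalizing f f' with
  | nil => simp [cupOne_nil]
  | cons x l ih =>
    have h1 : (fun m => (f + f') (x :: m)) = (fun m => f (x :: m)) + (fun m => f' (x :: m)) := rfl
    rw [Pi.add_apply, cupOne_cons, cupOne_cons, cupOne_cons, h1, ih, cup_add_right]
    simp only [Pi.add_apply]
    ring

theorem cupOne_add_right (f g g' : List X → k) :
    cupOne f (g + g') = cupOne f g + cupOne f g' := by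
  funext l
  induction l generalizing f with
  | nil => simp [cupOne_nil]
  | cons x l ih =>
    have h1 : (fun m => (g + g') (x :: m)) = (fun m => g (x :: m)) + (fun m => g' (x :: m)) := rfl
    rw [Pi.add_apply, cupOne_cons, cupOne_cons, cupOne_cons, h1, ih, cup_add_left]
    simp only [Pi.add_apply]
    ring

variable [CharP k 2]

theorem two_zero (a : k) : a + a = 0 := CharTwo.add_self_eq_zero a

theorem del_cons' (f : List X → k) (x : X) (l : List X) :
    del f (x :: l) = f l + del (fun m => f (x :: m)) l := by
  rw [del_cons, CharTwo.sub_eq_add]

theorem del_cup (f g : List X → k) :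
    del (cup f g) = cup (del f) g + cup f (del g) + f [] • g + g [] • f := by
  have h2 : (2 : k) = 0 := CharTwo.two_eq_zero
  funext l
  induction l generalizing f with
  | nil =>
    simp only [Pi.add_apply, Pi.smul_apply, smul_eq_mul, del_nil, cup_nil]
    linear_combination (-(f [] * g [])) * h2
  | cons x l ih =>
    have e1 : (fun m => cup f g (x :: m)) =
        f [x] • (fun m => g (x :: m)) + cup (fun m => f (x :: m)) g := by
      funext m
      rw [cup_cons]
      rfl
    have e2 : (fun m => del f (x :: m)) = f + del (fun m => f (x :: m)) := by
      funext m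
      rw [del_cons']
      rfl
    have e3 := ih (fun m => f (x :: m))
    simp only [Pi.add_apply, Pi.smul_apply, smul_eq_mul] at e3 ⊢
    rw [del_cons', e1, del_add, del_smul, cup_cons (del f) g, e2, cup_add_left, del_cons' f x [],
      del_nil, cup_cons f (del g), del_cons' g x l]
    simp only [Pi.add_apply, Pi.smul_apply, smul_eq_mul]
    rw [e3]
    linear_combination (-(f [] * g (x :: l))) * h2

theorem del_cupOne (f g : List X → k) :
    del (cupOne f g) = cupOne (del f) g + cupOne f (del g) + cup f g + cup g f := by
  have h2 : (2 : k) = 0 := CharTwo.two_eq_zero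
  funext l
  induction l generalizing f with
  | nil => simp only [Pi.add_apply, del_nil, cup_nil, cupOne_nil, add_zero]
  | cons x l ih =>
    have e1 : (fun m => cupOne f g (x :: m)) =
        cup (fun m => g (x :: m)) (fun m => f (x :: m)) + cupOne (fun m => f (x :: m)) g := by
      funext m
      rw [cupOne_cons]
      rfl
    have e2 : (fun m => del f (x :: m)) = f + del (fun m => f (x :: m)) := by
      funext m
      rw [del_cons']
      rfl
    have e2' : (fun m => del g (x :: m)) = g + del (fun m => g (x :: m)) := by
      funext m
      rw [del_cons']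
      rfl
    have e3 := ih (fun m => f (x :: m))
    have e4 := congrFun (del_cup (fun m => g (x :: m)) (fun m => f (x :: m))) l
    simp only [Pi.add_apply, Pi.smul_apply, smul_eq_mul] at e3 e4 ⊢
    rw [del_cons', e1, del_add, cupOne_cons (del f) g, e2, cup_add_right, cupOne_add_left,
      cupOne_cons f (del g), e2', cup_add_left, cup_cons f g, cup_cons g f]
    simp only [Pi.add_apply]
    rw [e3, e4]
    linear_combination (-(cup (fun m => g (x :: m)) f l)) * h2

end VSQR
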